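import Pool.Agent.Lib.MP_d439b2_co.H1.Spec1
import Pool.Agent.Lib.MP_d439b2_co.H1P.Spec

/-!
# MP_d439b2_co, column `C_4`, row `K3:0,1,02`, A13: linked cliques, from `H1P.S_LnkB`
-/

set_option autoImplicit false

namespace Pool.Agent.MPd439b2.H1

open Pool.Agent.MPd439b2 Pool.Agent.MPd439b2.LK

theorem pfA13 (h : H1P.S_LnkB) : S_A13 := by
  intro n
  obtain ⟨k, hk⟩ := h (fun V G => Chd G ∧ ∀ J, CompleteOn G J → J.ncard = n → ¬ Lk G J 3)
    (fun V _ G hG => hG.1) ⟨n, fun V _ G S hG hS hL => by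
      by_contra hn
      obtain ⟨J, hJS, hJ⟩ := Set.exists_subset_card_eq (not_lt.1 hn)
      refine hG.2 J (fun u hu v hv => hS u (hJS hu) v (hJS hv)) hJ fun X => ?_
      have e1 : (J ∩ X).ncard ≤ (S ∩ X).ncard :=
        Set.ncard_le_ncard (Set.inter_subset_inter_left X hJS) (Set.toFinite _)
      have e2 : (J \ X).ncard ≤ (S \ X).ncard :=
        Set.ncard_le_ncard (Set.sdiff_subset_sdiff_left hJS) (Set.toFinite _)
      rcases min_le_iff.1 (hL X) with h1 | h1
      · left; omega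
      · right; omega⟩
  exact ⟨k, fun V _ G hG hJ => hk V G ⟨hG, hJ⟩⟩

end Pool.Agent.MPd439b2.H1
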