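import Pool.Agent.Lib.MP_d439b2_co.H1.Spec2

/-!
# MP_d439b2_co, `H1` part: CH1

Adjacencies outside the sequence in type (CH) with singletons.
-/

set_option autoImplicit false

namespace Pool.Agent.MPd439b2.H1

open Pool.Agent.MPd439b2 Pool.Agent.MPd439b2.LK

/-- a vertex of `hV e` sees `s i` iff `i ≠ e` -/
theorem hV_adj {V : Type} {G : SimpleGraph V} {s : ℕ → V} {N e : ℕ} {v : V} (hv : v ∈ hV G s N e)
    {i : ℕ} (hi : i < N) (h : i ≠ e) : G.Adj v (s i) := by
  by_contra hn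
  have : i ∈ Tr G s N v := ⟨hi, hn⟩
  rw [hv.2] at this
  exact h this

theorem hV_nadj {V : Type} {G : SimpleGraph V} {s : ℕ → V} {N e : ℕ} {v : V} (hv : v ∈ hV G s N e) :
    ¬ G.Adj v (s e) := by
  have : e ∈ Tr G s N v := by rw [hv.2]; exact rfl
  exact this.2

theorem hV_lt {V : Type} {G : SimpleGraph V} {s : ℕ → V} {N e : ℕ} {v : V} (hv : v ∈ hV G s N e) :
    e < N := by
  have : e ∈ Tr G s N v := by rw [hv.2]; exact rfl
  exact this.1

theorem hL_adj {V : Type} {G : SimpleGraph V} {s : ℕ → V} {N p : ℕ} {l : V} (hl : l ∈ hL G s N p)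
    {i : ℕ} (hi : i < N) (h : p ≤ i) : G.Adj l (s i) := by
  by_contra hn
  have h1 : i ∈ Tr G s N l := ⟨hi, hn⟩
  rw [hl.2] at h1
  have h2 : i < p := h1
  omega

theorem hL_nadj {V : Type} {G : SimpleGraph V} {s : ℕ → V} {N p : ℕ} {l : V} (hl : l ∈ hL G s N p)
    {i : ℕ} (h : i < p) : ¬ G.Adj l (s i) := by
  have h1 : i ∈ Tr G s N l := by rw [hl.2]; exact h
  exact h1.2

theorem hF_adj {V : Type} {G : SimpleGraph V} {s : ℕ → V} {N : ℕ} {f : V} (hf : f ∈ hF G s N)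
    {i : ℕ} (hi : i < N) : G.Adj f (s i) := by
  by_contra hn
  have h1 : i ∈ Tr G s N f := ⟨hi, hn⟩
  rw [hf.2] at h1
  exact h1

/-- the vertex model with `a = a'` -/
theorem m1a (h1 : S_M1) {V : Type} {G : SimpleGraph V} (hG : Cls1 G) (a b c x y z : V)
    (hba : G.Adj b a) (hca : G.Adj c a) (hbc : G.Adj b c) (hxa : G.Adj x a) (hxb : ¬ G.Adj x b)
    (hxc : ¬ G.Adj x c) (hyb : G.Adj y b) (hya : ¬ G.Adj y a) (hyc : ¬ G.Adj y c)
    (hza : G.Adj z a) (hzc : G.Adj z c) (hzb : ¬ G.Adj z b) (hxy : ¬ G.Adj x y)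
    (hxz : ¬ G.Adj x z) (hyz : ¬ G.Adj y z) : False :=
  hG.2 (h1 V G a a b c x y z (Or.inl rfl) (Or.inl hba) (Or.inl hca) hbc hca.ne hca.ne hxa.ne hxa.ne
    hza.ne hza.ne (Or.inl hxa) hxb hxc hyb hya hya hyc (Or.inl hza) hzc hzb hxy hxz hyz)

/-- CH1 (1) -/
theorem ch1_1 (h3 : S_M3) {V : Type} {G : SimpleGraph V} {s : ℕ → V} {N : ℕ} (hG : Cls1 G)
    (hs : Sq G s N) {e e' : ℕ} {v v' : V} (hne : e ≠ e') (hv : v ∈ hV G s N e)
    (hv' : v' ∈ hV G s N e') : ¬ G.Adj v v' := by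
  intro hadj
  rcases h3 V G s N v v' hG.1 hs hv.1 hv'.1 hadj with h | h
  · rw [hv.2, hv'.2] at h
    exact hne (h rfl)
  · rw [hv.2, hv'.2] at h
    exact hne (h rfl).symm

/-- CH1 (2) -/
theorem ch1_2 (h1 : S_M1) (h2 : S_M2) (h3 : S_M3) {V : Type} {G : SimpleGraph V} {s : ℕ → V}
    {n : ℕ} (hG : Cls1 G) (hn : 4 ≤ n) (hs : Sq G s (n + 1)) (hT : WM G s (n + 1)) {e p : ℕ}
    {v l : V} (hp : 3 ≤ p ∨ p = 2 ∧ 2 ≤ e) (hpn : p ≤ n + 1) (_hen : e ≤ n)
    (hv : v ∈ hV G s (n + 1) e) (hl : l ∈ hL G s (n + 1) p) : ¬ G.Adj v l := by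
  intro hadj
  by_cases hep : p ≤ e
  · rcases h3 V G s (n + 1) v l hG.1 hs hv.1 hl.1 hadj with h | h
    · rw [hv.2, hl.2] at h
      have h4 : e < p := h rfl
      omega
    · rw [hv.2, hl.2] at h
      have h4 : (0 : ℕ) = e := h (show (0 : ℕ) < p by omega)
      have h5 : (1 : ℕ) = e := h (show (1 : ℕ) < p by omega)
      omega
  · have hp3 : 3 ≤ p := by omega
    have key : ∀ e' v', e' ≠ e → v' ∈ hV G s (n + 1) e' → ¬ G.Adj l v' := by
      intro e' v' hne hv' hlv'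
      obtain ⟨j, hj1, hj2, hj3⟩ : ∃ j, j < 3 ∧ j ≠ e ∧ j ≠ e' := by
        by_cases h0 : 0 ≠ e ∧ 0 ≠ e'
        · exact ⟨0, by omega, h0.1, h0.2⟩
        · by_cases h1 : 1 ≠ e ∧ 1 ≠ e'
          · exact ⟨1, by omega, h1.1, h1.2⟩
          · exact ⟨2, by omega, by omega, by omega⟩
      have hvj := hV_adj hv (show j < n + 1 by omega) hj2
      have hv'j := hV_adj hv' (show j < n + 1 by omega) hj3
      rcases h2 V G l v (s j) v' hG.1 hadj.symm hvj hv'j.symm hlv'.symm (hl.1 j (by omega))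
        (by
          intro h
          have h5 := hv'.2
          rw [← h, hv.2] at h5
          exact hne (Set.singleton_eq_singleton_iff.mp h5).symm) with h | h
      · exact hL_nadj hl (show j < p by omega) h
      · exact ch1_1 h3 hG hs (Ne.symm hne) hv hv' h
    obtain ⟨b, c, d, hb, hc, hd, hbe, hce, hde, hbc, hbd, hcd⟩ : ∃ b c d, b < 3 ∧ c < 3 ∧
        d < 4 ∧ b ≠ e ∧ c ≠ e ∧ d ≠ e ∧ b ≠ c ∧ b ≠ d ∧ c ≠ d := by
      by_cases h0 : e = 0
      · exact ⟨1, 2, 3, by omega, by omega, by omega, by omega, by omega, by omega, by omega,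
          by omega, by omega⟩
      · by_cases h1 : e = 1
        · exact ⟨0, 2, 3, by omega, by omega, by omega, by omega, by omega, by omega, by omega,
            by omega, by omega⟩
        · by_cases h2 : e = 2
          · exact ⟨0, 1, 3, by omega, by omega, by omega, by omega, by omega, by omega, by omega,
              by omega, by omega⟩
          · exact ⟨0, 1, 2, by omega, by omega, by omega, by omega, by omega, by omega, by omega,
              by omega, by omega⟩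
    obtain ⟨vc, hvc⟩ := hT c (by omega)
    obtain ⟨vd, hvd⟩ := hT d (by omega)
    have hvc' : vc ∈ hV G s (n + 1) c := hvc
    have hvd' : vd ∈ hV G s (n + 1) d := hvd
    exact m1a h1 hG (s b) v (s c) vc l vd (hV_adj hv (by omega) hbe)
      (hs c (by omega) b (by omega) (Ne.symm hbc)) (hV_adj hv (by omega) hce)
      (hV_adj hvc' (by omega) hbc) (ch1_1 h3 hG hs hce hvc' hv) (hV_nadj hvc') hadj.symm
      (hL_nadj hl (by omega)) (hL_nadj hl (by omega)) (hV_adj hvd' (by omega) hbd)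
      (hV_adj hvd' (by omega) hcd) (ch1_1 h3 hG hs hde hvd' hv)
      (fun h => key c vc hce hvc' h.symm) (ch1_1 h3 hG hs hcd hvc' hvd') (key d vd hde hvd')

theorem pfCH1 (h1 : S_M1) (h2 : S_M2) (h3 : S_M3) : S_CH1 := by
  intro V G s n hG hn hs hT
  have hM : WM G s (n + 1) := hT.2.2
  refine ⟨fun e e' v v' hne hv hv' => ch1_1 h3 hG hs hne hv hv',
    fun e p v l hp hpn hen hv hl => ch1_2 h1 h2 h3 hG hn hs hM hp hpn hen hv hl, ?_, ?_⟩
  · intro p q l l' hp hpq hqn hl hl' hadj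
    obtain ⟨v, hv⟩ := hM (q - 1) (by omega)
    obtain ⟨v', hv'⟩ := hM q (by omega)
    have hv1 : v ∈ hV G s (n + 1) (q - 1) := hv
    have hv1' : v' ∈ hV G s (n + 1) q := hv'
    exact m1a h1 hG (s q) (s (q - 1)) l v v' l' (hs _ (by omega) _ (by omega) (by omega))
      (hL_adj hl (by omega) (by omega)) (hL_adj hl (by omega) (by omega)).symm
      (hV_adj hv1 (by omega) (by omega)) (hV_nadj hv1)
      (ch1_2 h1 h2 h3 hG hn hs hM (by omega) (by omega) (by omega) hv1 hl)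
      (hV_adj hv1' (by omega) (by omega)) (hV_nadj hv1')
      (ch1_2 h1 h2 h3 hG hn hs hM (by omega) (by omega) (by omega) hv1' hl)
      (hL_adj hl' (by omega) (by omega)) hadj.symm (hL_nadj hl' (by omega))
      (ch1_1 h3 hG hs (by omega) hv1 hv1')
      (ch1_2 h1 h2 h3 hG hn hs hM (by omega) (by omega) (by omega) hv1 hl')
      (ch1_2 h1 h2 h3 hG hn hs hM (by omega) (by omega) (by omega) hv1' hl')
  · intro p l z hp hpn hl hz hadj
    obtain ⟨d, hd1, hd2, hd3, hd4⟩ : ∃ d, 2 ≤ d ∧ d ≤ n ∧ d ≠ p ∧ d ≠ p + 1 := by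
      by_cases h : p = 2
      · exact ⟨4, by omega, by omega, by omega, by omega⟩
      · exact ⟨2, by omega, by omega, by omega, by omega⟩
    obtain ⟨v, hv⟩ := hM p (by omega)
    obtain ⟨v', hv'⟩ := hM d (by omega)
    have hv1 : v ∈ hV G s (n + 1) p := hv
    have hv1' : v' ∈ hV G s (n + 1) d := hv'
    exact m1a h1 hG (s (p + 1)) l (s p) v z v' (hL_adj hl (by omega) (by omega))
      (hs _ (by omega) _ (by omega) (by omega)) (hL_adj hl (by omega) (by omega))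
      (hV_adj hv1 (by omega) (by omega))
      (ch1_2 h1 h2 h3 hG hn hs hM (by omega) (by omega) (by omega) hv1 hl)
      (hV_nadj hv1) hadj.symm (hL_nadj hz (by omega)) (hL_nadj hz (by omega))
      (hV_adj hv1' (by omega) (by omega)) (hV_adj hv1' (by omega) (by omega))
      (ch1_2 h1 h2 h3 hG hn hs hM (by omega) (by omega) (by omega) hv1' hl)
      (ch1_2 h1 h2 h3 hG hn hs hM (by omega) (by omega) (by omega) hv1 hz)
      (ch1_1 h3 hG hs (by omega) hv1 hv1')
      (fun h => ch1_2 h1 h2 h3 hG hn hs hM (by omega) (by omega) (by omega) hv1' hz h.symm)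

end Pool.Agent.MPd439b2.H1
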