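import Pool.Agent.Lib.MP_d439b2_co.H1.Spec2
import Pool.Agent.Lib.MP_d439b2_co.H1.CH1

/-!
# MP_d439b2_co, `H1` part: CH2

The vertices with empty missed set in type (CH) with singletons.
-/

set_option autoImplicit false

namespace Pool.Agent.MPd439b2.H1

open Pool.Agent.MPd439b2 Pool.Agent.MPd439b2.LK

theorem pfCH2 (h1 : S_M1) (hc : S_CH1) : S_CH2 := by
  intro V G s n hG hn hs hT f hf
  obtain ⟨c1, c2, c3, c4⟩ := hc V G s n hG hn hs hT
  have hM : WM G s (n + 1) := hT.2.2
  have hI : WI G s (n + 1) := hT.2.1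
  -- levels are not adjacent
  have c34 : ∀ p q x x', 2 ≤ p → p < q → q ≤ n + 1 → p ≤ n - 1 → x ∈ hL G s (n + 1) q →
      x' ∈ hL G s (n + 1) p → ¬ G.Adj x x' := by
    intro p q x x' hp hpq hq hpn hx hx' hadj
    rcases Nat.lt_or_ge q (n + 1) with h | h
    · exact c3 p q x' x hp hpq (by omega) hx' hx hadj.symm
    · have hq' : q = n + 1 := by omega
      subst hq'
      exact c4 p x' x hp hpn hx' hx hadj.symm
  have P1 : ∀ p q x, 2 ≤ p → p < q → q ≤ n + 1 → p ≤ n - 1 → x ∈ hL G s (n + 1) q → G.Adj f x →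
      ∀ x' ∈ hL G s (n + 1) p, G.Adj f x' := by
    intro p q x hp hpq hq hpn hx hfx x' hx'
    by_contra hfx'
    obtain ⟨v, hv⟩ := hM p (by omega)
    have hv1 : v ∈ hV G s (n + 1) p := hv
    have hvf : v ≠ f := by
      intro h
      have h5 := hv1.2
      rw [h, hf.2] at h5
      exact (Set.singleton_nonempty p).ne_empty h5.symm
    exact hG.2 (h1 V G f (s 1) (s p) (s 0) x x' v (Or.inr (hF_adj hf (by omega)))
      (Or.inl (hF_adj hf (by omega)).symm) (Or.inl (hF_adj hf (by omega)).symm)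
      (hs _ (by omega) _ (by omega) (by omega)) (hF_adj hf (by omega)).ne'
      (hs 0 (by omega) 1 (by omega) (by omega)).ne hfx.ne' (hx.1 1 (by omega)) hvf
      (hv1.1 1 (by omega)) (Or.inl hfx.symm) (hL_nadj hx hpq) (hL_nadj hx (by omega))
      (hL_adj hx' (by omega) (le_refl p)) (fun h => hfx' h.symm) (hL_nadj hx' (by omega))
      (hL_nadj hx' (by omega)) (Or.inr (hV_adj hv1 (by omega) (by omega)))
      (hV_adj hv1 (by omega) (by omega)) (hV_nadj hv1)
      (c34 p q x x' hp hpq hq hpn hx hx')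
      (fun h => c2 p q v x (by omega) hq (by omega) hv1 hx h.symm)
      (fun h => c2 p p v x' (by omega) (by omega) (by omega) hv1 hx' h.symm))
  have P2a : ∀ e q x, 3 ≤ q → q ≤ n + 1 → e < q → e ≤ n → 2 ≤ e → x ∈ hL G s (n + 1) q →
      G.Adj f x → ∀ v ∈ hV G s (n + 1) e, G.Adj f v := by
    intro e q x hq3 hq heq hen he2 hx hfx v hv
    by_contra hfv
    obtain ⟨x', hx'⟩ := hI 2 (by omega) (by omega)
    have hx1 : x' ∈ hL G s (n + 1) 2 := hx'
    have hfx' := P1 2 q x (le_refl 2) (by omega) hq (by omega) hx hfx x' hx1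
    exact m1a h1 hG f (s 0) (s e) x v x' (hF_adj hf (by omega)).symm
      (hF_adj hf (by omega)).symm (hs _ (by omega) _ (by omega) (by omega)) hfx.symm
      (hL_nadj hx (by omega)) (hL_nadj hx heq) (hV_adj hv (by omega) (by omega))
      (fun h => hfv h.symm) (hV_nadj hv) hfx'.symm (hL_adj hx1 (by omega) he2)
      (hL_nadj hx1 (by omega)) (fun h => c2 e q v x (Or.inl hq3) hq hen hv hx h.symm)
      (c34 2 q x x' (le_refl 2) (by omega) hq (by omega) hx hx1)
      (c2 e 2 v x' (Or.inr ⟨rfl, he2⟩) (by omega) hen hv hx1)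
  refine ⟨P1, ?_, ?_, ?_⟩
  · intro e q x hq3 hq heq hen hx hfx v hv
    by_cases he2 : 2 ≤ e
    · exact P2a e q x hq3 hq heq hen he2 hx hfx v hv
    · by_contra hfv
      obtain ⟨w, hw⟩ := hM 2 (by omega)
      have hw1 : w ∈ hV G s (n + 1) 2 := hw
      have hfw := P2a 2 q x hq3 hq (by omega) (by omega) (le_refl 2) hx hfx w hw1
      exact m1a h1 hG f (s 2) (s e) x v w (hF_adj hf (by omega)).symm
        (hF_adj hf (by omega)).symm (hs _ (by omega) _ (by omega) (by omega)) hfx.symm
        (hL_nadj hx (by omega)) (hL_nadj hx heq) (hV_adj hv (by omega) (by omega))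
        (fun h => hfv h.symm) (hV_nadj hv) hfw.symm (hV_adj hw1 (by omega) (by omega))
        (hV_nadj hw1) (fun h => c2 e q v x (Or.inl hq3) hq hen hv hx h.symm)
        (fun h => c2 2 q w x (Or.inl hq3) hq (by omega) hw1 hx h.symm)
        (c1 e 2 v w (by omega) hv hw1)
  · intro e p q x x' hp hpq hqe hen hx' hfx' hx hfx v hv
    by_contra hfv
    exact m1a h1 hG (s e) (s 0) f x v x' (hs _ (by omega) _ (by omega) (by omega))
      (hF_adj hf (by omega)) (hF_adj hf (by omega)).symm (hL_adj hx (by omega) hqe)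
      (hL_nadj hx (by omega)) (fun h => hfx h.symm) (hV_adj hv (by omega) (by omega))
      (hV_nadj hv) (fun h => hfv h.symm) (hL_adj hx' (by omega) (by omega)) hfx'.symm
      (hL_nadj hx' (by omega))
      (fun h => c2 e q v x (by omega) (by omega) hen hv hx h.symm)
      (c34 p q x x' hp hpq (by omega) (by omega) hx hx')
      (c2 e p v x' (by omega) (by omega) hen hv hx')
  · intro e g p x v' hp3 hgp hpe hen hx hfx hv' hfv' v hv
    by_contra hfv
    exact m1a h1 hG (s e) (s g) f x v v' (hs _ (by omega) _ (by omega) (by omega))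
      (hF_adj hf (by omega)) (hF_adj hf (by omega)).symm (hL_adj hx (by omega) hpe)
      (hL_nadj hx hgp) (fun h => hfx h.symm) (hV_adj hv (by omega) (by omega))
      (hV_nadj hv) (fun h => hfv h.symm) (hV_adj hv' (by omega) (by omega)) hfv'.symm
      (hV_nadj hv') (fun h => c2 e p v x (Or.inl hp3) (by omega) hen hv hx h.symm)
      (fun h => c2 g p v' x (Or.inl hp3) (by omega) (by omega) hv' hx h.symm)
      (c1 e g v v' (by omega) hv hv')

end Pool.Agent.MPd439b2.H1
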