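import Pool.Agent.Lib.MP_d439b2_co.H1.Spec2

/-!
# MP_d439b2_co, row `K3:0,1,02`: the classes of the vertices with empty missed set
-/

set_option autoImplicit false

namespace Pool.Agent.MPd439b2.H1

open Pool.Agent.MPd439b2 Pool.Agent.MPd439b2.LK

theorem pfCH3 (h1 : S_CH1) (h2 : S_CH2) : S_CH3 := by
  rintro V G s n h ⟨hC, h4, hn, hSq, hTy⟩
  have hn4 : 4 ≤ n := by omega
  obtain ⟨c1, c2, -, -⟩ := h1 V G s n hC hn4 hSq hTy
  have H2 := h2 V G s n hC hn4 hSq hTy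
  have exV : ∀ e, e ≤ n → ∃ v, v ∈ hV G s (n + 1) e := fun e he =>
    hTy.2.2 e (by omega)
  have exL : ∀ p, 1 ≤ p → p ≤ n → ∃ v, v ∈ hL G s (n + 1) p := fun p hp hp' =>
    hTy.2.1 p hp (by omega)
  -- seeing a high level
  have high : ∀ f ∈ hF G s (n + 1), ∀ p, h < p → p ≤ n + 1 → ∀ x ∈ hL G s (n + 1) p, G.Adj f x →
      f ∈ q1 G s n h := fun f hf p hp hp' x hx hfx =>
    ⟨hf, fun x' hx' => (H2 f hf).1 h p x (by omega) hp hp' (by omega) hx hfx x' hx'⟩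
  have p3 : ∀ f ∈ hF G s (n + 1), f ∉ q1 G s n h → f ∉ q2 G s n h →
      (∀ p, 2 ≤ p → p ≤ n + 1 → ∀ x ∈ hL G s (n + 1) p, ¬ G.Adj f x) ∧
      ∀ e, e < h → ∀ v ∈ hV G s (n + 1) e, ¬ G.Adj f v := by
    intro f hf hq1 hq2
    have B : ∀ e, e < h → ∀ v ∈ hV G s (n + 1) e, ¬ G.Adj f v := fun e he v hv hfv =>
      hq2 ⟨hf, hq1, e, he, v, hv, hfv⟩
    have A : ∀ p, 3 ≤ p → p ≤ h → ∀ x ∈ hL G s (n + 1) p, ¬ G.Adj f x := by
      intro p hp hp' x hx hfx
      obtain ⟨v, hv⟩ := exV 0 (by omega)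
      exact B 0 (by omega) v hv ((H2 f hf).2.1 0 p x hp (by omega) (by omega) (by omega) hx hfx
        v hv)
    refine ⟨fun p hp hp' x hx hfx => ?_, B⟩
    rcases lt_or_ge h p with h5 | h5
    · exact hq1 (high f hf p h5 hp' x hx hfx)
    · rcases Nat.lt_or_ge 2 p with h6 | h6
      · exact A p h6 h5 x hx hfx
      · have hp2 : p = 2 := by omega
        subst hp2
        obtain ⟨x', hx'⟩ := exL (h - 1) (by omega) (by omega)
        have hfx' := A (h - 1) (by omega) (by omega) x' hx'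
        obtain ⟨v, hv⟩ := exV (h - 1) (by omega)
        exact B (h - 1) (by omega) v hv ((H2 f hf).2.2.1 (h - 1) 2 (h - 1) x' x le_rfl (by omega)
          le_rfl (by omega) hx hfx hx' hfx' v hv)
  refine ⟨?_, ?_, p3, ?_, ?_⟩
  · intro f hf
    obtain ⟨x0, hx0⟩ := exL h (by omega) (by omega)
    refine ⟨fun p hp hp' x hx => ?_, fun e he v hv => ?_⟩
    · rcases Nat.eq_or_lt_of_le hp' with h5 | h5
      · subst h5
        exact hf.2 x hx
      · exact (H2 f hf.1).1 p h x0 hp h5 (by omega) (by omega) hx0 (hf.2 x0 hx0) x hx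
    · exact (H2 f hf.1).2.1 e h x0 (by omega) (by omega) he (by omega) hx0 (hf.2 x0 hx0) v hv
  · rintro f ⟨hf, hq1, g, hg, v', hv', hfv'⟩
    refine ⟨fun p hp hp' x hx hfx => hq1 (high f hf p hp hp' x hx hfx), fun e he he' v hv => ?_⟩
    have hex : ∃ x, x ∈ hL G s (n + 1) h ∧ ¬ G.Adj f x := by
      by_contra hno
      push Not at hno
      exact hq1 ⟨hf, hno⟩
    obtain ⟨x, hx, hfx⟩ := hex
    exact (H2 f hf).2.2.2 e g h x v' (by omega) hg he he' hx hfx hv' hfv' v hv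
  · rintro g (hg | ⟨hg, hq1, hq2, hq3⟩)
    · refine ⟨fun p hp hp' x hx => ?_, fun e he v hv => ?_⟩
      · exact c2 n p g x (by omega) hp' le_rfl hg hx
      · exact c1 n e g v (by omega) hg hv
    · obtain ⟨A, B⟩ := p3 g hg hq1 hq2
      refine ⟨A, fun e he v hv hgv => ?_⟩
      rcases lt_or_ge e h with h5 | h5
      · exact B e h5 v hv hgv
      · exact hq3 ⟨hg, hq1, hq2, e, h5, he, v, hv, hgv⟩
  · rintro f ⟨hf, hq1, hq2, t, ht, ht', v', hv', hfv'⟩ v hv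
    obtain ⟨x, hx⟩ := exL (t + 1) (by omega) (by omega)
    exact (H2 f hf).2.2.2 n t (t + 1) x v' (by omega) (by omega) (by omega) le_rfl hx
      ((p3 f hf hq1 hq2).1 (t + 1) (by omega) (by omega) x hx) hv' hfv' v hv

end Pool.Agent.MPd439b2.H1
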