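import Pool.Agent.Lib.MP_d439b2_co.H1.Spec2

/-!
# MP_d439b2_co, row `K3:0,1,02`: the union of the classes `q1`, `q2`, `q3` is a clique
-/

set_option autoImplicit false

namespace Pool.Agent.MPd439b2.H1

open Pool.Agent.MPd439b2 Pool.Agent.MPd439b2.LK

theorem pfCH4 (h1 : S_M2) (h2 : S_CH2) (h3 : S_CH3) : S_CH4 := by
  intro V G s n h hset
  obtain ⟨t1, t2, t3, -, t5⟩ := h3 V G s n h hset
  obtain ⟨hC, h4, hn, hSq, hTy⟩ := hset
  have hn4 : 4 ≤ n := by omega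
  have H2 := h2 V G s n hC hn4 hSq hTy
  have exV : ∀ e, e ≤ n → ∃ v, v ∈ hV G s (n + 1) e := fun e he =>
    hTy.2.2 e (by omega)
  have exL : ∀ p, 1 ≤ p → p ≤ n → ∃ v, v ∈ hL G s (n + 1) p := fun p hp hp' =>
    hTy.2.1 p hp (by omega)
  have fs : ∀ f ∈ hF G s (n + 1), ∀ j, j ≤ n → G.Adj f (s j) := by
    intro f hf j hj
    by_contra hno
    have h5 : j ∈ Tr G s (n + 1) f := ⟨by omega, hno⟩
    rw [hf.2] at h5
    exact h5
  -- common neighbours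
  have cn : ∀ f f' w e, f ∈ hF G s (n + 1) → f' ∈ hF G s (n + 1) → f ≠ f' → e ≤ n →
      w ∈ hV G s (n + 1) e → G.Adj f w → G.Adj f' w → G.Adj f f' := by
    intro f f' w e hf hf' hne he hw hfw hfw'
    have hws : ¬ G.Adj w (s e) := by
      have h5 : e ∈ Tr G s (n + 1) w := by
        rw [hw.2]
        exact rfl
      exact h5.2
    rcases h1 V G f w f' (s e) hC.1 hfw hfw'.symm (fs f' hf' e he) (fs f hf e he).symm hne
      (hw.1 e (by omega)) with h5 | h5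
    · exact h5
    · exact absurd h5 hws
  have f1 : ∀ f ∈ q1 G s n h, f ∈ hF G s (n + 1) := fun f hf => hf.1
  have f2 : ∀ f ∈ q2 G s n h, f ∈ hF G s (n + 1) := fun f hf => hf.1
  have f3 : ∀ f ∈ q3 G s n h, f ∈ hF G s (n + 1) := fun f hf => hf.1
  have a11 : ∀ f ∈ q1 G s n h, ∀ f' ∈ q1 G s n h, f ≠ f' → G.Adj f f' := by
    intro f hf f' hf' hne
    obtain ⟨v, hv⟩ := exV 0 (by omega)
    exact cn f f' v 0 hf.1 hf'.1 hne (by omega) hv ((t1 f hf).2 0 (by omega) v hv)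
      ((t1 f' hf').2 0 (by omega) v hv)
  have a12 : ∀ f ∈ q1 G s n h, ∀ f' ∈ q2 G s n h, f ≠ f' → G.Adj f f' := by
    intro f hf f' hf' hne
    obtain ⟨e, he, v, hv, hfv⟩ := hf'.2.2
    exact cn f f' v e hf.1 hf'.1 hne (by omega) hv ((t1 f hf).2 e he v hv) hfv
  have a22 : ∀ f ∈ q2 G s n h, ∀ f' ∈ q2 G s n h, f ≠ f' → G.Adj f f' := by
    intro f hf f' hf' hne
    obtain ⟨v, hv⟩ := exV h (by omega)
    exact cn f f' v h hf.1 hf'.1 hne (by omega) hv ((t2 f hf).2 h le_rfl (by omega) v hv)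
      ((t2 f' hf').2 h le_rfl (by omega) v hv)
  have a23 : ∀ f ∈ q2 G s n h, ∀ f' ∈ q3 G s n h, f ≠ f' → G.Adj f f' := by
    intro f hf f' hf' hne
    obtain ⟨e, he, he', v, hv, hfv⟩ := hf'.2.2.2
    exact cn f f' v e hf.1 hf'.1 hne (by omega) hv ((t2 f hf).2 e he (by omega) v hv) hfv
  have a33 : ∀ f ∈ q3 G s n h, ∀ f' ∈ q3 G s n h, f ≠ f' → G.Adj f f' := by
    intro f hf f' hf' hne
    obtain ⟨v, hv⟩ := exV n le_rfl
    exact cn f f' v n hf.1 hf'.1 hne le_rfl hv (t5 f hf v hv) (t5 f' hf' v hv)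
  have a13 : ∀ f ∈ q1 G s n h, ∀ f' ∈ q3 G s n h, f ≠ f' → G.Adj f f' := by
    intro f hf f' hf' hne
    obtain ⟨t, ht, ht', v, hv, hfv⟩ := hf'.2.2.2
    obtain ⟨x, hx⟩ := exL (t + 1) (by omega) (by omega)
    by_cases hfx : G.Adj f x
    · exact cn f f' v t hf.1 hf'.1 hne (by omega) hv ((H2 f hf.1).2.1 t (t + 1) x (by omega)
        (by omega) (by omega) (by omega) hx hfx v hv) hfv
    · obtain ⟨v0, hv0⟩ := exV 0 (by omega)
      obtain ⟨vn, hvn⟩ := exV n le_rfl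
      exact cn f f' vn n hf.1 hf'.1 hne le_rfl hvn ((H2 f hf.1).2.2.2 n 0 (t + 1) x v0 (by omega)
        (by omega) (by omega) le_rfl hx hfx hv0 ((t1 f hf).2 0 (by omega) v0 hv0) vn hvn)
        (t5 f' hf' vn hvn)
  rintro f ((hf | hf) | hf) f' ((hf' | hf') | hf') hne
  · exact a11 f hf f' hf' hne
  · exact a12 f hf f' hf' hne
  · exact a13 f hf f' hf' hne
  · exact (a12 f' hf' f hf hne.symm).symm
  · exact a22 f hf f' hf' hne
  · exact a23 f hf f' hf' hne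
  · exact (a13 f' hf' f hf hne.symm).symm
  · exact (a23 f' hf' f hf hne.symm).symm
  · exact a33 f hf f' hf' hne

end Pool.Agent.MPd439b2.H1
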