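import Pool.Agent.Lib.MP_d439b2_co.H1.Spec2

/-!
# MP_d439b2_co, H1/CH5: components of `G[r0]` are complete or anticomplete to `q2`, `q3`
-/

set_option autoImplicit false

namespace Pool.Agent.MPd439b2.H1

open Pool.Agent.MPd439b2 Pool.Agent.MPd439b2.LK

namespace cH5Aux

variable {V : Type} {G : SimpleGraph V} {s : ℕ → V} {n : ℕ}

theorem tr_iff {v : V} {t : ℕ} {T : Set ℕ} (h : Tr G s n v = T) (ht : t < n) :
    ¬ G.Adj v (s t) ↔ t ∈ T := by
  rw [← h]
  exact ⟨fun h' => ⟨ht, h'⟩, fun h' => h'.2⟩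

end cH5Aux

open cH5Aux

/-- **CH5.** -/
theorem pfCH5 (h5 : S_M5) (hc1 : S_CH1) (hc3 : S_CH3) : S_CH5 := by
  intro V G s n h P hset hP f hf
  obtain ⟨hCl, hh, hn, hSq, hTy⟩ := hset
  have hset : CHset G s n h := ⟨hCl, hh, hn, hSq, hTy⟩
  obtain ⟨c1, c2, c3, c4, c5⟩ := hc3 V G s n h hset
  obtain ⟨d1, d2, d3, d4⟩ := hc1 V G s n hCl (by omega) hSq hTy
  by_cases hex : ∃ g ∈ P, G.Adj g f
  swap
  · exact Or.inr fun g hg hgf => hex ⟨g, hg, hgf⟩
  left
  have hfF : f ∈ hF G s (n + 1) := by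
    rcases hf with hf | hf
    · exact hf.1
    · exact hf.1
  have hf1 : f ∉ q1 G s n h := by
    rcases hf with hf | hf
    · exact hf.2.1
    · exact hf.2.1
  obtain ⟨t, ht1, ht2, v, hv, hfv⟩ : ∃ t, h ≤ t ∧ t < n ∧ ∃ v ∈ hV G s (n + 1) t, G.Adj f v := by
    rcases hf with hf | hf
    · obtain ⟨v, hv1, hv2⟩ := hTy.2.2 h (by omega)
      exact ⟨h, le_rfl, by omega, v, ⟨hv1, hv2⟩, (c2 f hf).2 h le_rfl (by omega) v ⟨hv1, hv2⟩⟩
    · exact hf.2.2.2
  obtain ⟨l, hl, hfl⟩ : ∃ l ∈ hL G s (n + 1) h, ¬ G.Adj f l := by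
    by_contra hcon
    push Not at hcon
    exact hf1 ⟨hfF, hcon⟩
  have hPr : ∀ g ∈ P, g ∈ r0 G s n h := fun g hg => hP.1 hg
  have hot : ∀ g ∈ P, Ot s (n + 1) g := by
    intro g hg
    rcases hPr g hg with h' | h'
    · exact h'.1
    · exact h'.1.1
  have hTr : ∀ g ∈ P, Tr G s (n + 1) g = {n} ∨ Tr G s (n + 1) g = ∅ := by
    intro g hg
    rcases hPr g hg with h' | h'
    · exact Or.inl h'.2
    · exact Or.inr h'.1.2
  have hfP : f ∉ P := by
    intro hfP
    rcases hPr f hfP with h' | h'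
    · have e1 := h'.2
      rw [hfF.2] at e1
      have : n ∈ (∅ : Set ℕ) := by rw [e1]; rfl
      exact this
    · rcases hf with hf | hf
      · exact h'.2.2.1 hf
      · exact h'.2.2.2 hf
  have hPst : ∀ g ∈ P, G.Adj g (s t) := by
    intro g hg
    by_contra hcon
    rcases hTr g hg with h' | h'
    · have := (tr_iff h' (show t < n + 1 by omega)).1 hcon
      have h3 : t = n := this
      omega
    · exact (tr_iff h' (show t < n + 1 by omega)).1 hcon
  refine h5 V G P f (s t) v l hCl hP.2.1 hfP ?_ ?_ ?_ ?_ ?_ ?_ ?_ hfv.symm ?_ ?_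
    (fun h' => hfl h'.symm) hex hPst
  · exact fun h' => hot _ h' t (by omega) rfl
  · intro hvP
    rcases hTr v hvP with h' | h'
    · have e1 := hv.2
      rw [h'] at e1
      have : n ∈ ({t} : Set ℕ) := by rw [← e1]; rfl
      have h3 : n = t := this
      omega
    · have e1 := hv.2
      rw [h'] at e1
      have : t ∈ (∅ : Set ℕ) := by rw [e1]; rfl
      exact this
  · intro hlP
    rcases hTr l hlP with h' | h'
    · have e1 := hl.2
      rw [h'] at e1
      have : n ∈ ({i | i < h} : Set ℕ) := by rw [← e1]; rfl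
      have h3 : n < h := this
      omega
    · have e1 := hl.2
      rw [h'] at e1
      have : 0 ∈ (∅ : Set ℕ) := by rw [e1]; exact (show 0 < h by omega)
      exact this
  · by_contra hcon
    have := (tr_iff hfF.2 (show t < n + 1 by omega)).1 hcon
    exact this
  · exact fun c hc h' => (c4 c (hPr c hc)).2 t ht2 v hv h'.symm
  · exact fun c hc h' => (c4 c (hPr c hc)).1 h (by omega) (by omega) l hl h'.symm
  · exact d2 t h v l (Or.inl (by omega)) (by omega) (by omega) hv hl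
  · exact (tr_iff hv.2 (show t < n + 1 by omega)).2 rfl
  · by_contra hcon
    have := (tr_iff hl.2 (show t < n + 1 by omega)).1 hcon
    have h3 : t < h := this
    omega

end Pool.Agent.MPd439b2.H1
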