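import Pool.Agent.Lib.MP_d439b2_co.H1.Spec2

/-!
# MP_d439b2_co, row `K3:0,1,02`: the closure of the cut
-/

set_option autoImplicit false

namespace Pool.Agent.MPd439b2.H1

open Pool.Agent.MPd439b2 Pool.Agent.MPd439b2.LK

theorem pfCH6 (h1 : S_M4) (h2 : S_CH1) (h3 : S_CH3) (h4 : S_CH4) (h5 : S_CH5) : S_CH6 := by
  intro V G s n h hset
  have hK0 := h4 V G s n h hset
  have H5 := h5 V G s n h
  obtain ⟨t1, t2, t3, t4, -⟩ := h3 V G s n h hset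
  have hset' := hset
  obtain ⟨hC, hh4, hn, hSq, hTy⟩ := hset
  have hn4 : 4 ≤ n := by omega
  obtain ⟨-, c2, -, -⟩ := h2 V G s n hC hn4 hSq hTy
  have fs : ∀ f ∈ hF G s (n + 1), ∀ j, j ≤ n → G.Adj f (s j) := by
    intro f hf j hj
    by_contra hno
    have h6 : j ∈ Tr G s (n + 1) f := ⟨by omega, hno⟩
    rw [hf.2] at h6
    exact h6
  -- vertices of `hV` and `hL`
  have vs : ∀ e v, v ∈ hV G s (n + 1) e → ¬ G.Adj v (s e) := by
    intro e v hv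
    have h6 : e ∈ Tr G s (n + 1) v := by
      rw [hv.2]
      exact rfl
    exact h6.2
  have vs' : ∀ e v, v ∈ hV G s (n + 1) e → ∀ j, j ≤ n → j ≠ e → G.Adj v (s j) := by
    intro e v hv j hj hje
    by_contra hno
    have h6 : j ∈ Tr G s (n + 1) v := ⟨by omega, hno⟩
    rw [hv.2] at h6
    exact hje h6
  have ls : ∀ p l, l ∈ hL G s (n + 1) p → ∀ j, j < p → ¬ G.Adj l (s j) := by
    intro p l hl j hj
    have h6 : j ∈ Tr G s (n + 1) l := by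
      rw [hl.2]
      exact hj
    exact h6.2
  have ls' : ∀ p l, l ∈ hL G s (n + 1) p → ∀ j, p ≤ j → j ≤ n → G.Adj l (s j) := by
    intro p l hl j hj hj'
    by_contra hno
    have h6 : j ∈ Tr G s (n + 1) l := ⟨by omega, hno⟩
    rw [hl.2] at h6
    have h7 : j < p := h6
    omega
  have rs : ∀ g ∈ r0 G s n h, ∀ j, j < n → G.Adj g (s j) := by
    rintro g (hg | hg) j hj
    · exact vs' n g hg j (by omega) (by omega)
    · exact fs g hg.1 j (by omega)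
  -- the clique
  let K : Set V := {v | ∃ i, i < n ∧ v = s i} ∪ (q1 G s n h ∪ q2 G s n h ∪ q3 G s n h)
  have hKs : ∀ i, i < n → s i ∈ K := fun i hi => Or.inl ⟨i, hi, rfl⟩
  have hK1 : ∀ f ∈ q1 G s n h, f ∈ K := fun f hf => Or.inr (Or.inl (Or.inl hf))
  have hK2 : ∀ f ∈ q2 G s n h, f ∈ K := fun f hf => Or.inr (Or.inl (Or.inr hf))
  have hK3 : ∀ f ∈ q3 G s n h, f ∈ K := fun f hf => Or.inr (Or.inr hf)
  have hqF : ∀ f ∈ q1 G s n h ∪ q2 G s n h ∪ q3 G s n h, f ∈ hF G s (n + 1) := by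
    rintro f ((hf | hf) | hf)
    · exact hf.1
    · exact hf.1
    · exact hf.1
  have hK : CompleteOn G K := by
    rintro u (⟨i, hi, rfl⟩ | hu) v (⟨j, hj, rfl⟩ | hv) huv
    · exact hSq i (by omega) j (by omega) (fun hij => huv (by rw [hij]))
    · exact (fs v (hqF v hv) i (by omega)).symm
    · exact fs u (hqF u hu) j (by omega)
    · exact hK0 u hu v hv huv
  have nKV : ∀ e v, v ∈ hV G s (n + 1) e → v ∉ K := by
    rintro e v hv (⟨i, hi, hvi⟩ | hv')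
    · exact hv.1 i (by omega) hvi
    · have h6 := (hqF v hv').2
      rw [hv.2] at h6
      exact Set.singleton_ne_empty e h6
  have nKL : ∀ p l, 1 ≤ p → l ∈ hL G s (n + 1) p → l ∉ K := by
    rintro p l hp hl (⟨i, hi, hli⟩ | hl')
    · exact hl.1 i (by omega) hli
    · have h6 := (hqF l hl').2
      rw [hl.2] at h6
      have h7 : (0 : ℕ) ∈ {i | i < p} := hp
      rw [h6] at h7
      exact h7
  have nKr : ∀ g ∈ r0 G s n h, g ∉ K := by
    rintro g (hg | hg)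
    · exact nKV n g hg
    · rintro (⟨i, hi, hgi⟩ | (hg' | hg') | hg')
      · exact hg.1.1 i (by omega) hgi
      · exact hg.2.1 hg'
      · exact hg.2.2.1 hg'
      · exact hg.2.2.2 hg'
  -- data for an element of `q2`
  have dat : ∀ f₀ ∈ q2 G s n h, ∃ l ∈ hL G s (n + 1) h, ¬ G.Adj f₀ l := by
    rintro f₀ hf₀
    by_contra hno
    push Not at hno
    exact hf₀.2.1 ⟨hf₀.1, hno⟩
  -- (a)
  have pa : ∀ P ∈ p2 G s n h, ∀ g ∈ P, ∀ q ∈ q1 G s n h, G.Adj g q := by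
    rintro P ⟨hP, f₀, hf₀, hPf₀⟩ g hg q hq
    by_contra hgq
    obtain ⟨l, hl, hfl⟩ := dat f₀ hf₀
    obtain ⟨e, he, v, hv, hfv⟩ := hf₀.2.2
    have hgr : g ∈ r0 G s n h := hP.1 hg
    have key := h1 V G K q q (s e) f₀ l g v hC hK (hK1 q hq) (hK1 q hq) (hKs e (by omega))
      (hK2 f₀ hf₀) (nKL h l (by omega) hl) (nKr g hgr) (nKV e v hv)
      (fun h6 => hf₀.2.1 (by rw [h6]; exact hq))
      ((t1 q hq).1 h (by omega) le_rfl l hl).symm (ls h l hl e he) (fun h6 => hfl h6.symm)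
      (rs g hgr e (by omega)) hgq hgq (hPf₀ g hg) ((t1 q hq).2 e he v hv).symm hfv.symm (vs e v hv)
      (fun h6 => (t4 g hgr).1 h (by omega) (by omega) l hl h6.symm)
      (fun h6 => c2 e h v l (Or.inl (by omega)) (by omega) (by omega) hv hl h6.symm)
    exact (t4 g hgr).2 e (by omega) v hv key
  -- two components
  have comp : ∀ P P' g g' f₀, IsComp G (r0 G s n h) P → IsComp G (r0 G s n h) P' → g ∈ P →
      g' ∈ P' → (∀ g ∈ P, ¬ G.Adj g f₀) → G.Adj g' f₀ → ¬ G.Adj g g' := by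
    intro P P' g g' f₀ hP hP' hg hg' hPf hgf hgg
    refine hP.2.2 g' (hP'.1 hg') ⟨fun h6 => hPf g' h6 hgf, g, hg, hgg⟩
  -- an element of a component in `p3` sees `f₀`
  have see : ∀ P' g' f₀, P' ∈ p3 G s n h → g' ∈ P' → f₀ ∈ q2 G s n h → G.Adj g' f₀ := by
    intro P' g' f₀ hP' hg' hf₀
    rcases H5 P' hset' hP'.1 f₀ (Or.inl hf₀) with h6 | h6
    · exact h6 g' hg'
    · exact absurd ⟨hP'.1, f₀, hf₀, h6⟩ hP'.2.1
  refine ⟨pa, ?_, ?_, ?_⟩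
  · rintro ψ ⟨hψ, P, ⟨hP, f₀, hf₀, hPf₀⟩, g, hg, hgψ⟩ t ht ht' w hw
    by_contra hψw
    obtain ⟨l, hl, hfl⟩ := dat f₀ hf₀
    have hgr : g ∈ r0 G s n h := hP.1 hg
    have key := h1 V G K (s t) (s t) f₀ ψ l w g hC hK (hKs t ht') (hKs t ht') (hK2 f₀ hf₀)
      (hK3 ψ hψ) (nKL h l (by omega) hl) (nKV t w hw) (nKr g hgr)
      (hψ.1.1 t (by omega)) (ls' h l hl t ht (by omega)) (fun h6 => hfl h6.symm)
      (fun h6 => (t3 ψ hψ.1 hψ.2.1 hψ.2.2.1).1 h (by omega) (by omega) l hl h6.symm)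
      ((t2 f₀ hf₀).2 t ht (by omega) w hw).symm (vs t w hw) (vs t w hw) (fun h6 => hψw h6.symm)
      (rs g hgr t ht') hgψ (hPf₀ g hg)
      (fun h6 => c2 t h w l (Or.inl (by omega)) (by omega) (by omega) hw hl h6.symm)
      (fun h6 => (t4 g hgr).1 h (by omega) (by omega) l hl h6.symm)
    exact (t4 g hgr).2 t ht' w hw key.symm
  · intro P' hP' g' hg' q hq
    by_contra hgq
    obtain ⟨ψ, ⟨hψ, P, hPp, g, hg, hgψ⟩, hψP'⟩ := hP'.2.2
    have hPp' := hPp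
    obtain ⟨hP, f₀, hf₀, hPf₀⟩ := hPp'
    obtain ⟨l, hl, hfl⟩ := dat f₀ hf₀
    have hgr : g ∈ r0 G s n h := hP.1 hg
    have hgr' : g' ∈ r0 G s n h := hP'.1.1 hg'
    have hgf := see P' g' f₀ hP' hg' hf₀
    have hgg := comp P P' g g' f₀ hP hP'.1 hg hg' hPf₀ hgf
    have key := h1 V G K q q f₀ ψ l g' g hC hK (hK1 q hq) (hK1 q hq) (hK2 f₀ hf₀) (hK3 ψ hψ)
      (nKL h l (by omega) hl) (nKr g' hgr') (nKr g hgr)
      (fun h6 => hψ.2.1 (by rw [h6]; exact hq))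
      ((t1 q hq).1 h (by omega) le_rfl l hl).symm (fun h6 => hfl h6.symm)
      (fun h6 => (t3 ψ hψ.1 hψ.2.1 hψ.2.2.1).1 h (by omega) (by omega) l hl h6.symm)
      hgf hgq hgq (hψP' g' hg') (pa P hPp g hg q hq) hgψ (hPf₀ g hg)
      (fun h6 => (t4 g' hgr').1 h (by omega) (by omega) l hl h6.symm)
      (fun h6 => (t4 g hgr).1 h (by omega) (by omega) l hl h6.symm)
    exact hgg key.symm
  · intro P' hP' g' hg' ψ' hψ' hψi hgψ'
    obtain ⟨ψ, ⟨hψ, P, hPp, g, hg, hgψ⟩, hψP'⟩ := hP'.2.2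
    have hPp' := hPp
    obtain ⟨hP, f₀, hf₀, hPf₀⟩ := hPp'
    obtain ⟨e, he, v, hv, hfv⟩ := hf₀.2.2
    have hgr : g ∈ r0 G s n h := hP.1 hg
    have hgr' : g' ∈ r0 G s n h := hP'.1.1 hg'
    have hgf := see P' g' f₀ hP' hg' hf₀
    have hgg := comp P P' g g' f₀ hP hP'.1 hg hg' hPf₀ hgf
    have key := h1 V G K f₀ f₀ ψ ψ' v g g' hC hK (hK2 f₀ hf₀) (hK2 f₀ hf₀) (hK3 ψ hψ) (hK3 ψ' hψ')
      (nKV e v hv) (nKr g hgr) (nKr g' hgr')
      (fun h6 => hψ'.2.2.1 (by rw [h6]; exact hf₀))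
      hfv.symm (fun h6 => (t3 ψ hψ.1 hψ.2.1 hψ.2.2.1).2 e he v hv h6.symm)
      (fun h6 => (t3 ψ' hψ'.1 hψ'.2.1 hψ'.2.2.1).2 e he v hv h6.symm)
      hgψ (hPf₀ g hg) (hPf₀ g hg) (fun h6 => hψi ⟨hψ', P, hPp, g, hg, h6⟩)
      hgf hgψ' (hψP' g' hg')
      (fun h6 => (t4 g hgr).2 e (by omega) v hv h6.symm)
      (fun h6 => (t4 g' hgr').2 e (by omega) v hv h6.symm)
    exact hgg key

end Pool.Agent.MPd439b2.H1
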