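import Pool.Agent.Lib.MP_d439b2_co.H1.Spec2

/-!
# MP_d439b2_co, H1, CH7: the cut in type (CH) with singletons
-/

set_option autoImplicit false

namespace Pool.Agent.MPd439b2.H1

open Pool.Agent.MPd439b2 Pool.Agent.MPd439b2.LK

namespace ch7Aux

variable {V : Type} {G : SimpleGraph V} {s : ℕ → V} {n h : ℕ}

theorem hF_adj {v : V} (hv : v ∈ hF G s (n + 1)) {j : ℕ} (hj : j ≤ n) : G.Adj v (s j) := by
  by_contra hcon
  have h1 : j ∈ Tr G s (n + 1) v := ⟨by omega, hcon⟩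
  rw [hv.2] at h1
  exact h1

theorem hV_adj {v : V} {e : ℕ} (hv : v ∈ hV G s (n + 1) e) {j : ℕ} (hj : j ≤ n) (hje : j ≠ e) :
    G.Adj v (s j) := by
  by_contra hcon
  have h1 : j ∈ Tr G s (n + 1) v := ⟨by omega, hcon⟩
  rw [hv.2] at h1
  exact hje h1

theorem hL_adj {v : V} {p : ℕ} (hv : v ∈ hL G s (n + 1) p) {j : ℕ} (hj : j ≤ n) (hpj : p ≤ j) :
    G.Adj v (s j) := by
  by_contra hcon
  have h1 : j ∈ Tr G s (n + 1) v := ⟨by omega, hcon⟩
  rw [hv.2] at h1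
  have h2 : j < p := h1
  omega

theorem hL_nadj {v : V} {p : ℕ} (hv : v ∈ hL G s (n + 1) p) {j : ℕ} (hjp : j < p) :
    ¬ G.Adj v (s j) := by
  have h1 : j ∈ Tr G s (n + 1) v := by
    rw [hv.2]
    exact hjp
  exact h1.2

theorem r0_adj {v : V} (hv : v ∈ r0 G s n h) {j : ℕ} (hj : j < n) : G.Adj v (s j) := by
  rcases hv with hv | hv
  · exact hV_adj hv hj.le (by omega)
  · exact hF_adj hv.1 hj.le

theorem r0_ot {v : V} (hv : v ∈ r0 G s n h) : Ot s (n + 1) v := by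
  rcases hv with hv | hv
  · exact hv.1
  · exact hv.1.1

/-- the first kind of rows -/
def XA (G : SimpleGraph V) (s : ℕ → V) (n h : ℕ) : Set V :=
  {v | (∃ i, i < h ∧ v = s i) ∨ v ∈ q2 G s n h ∨ v ∈ q3i G s n h}

/-- the second kind of rows -/
def XB (G : SimpleGraph V) (s : ℕ → V) (n h : ℕ) : Set V :=
  {v | (∃ e, e < h ∧ v ∈ hV G s (n + 1) e) ∨ (∃ p, 2 ≤ p ∧ p ≤ h ∧ v ∈ hL G s (n + 1) p) ∨
    (∃ P ∈ p2 G s n h, v ∈ P) ∨ ∃ P ∈ p3 G s n h, v ∈ P}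

/-- every vertex outside -/
theorem outside (hC : CHset G s n h) {y : V} (hyA : y ∉ XA G s n h) (hyB : y ∉ XB G s n h)
    (hyn : y ≠ s n) : (∃ j, h ≤ j ∧ j < n ∧ y = s j) ∨ (∃ e, h ≤ e ∧ e < n ∧ y ∈ hV G s (n + 1) e) ∨
      (∃ p, h < p ∧ p ≤ n + 1 ∧ y ∈ hL G s (n + 1) p) ∨ y ∈ q1 G s n h ∨
      (y ∈ q3 G s n h ∧ y ∉ q3i G s n h) ∨ y ∈ r0 G s n h := by
  obtain ⟨hCl, hh, hn, hSq, hTy⟩ := hC
  have hVcase : ∀ e, e ≤ n → y ∈ hV G s (n + 1) e → (∃ e, h ≤ e ∧ e < n ∧ y ∈ hV G s (n + 1) e) ∨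
      y ∈ r0 G s n h := by
    intro e he hy
    by_cases heh : e < h
    · exact absurd (Or.inl ⟨e, heh, hy⟩) hyB
    · by_cases hen : e = n
      · right
        left
        rw [← hen]
        exact hen ▸ hy
      · exact Or.inl ⟨e, by omega, by omega, hy⟩
  by_cases hOt : Ot s (n + 1) y
  · rcases hTy.1 y hOt with ⟨p, hp, hTr⟩ | ⟨e, he, hTr⟩
    · by_cases hp0 : p = 0
      · -- empty missed set
        have hF' : y ∈ hF G s (n + 1) := by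
          refine ⟨hOt, ?_⟩
          rw [hTr, hp0]
          ext i
          simp
        by_cases h1 : y ∈ q1 G s n h
        · exact Or.inr (Or.inr (Or.inr (Or.inl h1)))
        by_cases h2 : y ∈ q2 G s n h
        · exact absurd (Or.inr (Or.inl h2)) hyA
        by_cases h3 : y ∈ q3 G s n h
        · refine Or.inr (Or.inr (Or.inr (Or.inr (Or.inl ⟨h3, fun h4 => hyA (Or.inr (Or.inr h4))⟩))))
        · exact Or.inr (Or.inr (Or.inr (Or.inr (Or.inr (Or.inr ⟨hF', h1, h2, h3⟩)))))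
      · by_cases hp1 : p = 1
        · have h1 : y ∈ hV G s (n + 1) 0 := by
            refine ⟨hOt, ?_⟩
            rw [hTr, hp1]
            ext i
            simp
          rcases hVcase 0 (by omega) h1 with h2 | h2
          · exact Or.inr (Or.inl h2)
          · exact Or.inr (Or.inr (Or.inr (Or.inr (Or.inr h2))))
        · by_cases hph : p ≤ h
          · exact absurd (Or.inr (Or.inl ⟨p, by omega, hph, hOt, hTr⟩)) hyB
          · exact Or.inr (Or.inr (Or.inl ⟨p, by omega, by omega, hOt, hTr⟩))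
    · rcases hVcase e (by omega) ⟨hOt, hTr⟩ with h2 | h2
      · exact Or.inr (Or.inl h2)
      · exact Or.inr (Or.inr (Or.inr (Or.inr (Or.inr h2))))
  · unfold Ot at hOt
    push Not at hOt
    obtain ⟨j, hj, hyj⟩ := hOt
    left
    refine ⟨j, ?_, ?_, hyj⟩
    · by_contra hjh
      exact hyA (Or.inl ⟨j, by omega, hyj⟩)
    · by_contra hjn
      have : j = n := by omega
      exact hyn (this ▸ hyj)

/-- rank one -/
theorem rk_one [Finite V] (hA1 : LK.S_A1) {A Y : Set V}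
    (hAY : ∀ y ∈ Y, (∀ x ∈ A, G.Adj x y) ∨ ∀ x ∈ A, ¬ G.Adj x y) : rk G A Y ≤ 1 := by
  refine (hA1 V G).2.2.2.2.1 A Y {y | ∀ x ∈ A, G.Adj x y} (fun a ha => Or.inl fun y hy => ?_)
  constructor
  · intro hadj
    rcases hAY y hy with h1 | h1
    · exact h1
    · exact absurd hadj (h1 a ha)
  · intro h1
    exact h1 a ha

theorem q_ne {x y : V} (hx : x ∈ q2 G s n h ∨ x ∈ q3 G s n h) (hy : y ∈ q1 G s n h) : x ≠ y := by
  rintro rfl
  rcases hx with hx | hx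
  · exact hx.2.1 hy
  · exact hx.2.1 hy

/-- the rows of the first kind -/
theorem rowsA (h3 : S_CH3) (h4 : S_CH4) (h5 : S_CH5) (h6 : S_CH6) (hC : CHset G s n h) {y : V}
    (hyA : y ∉ XA G s n h) (hyB : y ∉ XB G s n h) (hyn : y ≠ s n) :
    (∀ x ∈ XA G s n h, G.Adj x y) ∨ ∀ x ∈ XA G s n h, ¬ G.Adj x y := by
  obtain ⟨c31, c32, c33, c34, c35⟩ := h3 V G s n h hC
  have c4 := h4 V G s n h hC
  obtain ⟨c6a, c6b, c6c, c6d⟩ := h6 V G s n h hC
  have c5 := fun P => h5 V G s n h P hC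
  have hq2F : ∀ x ∈ q2 G s n h, x ∈ hF G s (n + 1) := fun x hx => hx.1
  have hq3F : ∀ x ∈ q3 G s n h, x ∈ hF G s (n + 1) := fun x hx => hx.1
  have hout := outside hC hyA hyB hyn
  obtain ⟨hCl, hh, hn, hSq, hTy⟩ := hC
  rcases hout with ⟨j, hj1, hj2, rfl⟩ | ⟨e, he1, he2, hy⟩ | ⟨p, hp1, hp2, hy⟩ | hy | ⟨hy, hy'⟩ | hy
  · left
    rintro x (⟨i, hi, rfl⟩ | hx | hx)
    · exact hSq i (by omega) j (by omega) (by omega)
    · exact hF_adj (hq2F x hx) hj2.le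
    · exact hF_adj (hq3F x hx.1) hj2.le
  · left
    rintro x (⟨i, hi, rfl⟩ | hx | hx)
    · exact (hV_adj hy (by omega) (by omega)).symm
    · exact (c32 x hx).2 e he1 (by omega) y hy
    · exact c6b x hx e he1 he2 y hy
  · right
    rintro x (⟨i, hi, rfl⟩ | hx | hx)
    · exact fun hadj => hL_nadj hy (by omega) hadj.symm
    · exact (c32 x hx).1 p hp1 hp2 y hy
    · exact (c33 x (hq3F x hx.1) hx.1.2.1 hx.1.2.2.1).1 p (by omega) hp2 y hy
  · left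
    rintro x (⟨i, hi, rfl⟩ | hx | hx)
    · exact (hF_adj hy.1 (by omega)).symm
    · exact c4 x (Or.inl (Or.inr hx)) y (Or.inl (Or.inl hy)) (q_ne (Or.inl hx) hy)
    · exact c4 x (Or.inr hx.1) y (Or.inl (Or.inl hy)) (q_ne (Or.inr hx.1) hy)
  · left
    rintro x (⟨i, hi, rfl⟩ | hx | hx)
    · exact (hF_adj (hq3F y hy) (by omega)).symm
    · refine c4 x (Or.inl (Or.inr hx)) y (Or.inr hy) ?_
      rintro rfl
      exact hy.2.2.1 hx
    · refine c4 x (Or.inr hx.1) y (Or.inr hy) ?_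
      rintro rfl
      exact hy' hx
  · left
    obtain ⟨P, hP1, hP2, hP3, hP4⟩ := exists_comp G hy
    have hP : IsComp G (r0 G s n h) P := ⟨hP1, hP3, hP4⟩
    have hPp2 : P ∉ p2 G s n h := fun hh' => hyB (Or.inr (Or.inr (Or.inl ⟨P, hh', hP2⟩)))
    have hPp3 : P ∉ p3 G s n h := fun hh' => hyB (Or.inr (Or.inr (Or.inr ⟨P, hh', hP2⟩)))
    rintro x (⟨i, hi, rfl⟩ | hx | hx)
    · exact (r0_adj hy (by omega)).symm
    · rcases c5 P hP x (Or.inl hx) with h7 | h7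
      · exact (h7 y hP2).symm
      · exact absurd ⟨hP, x, hx, h7⟩ hPp2
    · rcases c5 P hP x (Or.inr hx.1) with h7 | h7
      · exact (h7 y hP2).symm
      · exact absurd ⟨hP, hPp2, x, hx, h7⟩ hPp3

/-- the rows of the second kind -/
theorem rowsB (h1 : S_CH1) (h3 : S_CH3) (h6 : S_CH6) (hC : CHset G s n h) {y : V}
    (hyA : y ∉ XA G s n h) (hyB : y ∉ XB G s n h) (hyn : y ≠ s n) :
    (∀ x ∈ XB G s n h, G.Adj x y) ∨ ∀ x ∈ XB G s n h, ¬ G.Adj x y := by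
  obtain ⟨c31, c32, c33, c34, c35⟩ := h3 V G s n h hC
  obtain ⟨c6a, c6b, c6c, c6d⟩ := h6 V G s n h hC
  have hout := outside hC hyA hyB hyn
  obtain ⟨hCl, hh, hn, hSq, hTy⟩ := hC
  obtain ⟨c11, c12, c13, c14⟩ := h1 V G s n hCl (by omega) hSq hTy
  have hr2 : ∀ P ∈ p2 G s n h, ∀ g ∈ P, g ∈ r0 G s n h := fun P hP g hg => hP.1.1 hg
  have hr3 : ∀ P ∈ p3 G s n h, ∀ g ∈ P, g ∈ r0 G s n h := fun P hP g hg => hP.1.1 hg
  rcases hout with ⟨j, hj1, hj2, rfl⟩ | ⟨e, he1, he2, hy⟩ | ⟨p, hp1, hp2, hy⟩ | hy | ⟨hy, hy'⟩ | hy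
  · left
    rintro x (⟨e', he', hx⟩ | ⟨p', hp'1, hp'2, hx⟩ | ⟨P, hP, hx⟩ | ⟨P, hP, hx⟩)
    · exact hV_adj hx (by omega) (by omega)
    · exact hL_adj hx (by omega) (by omega)
    · exact r0_adj (hr2 P hP x hx) hj2
    · exact r0_adj (hr3 P hP x hx) hj2
  · right
    rintro x (⟨e', he', hx⟩ | ⟨p', hp'1, hp'2, hx⟩ | ⟨P, hP, hx⟩ | ⟨P, hP, hx⟩)
    · exact c11 e' e x y (by omega) hx hy
    · exact fun hadj => c12 e p' y x (by omega) (by omega) (by omega) hy hx hadj.symm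
    · exact (c34 x (hr2 P hP x hx)).2 e he2 y hy
    · exact (c34 x (hr3 P hP x hx)).2 e he2 y hy
  · right
    rintro x (⟨e', he', hx⟩ | ⟨p', hp'1, hp'2, hx⟩ | ⟨P, hP, hx⟩ | ⟨P, hP, hx⟩)
    · exact c12 e' p x y (by omega) hp2 (by omega) hx hy
    · by_cases hpn : p ≤ n
      · exact c13 p' p x y hp'1 (by omega) hpn hx hy
      · have : p = n + 1 := by omega
        subst this
        exact c14 p' x y hp'1 (by omega) hx hy
    · exact (c34 x (hr2 P hP x hx)).1 p (by omega) hp2 y hy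
    · exact (c34 x (hr3 P hP x hx)).1 p (by omega) hp2 y hy
  · left
    rintro x (⟨e', he', hx⟩ | ⟨p', hp'1, hp'2, hx⟩ | ⟨P, hP, hx⟩ | ⟨P, hP, hx⟩)
    · exact ((c31 y hy).2 e' he' x hx).symm
    · exact ((c31 y hy).1 p' hp'1 hp'2 x hx).symm
    · exact c6a P hP x hx y hy
    · exact c6c P hP x hx y hy
  · right
    rintro x (⟨e', he', hx⟩ | ⟨p', hp'1, hp'2, hx⟩ | ⟨P, hP, hx⟩ | ⟨P, hP, hx⟩)
    · exact fun hadj => (c33 y hy.1 hy.2.1 hy.2.2.1).2 e' he' x hx hadj.symm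
    · exact fun hadj => (c33 y hy.1 hy.2.1 hy.2.2.1).1 p' hp'1 (by omega) x hx hadj.symm
    · exact fun hadj => hy' ⟨hy, P, hP, x, hx, hadj⟩
    · exact c6d P hP x hx y hy hy'
  · right
    rintro x (⟨e', he', hx⟩ | ⟨p', hp'1, hp'2, hx⟩ | ⟨P, hP, hx⟩ | ⟨P, hP, hx⟩)
    · exact fun hadj => (c34 y hy).2 e' (by omega) x hx hadj.symm
    · exact fun hadj => (c34 y hy).1 p' hp'1 (by omega) x hx hadj.symm
    · exact fun hadj => hP.1.2.2 y hy ⟨fun hyP => hyB (Or.inr (Or.inr (Or.inl ⟨P, hP, hyP⟩))), x, hx, hadj⟩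
    · exact fun hadj => hP.1.2.2 y hy ⟨fun hyP => hyB (Or.inr (Or.inr (Or.inr ⟨P, hP, hyP⟩))), x, hx, hadj⟩

end ch7Aux

open ch7Aux in
theorem pfCH7 (hA1 : LK.S_A1) (h1 : S_CH1) (h3 : S_CH3) (h4 : S_CH4) (h5 : S_CH5) (h6 : S_CH6) :
    S_CH7 := by
  classical
  intro V _ G s n h hC
  refine ⟨XA G s n h ∪ XB G s n h, ?_, ?_⟩
  · obtain ⟨a1, a2, a3, a4, -, -⟩ := hA1 V G
    obtain ⟨X, hX⟩ : ∃ X, X = XA G s n h ∪ XB G s n h := ⟨_, rfl⟩
    obtain ⟨Y, hY⟩ : ∃ Y : Set V, Y = Xᶜ \ {s n} := ⟨_, rfl⟩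
    have hYo : ∀ y ∈ Y, y ∉ XA G s n h ∧ y ∉ XB G s n h ∧ y ≠ s n := by
      intro y hy
      rw [hY, hX] at hy
      exact ⟨fun hh => hy.1 (Or.inl hh), fun hh => hy.1 (Or.inr hh), hy.2⟩
    have e1 : rk G (XA G s n h) Y ≤ 1 := rk_one hA1 (fun y hy =>
      rowsA h3 h4 h5 h6 hC (hYo y hy).1 (hYo y hy).2.1 (hYo y hy).2.2)
    have e2 : rk G (XB G s n h) Y ≤ 1 := rk_one hA1 (fun y hy =>
      rowsB h1 h3 h6 hC (hYo y hy).1 (hYo y hy).2.1 (hYo y hy).2.2)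
    have e3 := a3 (XA G s n h) (XB G s n h) Y
    rw [← hX] at e3
    have e4 : cr G X ≤ rk G X (Y ∪ {s n}) := by
      unfold cr
      apply a2 X X Xᶜ (Y ∪ {s n}) (le_refl _)
      intro v hv
      by_cases hvn : v = s n
      · exact Or.inr hvn
      · left
        rw [hY]
        exact ⟨hv, hvn⟩
    have e5 : rk G X (Y ∪ {s n}) ≤ rk G X Y + rk G X {s n} := by
      rw [a1 X (Y ∪ {s n}), a1 X Y, a1 X {s n}]
      exact a3 Y {s n} X
    have e6 : rk G X {s n} ≤ 1 := by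
      rw [a1 X {s n}]
      exact (a4 {s n} X).trans (by rw [Set.ncard_singleton])
    rw [← hX]
    omega
  · intro i hi
    constructor
    · rintro ((⟨j, hj, hij⟩ | hv | hv) | (⟨e, -, hv⟩ | ⟨p, -, -, hv⟩ | ⟨P, hP, hv⟩ | ⟨P, hP, hv⟩))
      · by_contra hlt
        have hadj := hC.2.2.2.1 i (by omega) j (by have := hC.2.2.1; omega) (by omega)
        rw [hij] at hadj
        exact G.loopless.irrefl _ hadj
      · exact absurd rfl (hv.1.1 i (by omega))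
      · exact absurd rfl (hv.1.1.1 i (by omega))
      · exact absurd rfl (hv.1 i (by omega))
      · exact absurd rfl (hv.1 i (by omega))
      · exact absurd rfl (r0_ot (hP.1.1 hv) i (by omega))
      · exact absurd rfl (r0_ot (hP.1.1 hv) i (by omega))
    · intro hih
      exact Or.inl (Or.inl ⟨i, hih, rfl⟩)

end Pool.Agent.MPd439b2.H1
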