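import Pool.Agent.Lib.MP_d439b2_co.H1.Spec2

/-!
# MP_d439b2_co, H1: the statement `S_CM2` (the cut in type (CM))
-/

set_option autoImplicit false

namespace Pool.Agent.MPd439b2.H1

open Pool.Agent.MPd439b2 Pool.Agent.MPd439b2.LK

namespace PfCM2

variable {V : Type} (G : SimpleGraph V) (s : ℕ → V) (n h : ℕ)

/-- the small side without the vertices of the sequence -/
def side : Set V := {v | (∃ e, e < h ∧ v ∈ cV G s n e) ∨
  ∃ C e v', IsComp G (cO G s n) C ∧ e < h ∧ v' ∈ cV G s n e ∧ v' ∈ nb G C ∧ v ∈ C}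

/-- the vertices of the sequence in the small side -/
def ini : Set V := {v | ∃ i, i < h ∧ v = s i}

/-- the part of `hF` which sees the vertices of `cV` -/
def F1 : Set V := {f | f ∈ hF G s n ∧ ∃ e v, e < n ∧ v ∈ cV G s n e ∧ G.Adj f v}

variable {G s n h}

/-- every vertex belongs to one of the classes -/
private theorem classes (hT : TyC G s n) (v : V) :
    (∃ i, i < n ∧ v = s i) ∨ v ∈ hF G s n ∨ v ∈ cO G s n ∨ ∃ e, e < n ∧ v ∈ cV G s n e := by
  by_cases hv : Ot s n v
  · rcases hT.1 v hv with h1 | h1 | ⟨e, he, h1⟩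
    · exact Or.inr (Or.inl ⟨hv, h1⟩)
    · exact Or.inr (Or.inr (Or.inl ⟨hv, h1⟩))
    · exact Or.inr (Or.inr (Or.inr ⟨e, he, hv, h1⟩))
  · left
    unfold Ot at hv
    push Not at hv
    exact hv

private theorem adj_hF {v : V} (hv : v ∈ hF G s n) {i : ℕ} (hi : i < n) : G.Adj v (s i) := by
  by_contra hcon
  have h1 : i ∈ Tr G s n v := ⟨hi, hcon⟩
  rw [hv.2] at h1
  exact h1

private theorem not_adj_cO {v : V} (hv : v ∈ cO G s n) {i : ℕ} (hi : i < n) :
    ¬ G.Adj v (s i) := by
  have h1 : i ∈ Tr G s n v := by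
    rw [hv.2]
    exact hi
  exact h1.2

private theorem not_adj_cV {v : V} {e : ℕ} (hv : v ∈ cV G s n e) {i : ℕ} (hi : i < n)
    (hie : i ≠ e) : ¬ G.Adj v (s i) := by
  have h1 : i ∈ Tr G s n v := by
    rw [hv.2]
    exact ⟨hi, hie⟩
  exact h1.2

private theorem hF_not_cO (hn : 3 ≤ n) {v : V} (hv : v ∈ hF G s n) : v ∉ cO G s n :=
  fun hc => not_adj_cO hc (i := 0) (by omega) (adj_hF hv (by omega))

private theorem hF_not_cV (hn : 3 ≤ n) {v : V} (hv : v ∈ hF G s n) (e : ℕ) :
    v ∉ cV G s n e := by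
  intro hc
  by_cases he : e = 0
  · exact not_adj_cV hc (i := 1) (by omega) (by omega) (adj_hF hv (by omega))
  · exact not_adj_cV hc (i := 0) (by omega) (fun h => he h.symm) (adj_hF hv (by omega))

private theorem cV_not_cO {v : V} {e : ℕ} (he : e < n) (hv : v ∈ cV G s n e) :
    v ∉ cO G s n := by
  intro hc
  have h1 : e ∈ Tr G s n v := by
    rw [hc.2]
    exact he
  rw [hv.2] at h1
  exact h1.2 rfl

end PfCM2

open PfCM2 in
theorem pfCM2 (hA1 : LK.S_A1) (hCM1 : S_CM1) : S_CM2 := by
  intro V _ G s n h hG hn hsq hT hh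
  obtain ⟨c1, c2, c3, c4⟩ := hCM1 V G s n hG hn hsq hT
  obtain ⟨-, -, a3, -, a5, -⟩ := hA1 V G
  refine ⟨ini s h ∪ side G s n h, ?_, ?_⟩
  · set X : Set V := ini s h ∪ side G s n h with hX
    -- facts on the vertices outside `X`
    have out_s : ∀ j, j < n → s j ∈ Xᶜ → h ≤ j := by
      intro j _ hj
      by_contra hcon
      exact hj (Or.inl ⟨j, by omega, rfl⟩)
    have out_cV : ∀ e v, v ∈ cV G s n e → v ∈ Xᶜ → h ≤ e := by
      intro e v hv hvX
      by_contra hcon
      exact hvX (Or.inr (Or.inl ⟨e, by omega, hv⟩))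
    -- the rows of the vertices of the sequence
    have r1 : rk G (ini s h) Xᶜ ≤ 1 := by
      apply a5 _ _ ({v | ∃ j, j < n ∧ v = s j} ∪ hF G s n)
      rintro _ ⟨i, hi, rfl⟩
      left
      intro b hb
      rcases classes hT b with ⟨j, hj, rfl⟩ | hbF | hbO | ⟨e, he, hbe⟩
      · have := out_s j hj hb
        exact iff_of_true (hsq i (by omega) j hj (by omega)) (Or.inl ⟨j, hj, rfl⟩)
      · exact iff_of_true (adj_hF hbF (by omega)).symm (Or.inr hbF)
      · refine iff_of_false (fun hadj => not_adj_cO hbO (by omega) hadj.symm) ?_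
        rintro (⟨j, hj, hj'⟩ | hbF)
        · exact hbO.1 j hj hj'
        · exact hF_not_cO hn hbF hbO
      · have := out_cV e b hbe hb
        refine iff_of_false (fun hadj => not_adj_cV hbe (by omega) (by omega) hadj.symm) ?_
        rintro (⟨j, hj, hj'⟩ | hbF)
        · exact hbe.1 j hj hj'
        · exact hF_not_cV hn hbF e hbe
    -- the other rows
    have r2 : rk G (side G s n h) Xᶜ ≤ 1 := by
      apply a5 _ _ (F1 G s n)
      intro a ha
      left
      intro b hb
      rcases ha with ⟨e, he, hae⟩ | ⟨C, e, v', hC, he, hv', hvC, haC⟩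
      · rcases classes hT b with ⟨j, hj, rfl⟩ | hbF | hbO | ⟨e', he', hbe⟩
        · have := out_s j hj hb
          refine iff_of_false (not_adj_cV hae hj (by omega)) ?_
          rintro ⟨hbF, -⟩
          exact hbF.1 j hj rfl
        · constructor
          · intro hadj
            exact ⟨hbF, e, a, by omega, hae, hadj.symm⟩
          · rintro ⟨-, e', v, he', hv, hbv⟩
            exact ((c2 e' e v a b he' (by omega) hv hae hbF).1 hbv).symm
        · refine iff_of_false ?_ (fun hbF => hF_not_cO hn hbF.1 hbO)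
          intro hadj
          obtain ⟨C, hCO, hbC, hCc, hCn⟩ := exists_comp G hbO
          refine hb (Or.inr (Or.inr ⟨C, e, a, ⟨hCO, hCc, hCn⟩, he, hae, ⟨?_, b, hbC, hadj.symm⟩,
            hbC⟩))
          intro haC
          exact cV_not_cO (by omega) hae (hCO haC)
        · have := out_cV e' b hbe hb
          exact iff_of_false (c1 e e' a b (by omega) (by omega) he' hae hbe)
            (fun hbF => hF_not_cV hn hbF.1 e' hbe)
      · have haO : a ∈ cO G s n := hC.1 haC
        rcases classes hT b with ⟨j, hj, rfl⟩ | hbF | hbO | ⟨e', he', hbe⟩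
        · refine iff_of_false (not_adj_cO haO hj) ?_
          rintro ⟨hbF, -⟩
          exact hbF.1 j hj rfl
        · have c5 := c4 C e v' b hC (by omega) hv' hvC hbF
          constructor
          · intro hadj
            refine ⟨hbF, e, v', by omega, hv', ?_⟩
            by_contra hcon
            exact c5.2 hcon a haC hadj.symm
          · rintro ⟨-, e', v, he', hv, hbv⟩
            exact (c5.1 ((c2 e' e v v' b he' (by omega) hv hv' hbF).1 hbv) a haC).symm
        · refine iff_of_false ?_ (fun hbF => hF_not_cO hn hbF.1 hbO)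
          intro hadj
          have hbC : b ∈ C := by
            by_contra hcon
            exact hC.2.2 b hbO ⟨hcon, a, haC, hadj⟩
          exact hb (Or.inr (Or.inr ⟨C, e, v', hC, he, hv', hvC, hbC⟩))
        · have h1 := out_cV e' b hbe hb
          refine iff_of_false ?_ (fun hbF => hF_not_cV hn hbF.1 e' hbe)
          intro hadj
          have h2 : e = e' := c3 C e e' v' b hC (by omega) he' hv' hbe hvC
            ⟨fun hbC => cV_not_cO he' hbe (hC.1 hbC), a, haC, hadj⟩
          omega
    have h1 := a3 (ini s h) (side G s n h) Xᶜ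
    unfold cr
    rw [← hX] at h1
    omega
  · intro i hi
    constructor
    · rintro (⟨j, hj, hij⟩ | ⟨e, he, hie⟩ | ⟨C, e, v', hC, he, hv', hvC, hiC⟩)
      · by_contra hcon
        have h1 : i ≠ j := by omega
        exact (hsq i hi j (by omega) h1).ne hij
      · exact absurd rfl (hie.1 i hi)
      · exact absurd rfl ((hC.1 hiC).1 i hi)
    · intro hih
      exact Or.inl ⟨i, hih, rfl⟩

end Pool.Agent.MPd439b2.H1
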