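import Pool.Agent.Lib.MP_d439b2_co.H1.Spec2

/-!
# MP_d439b2_co, H1: Fin1, the theorem for the pair (C_4, K3:0,1,02) (helper50)
-/

set_option autoImplicit false

namespace Pool.Agent.MPd439b2.H1

open Pool.Agent.MPd439b2 Pool.Agent.MPd439b2.LK

theorem pfFin1 (h1 : S_A13) (h2 : S_Reg2) (h3 : S_R11) (h4 : S_NoI) (h5 : S_NoM)
    (h6 : S_LayCW) : S_Fin1 := by
  obtain ⟨m₁, hm₁⟩ := h4 3
  obtain ⟨m₂, hm₂⟩ := h5 3
  obtain ⟨N, hN⟩ := h2 3 (max m₁ m₂)
  obtain ⟨k, hk⟩ := h1 N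
  have key : ∀ (V : Type) [Finite V] (G : SimpleGraph V), Cls1 G → Lay G k Set.univ := by
    intro V _ G hG
    refine hk V G hG.1 fun J hJ hJN hL => ?_
    obtain ⟨s, hsJ, hsq, hty⟩ := hN V G J hG hJ hL hJN.ge
    have hsub : ∀ m, m ≤ max m₁ m₂ → Lk G (rg s m) 3 := by
      intro m hm X
      have hrg : rg s m ⊆ J := by
        rintro _ ⟨i, hi, rfl⟩
        exact hsJ i (by omega)
      rcases hL X with h | h
      · exact Or.inl ((Set.ncard_le_ncard (Set.inter_subset_inter_left X hrg)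
          (Set.toFinite _)).trans h)
      · exact Or.inr ((Set.ncard_le_ncard (Set.sdiff_subset_sdiff_left hrg)
          (Set.toFinite _)).trans h)
    have hsqm : ∀ m, m ≤ max m₁ m₂ → Sq G s m :=
      fun m hm i hi j hj hij => hsq i (by omega) j (by omega) hij
    rcases hty with h | h
    · have hle : m₂ ≤ max m₁ m₂ := le_max_right _ _
      exact hm₂ V G s hG (hsqm _ hle) ((h3 V G s m₂ _ hle hsq).1 h) (hsub _ hle)
    · have hle : m₁ ≤ max m₁ m₂ := le_max_left _ _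
      exact hm₁ V G s hG (hsqm _ hle) ((h3 V G s m₁ _ hle hsq).2.2.1 h) (hsub _ hle)
  refine ⟨⟨k, key⟩, 3 * (k + 1), fun V _ _ G hG₁ hG₂ => ?_⟩
  exact h6 V G k (key V G ⟨fun h => hG₁ (ims_univ_iff.mp h), fun h => hG₂ (ims_univ_iff.mp h)⟩)

end Pool.Agent.MPd439b2.H1
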