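import Pool.Agent.Lib.MP_d439b2_co.H1.Spec1

/-!
# MP_d439b2_co, column `C_4`, row `K3:0,1,02`, M0: the general model
-/

set_option autoImplicit false

namespace Pool.Agent.MPd439b2.H1

open Pool.Agent.MPd439b2 Pool.Agent.MPd439b2.LK

namespace M0Aux

variable {V : Type} {G : SimpleGraph V}

/-- the model of `K3:0,1,02` from six sets -/
theorem model {P Q R X Y Z : Set V} (cP : Conn G P) (cQ : Conn G Q) (cR : Conn G R)
    (cX : Conn G X) (cY : Conn G Y) (cZ : Conn G Z)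
    (dPQ : Disjoint P Q) (dPR : Disjoint P R) (dQR : Disjoint Q R)
    (dPX : Disjoint P X) (dQX : Disjoint Q X) (dRX : Disjoint R X)
    (dPY : Disjoint P Y) (dQY : Disjoint Q Y) (dRY : Disjoint R Y)
    (dPZ : Disjoint P Z) (dQZ : Disjoint Q Z) (dRZ : Disjoint R Z)
    (dXY : Disjoint X Y) (dXZ : Disjoint X Z) (dYZ : Disjoint Y Z)
    (tPQ : Tch G P Q) (tPR : Tch G P R) (tQR : Tch G Q R)
    (tPX : Tch G P X) (tQX : ¬ Tch G Q X) (tRX : ¬ Tch G R X)
    (tPY : ¬ Tch G P Y) (tQY : Tch G Q Y) (tRY : ¬ Tch G R Y)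
    (tPZ : Tch G P Z) (tQZ : ¬ Tch G Q Z) (tRZ : Tch G R Z)
    (tXY : ¬ Tch G X Y) (tXZ : ¬ Tch G X Z) (tYZ : ¬ Tch G Y Z) :
    IMS (KA 3 3 ![{0}, {1}, {0, 2}]) G Set.univ := by
  have hd : ∀ i j : Fin 3, i ≠ j → Disjoint ((![P, Q, R] : Fin 3 → Set V) i)
      ((![P, Q, R] : Fin 3 → Set V) j) := by
    intro i j hij
    fin_cases i <;> fin_cases j <;> first
      | exact absurd rfl hij
      | assumption
      | (apply Disjoint.symm; assumption)
  have ht : ∀ i j : Fin 3, i ≠ j → Tch G ((![P, Q, R] : Fin 3 → Set V) i)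
      ((![P, Q, R] : Fin 3 → Set V) j) := by
    intro i j hij
    fin_cases i <;> fin_cases j <;> first
      | exact absurd rfl hij
      | assumption
      | (apply Tch.symm; assumption)
  have hd' : ∀ (i : Fin 3) (j : Fin 3), Disjoint ((![P, Q, R] : Fin 3 → Set V) i)
      ((![X, Y, Z] : Fin 3 → Set V) j) := by
    intro i j
    fin_cases i <;> fin_cases j <;> assumption
  have ht' : ∀ (i : Fin 3) (j : Fin 3), i ∈ (![{0}, {1}, {0, 2}] : Fin 3 → Set (Fin 3)) j ↔
      Tch G ((![P, Q, R] : Fin 3 → Set V) i) ((![X, Y, Z] : Fin 3 → Set V) j) := by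
    intro i j
    fin_cases i <;> fin_cases j <;> simp <;> assumption
  have hdd : ∀ i j : Fin 3, i ≠ j → Disjoint ((![X, Y, Z] : Fin 3 → Set V) i)
      ((![X, Y, Z] : Fin 3 → Set V) j) := by
    intro i j hij
    fin_cases i <;> fin_cases j <;> first
      | exact absurd rfl hij
      | assumption
      | (apply Disjoint.symm; assumption)
  have htt : ∀ i j : Fin 3, i ≠ j → ¬ Tch G ((![X, Y, Z] : Fin 3 → Set V) i)
      ((![X, Y, Z] : Fin 3 → Set V) j) := by
    intro i j hij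
    fin_cases i <;> fin_cases j <;> first
      | exact absurd rfl hij
      | assumption
      | (intro h; exact tXY h.symm)
      | (intro h; exact tXZ h.symm)
      | (intro h; exact tYZ h.symm)
  refine ⟨Sum.elim ![P, Q, R] ![X, Y, Z], fun _ => Set.subset_univ _, ?_, ?_, ?_⟩
  · rintro (w | w) <;> fin_cases w <;> assumption
  · rintro (w | w) (w' | w') hw
    · exact hd w w' fun h => hw (congrArg _ h)
    · exact hd' w w'
    · exact (hd' w' w).symm
    · exact hdd w w' fun h => hw (congrArg _ h)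
  · rintro (w | w) (w' | w') hw
    · have h : w ≠ w' := fun h => hw (congrArg _ h)
      exact iff_of_true h (ht w w' h)
    · exact ht' w w'
    · exact (ht' w' w).trans tch_comm
    · have h : w ≠ w' := fun h => hw (congrArg _ h)
      exact iff_of_false (fun h => h) (htt w w' h)

end M0Aux

theorem pfM0 : S_M0 := by
  intro V G P0 P1 P2 x y z c0 c1 c2 d01 d02 d12 x0 x1 x2 y0 y1 y2 z0 z1 z2 t01 t02 t12 hx0 hx1 hx2
    hy1 hy0 hy2 hz0 hz2 hz1 hxy hxz hyz
  have hsing : ∀ {v : V} {A : Set V}, v ∉ A → Disjoint A ({v} : Set V) := fun h =>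
    Set.disjoint_singleton_right.2 h
  have hyes : ∀ {v : V} {A : Set V}, (∃ p ∈ A, G.Adj v p) → Tch G A {v} := by
    rintro v A ⟨p, hp, h⟩
    exact ⟨p, hp, v, rfl, h.symm⟩
  have hno : ∀ {v : V} {A : Set V}, (∀ a ∈ A, ¬ G.Adj v a) → ¬ Tch G A {v} := by
    rintro v A h ⟨a, ha, b, rfl, hab⟩
    exact h a ha hab.symm
  have hnn : ∀ {u v : V}, ¬ G.Adj u v → ¬ Tch G ({u} : Set V) {v} := by
    rintro u v h ⟨a, rfl, b, rfl, hab⟩
    exact h hab
  have nxy : x ≠ y := by
    rintro rfl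
    obtain ⟨p, hp, h⟩ := hx0
    exact hy0 p hp h
  have nxz : x ≠ z := by
    rintro rfl
    obtain ⟨p, hp, h⟩ := hz2
    exact hx2 p hp h
  have nyz : y ≠ z := by
    rintro rfl
    obtain ⟨p, hp, h⟩ := hz2
    exact hy2 p hp h
  exact M0Aux.model c0 c1 c2 (Conn.singleton G x) (Conn.singleton G y) (Conn.singleton G z)
    d01 d02 d12 (hsing x0) (hsing x1) (hsing x2) (hsing y0) (hsing y1) (hsing y2)
    (hsing z0) (hsing z1) (hsing z2)
    (Set.disjoint_singleton.2 nxy) (Set.disjoint_singleton.2 nxz) (Set.disjoint_singleton.2 nyz)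
    t01 t02 t12 (hyes hx0) (hno hx1) (hno hx2) (hno hy0) (hyes hy1) (hno hy2)
    (hyes hz0) (hno hz1) (hyes hz2) (hnn hxy) (hnn hxz) (hnn hyz)

end Pool.Agent.MPd439b2.H1
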