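import Pool.Agent.Lib.MP_d439b2_co.H1.Spec1

/-!
# MP_d439b2_co, column `C_4`, row `K3:0,1,02`, M1: the vertex model
-/

set_option autoImplicit false

namespace Pool.Agent.MPd439b2.H1

open Pool.Agent.MPd439b2 Pool.Agent.MPd439b2.LK

theorem pfM1 (h : S_M0) : S_M1 := by
  intro V G a a' b c x y z haa hba hca hbc nca nca' nxa nxa' nza nza' hxa hxb hxc hyb hya hya' hyc
    hza hzc hzb hxy hxz hyz
  have cP : Conn G {a, a'} := by
    rcases haa with rfl | haa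
    · simpa using Conn.singleton G a
    · exact Conn.pair haa
  have nba : b ≠ a := fun e => hya (e ▸ hyb)
  have nba' : b ≠ a' := fun e => hya' (e ▸ hyb)
  have nxb : x ≠ b := fun e => hxy (e ▸ hyb.symm)
  have nxc : x ≠ c := fun e => hxz (e ▸ hzc.symm)
  have nyc : y ≠ c := fun e => hyz (e ▸ hzc.symm)
  have nzb : z ≠ b := fun e => hyz (e ▸ hyb)
  have nya : y ≠ a := by
    intro e
    rcases haa with haa | haa
    · rcases hxa with hxa | hxa
      · exact hxy (e ▸ hxa)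
      · exact hxy ((e.trans haa) ▸ hxa)
    · exact hya' (e ▸ haa)
  have nya' : y ≠ a' := by
    intro e
    rcases haa with haa | haa
    · exact nya (e.trans haa.symm)
    · exact hya (e ▸ haa.symm)
  have m2 : ∀ {v : V}, v ≠ a → v ≠ a' → v ∉ ({a, a'} : Set V) := by
    intro v h1 h2 h3
    rcases h3 with h3 | h3
    · exact h1 h3
    · exact h2 h3
  have m1 : ∀ {v w : V}, v ≠ w → v ∉ ({w} : Set V) := fun h1 h2 => h1 h2
  have e2 : ∀ {v : V}, (G.Adj v a ∨ G.Adj v a') → ∃ p ∈ ({a, a'} : Set V), G.Adj v p := by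
    rintro v (h1 | h1)
    · exact ⟨a, Or.inl rfl, h1⟩
    · exact ⟨a', Or.inr rfl, h1⟩
  have n2 : ∀ {v : V}, ¬ G.Adj v a → ¬ G.Adj v a' → ∀ p ∈ ({a, a'} : Set V), ¬ G.Adj v p := by
    rintro v h1 h2 p (rfl | rfl)
    · exact h1
    · exact h2
  have n1 : ∀ {v w : V}, ¬ G.Adj v w → ∀ p ∈ ({w} : Set V), ¬ G.Adj v p := by
    rintro v w h1 p rfl
    exact h1
  have tch2 : ∀ {v : V}, (G.Adj v a ∨ G.Adj v a') → Tch G {a, a'} {v} := by
    intro v h1
    obtain ⟨p, hp, h2⟩ := e2 h1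
    exact ⟨p, hp, v, rfl, h2.symm⟩
  exact h V G {a, a'} {b} {c} x y z cP (Conn.singleton G b) (Conn.singleton G c)
    (Set.disjoint_singleton_right.2 (m2 nba nba')) (Set.disjoint_singleton_right.2 (m2 nca nca'))
    (Set.disjoint_singleton.2 hbc.ne) (m2 nxa nxa') (m1 nxb) (m1 nxc) (m2 nya nya') (m1 hyb.ne)
    (m1 nyc) (m2 nza nza') (m1 nzb) (m1 hzc.ne) (tch2 hba) (tch2 hca) ⟨b, rfl, c, rfl, hbc⟩
    (e2 hxa) (n1 hxb) (n1 hxc) ⟨b, rfl, hyb⟩ (n2 hya hya') (n1 hyc) (e2 hza) ⟨c, rfl, hzc⟩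
    (n1 hzb) hxy hxz hyz

end Pool.Agent.MPd439b2.H1
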