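import Pool.Agent.Lib.MP_d439b2_co.H1.Spec1

/-! # MP_d439b2_co, H1, M2: no four-cycles -/

set_option autoImplicit false

namespace Pool.Agent.MPd439b2.H1

open Pool.Agent.MPd439b2 Pool.Agent.MPd439b2.LK

theorem pfM2 (h0 : S_A0) : S_M2 := by
  intro V G a b c d hC hab hbc hcd hda nac nbd
  by_contra hcon
  push Not at hcon
  have sS : ∀ u v : V, u ≠ v → Disjoint ({u} : Set V) {v} := fun u v h =>
    Set.disjoint_singleton.2 h
  have tS : ∀ u v : V, G.Adj u v → Tch G {u} {v} := fun u v h => ⟨u, rfl, v, rfl, h⟩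
  have ntS : ∀ u v : V, ¬ G.Adj u v → ¬ Tch G {u} {v} := by
    rintro u v h ⟨_, rfl, _, rfl, h'⟩
    exact h h'
  exact hC (h0 V G {a} {b} {c} {d} (Conn.singleton G a) (Conn.singleton G b) (Conn.singleton G c)
    (Conn.singleton G d) (sS _ _ (G.ne_of_adj hab)) (sS _ _ nac) (sS _ _ (G.ne_of_adj hda).symm)
    (sS _ _ (G.ne_of_adj hbc)) (sS _ _ nbd) (sS _ _ (G.ne_of_adj hcd)) (tS _ _ hab) (tS _ _ hbc)
    (tS _ _ hcd) (tS _ _ hda.symm) (ntS _ _ hcon.1) (ntS _ _ hcon.2))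

end Pool.Agent.MPd439b2.H1
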