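import Pool.Agent.Lib.MP_d439b2_co.H1.Spec1

/-! # MP_d439b2_co, H1, M3: adjacent vertices have nested missed sets -/

set_option autoImplicit false

namespace Pool.Agent.MPd439b2.H1

open Pool.Agent.MPd439b2 Pool.Agent.MPd439b2.LK

theorem pfM3 (h2 : S_M2) : S_M3 := by
  intro V G s n u v hC hS hu hv huv
  by_contra hcon
  push Not at hcon
  obtain ⟨h1, h3⟩ := hcon
  obtain ⟨i, hi, hi'⟩ := Set.not_subset.1 h1
  obtain ⟨j, hj, hj'⟩ := Set.not_subset.1 h3
  have hvi : G.Adj v (s i) := by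
    by_contra h
    exact hi' ⟨hi.1, h⟩
  have huj : G.Adj u (s j) := by
    by_contra h
    exact hj' ⟨hj.1, h⟩
  have hij : i ≠ j := by
    rintro rfl
    exact hi.2 huj
  rcases h2 V G u v (s i) (s j) hC huv hvi (hS i hi.1 j hj.1 hij) huj.symm (hu i hi.1)
    (hv j hj.1) with h | h
  · exact hi.2 h
  · exact hj.2 h

end Pool.Agent.MPd439b2.H1
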