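import Pool.Agent.Lib.MP_d439b2_co.H1.Spec1

/-!
# MP_d439b2_co, H1: M4, the clique model (helper18)
-/

set_option autoImplicit false

namespace Pool.Agent.MPd439b2.H1

open Pool.Agent.MPd439b2 Pool.Agent.MPd439b2.LK

/-- **M4.** The clique model (rule T). -/
theorem pfM4 (h1 : S_M1) : S_M4 := by
  intro V G K a a' b c x y z hG hK ha ha' hb hc hx hy hz hca' xa xb xc yb ya ya' yc za' zc zb xy xz
  by_contra yz
  have hba : b ≠ a := fun h => ya (h ▸ yb)
  have hbc : b ≠ c := fun h => yc (h ▸ yb)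
  have hca : c ≠ a := fun h => xc (h.symm ▸ xa)
  have haa' : a = a' ∨ G.Adj a a' := by
    by_cases h : a = a'
    · exact Or.inl h
    · exact Or.inr (hK a ha a' ha' h)
  exact hG.2 (h1 V G a a' b c x y z haa' (Or.inl (hK b hb a ha hba)) (Or.inl (hK c hc a ha hca))
    (hK b hb c hc hbc) hca hca' (fun h => hx (h ▸ ha)) (fun h => hx (h ▸ ha'))
    (fun h => hz (h ▸ ha)) (fun h => hz (h ▸ ha')) (Or.inl xa) xb xc yb ya ya' yc (Or.inr za') zc zb
    xy xz yz)

end Pool.Agent.MPd439b2.H1
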