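import Pool.Agent.Lib.MP_d439b2_co.H1.Spec1

/-!
# MP_d439b2_co, H1: M5, a connected set complete to `k₂` and touching `k₁` (helper18)
-/

set_option autoImplicit false

namespace Pool.Agent.MPd439b2.H1

open Pool.Agent.MPd439b2 Pool.Agent.MPd439b2.LK

/-- **M5.** A connected set which is complete to `k₂` and touches `k₁` is complete to `k₁`. -/
theorem pfM5 (h1 : S_M1) : S_M5 := by
  intro V G C k₁ k₂ x y hG hC hk₁ hk₂ hx hy hk hxC hyC hxy xk₁ xk₂ yk₂ yk₁ ht hc c hcC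
  by_contra hck
  obtain ⟨d, hd, c', hc', hdc⟩ := hC.2 {z | z ∈ C ∧ ¬ G.Adj z k₁} (fun z hz => hz.1) ⟨c, hcC, hck⟩
    (by
      obtain ⟨t, htC, htk⟩ := ht
      intro h
      rw [← h] at htC
      exact htC.2 htk)
  have hc'k : G.Adj c' k₁ := by
    by_contra h
    exact hc'.2 ⟨hc'.1, h⟩
  exact hG.2 (h1 V G k₂ k₂ k₁ c' y x d (Or.inl rfl) (Or.inl hk) (Or.inl (hc c' hc'.1)) hc'k.symm
    (fun h => hk₂ (h ▸ hc'.1)) (fun h => hk₂ (h ▸ hc'.1)) yk₂.ne yk₂.ne (fun h => hk₂ (h ▸ hd.1))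
    (fun h => hk₂ (h ▸ hd.1)) (Or.inl yk₂) yk₁ (hyC c' hc'.1) xk₁ xk₂ xk₂ (hxC c' hc'.1)
    (Or.inl (hc d hd.1)) hdc hd.2 (fun h => hxy h.symm) (hyC d hd.1) (hxC d hd.1))

end Pool.Agent.MPd439b2.H1
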