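import Pool.Agent.Lib.MP_d439b2_co.H1.Spec1
import Pool.Agent.Lib.MP_577a3c26_an.Ramsey

/-! # MP_d439b2_co, H1, R0: Ramsey's theorem for triples -/

set_option autoImplicit false

namespace Pool.Agent.MPd439b2.H1

open Pool.Agent.MPd439b2 Pool.Agent.MPd439b2.LK

namespace R0Aux

/-- the colour of a three-element set -/
noncomputable def col {κ : Type} (χ : ℕ → ℕ → ℕ → κ) (D : Finset ℕ) : κ :=
  if h : D.card = 3 then χ (D.orderEmbOfFin h 0) (D.orderEmbOfFin h 1) (D.orderEmbOfFin h 2)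
  else χ 0 0 0

theorem col_eq {κ : Type} (χ : ℕ → ℕ → ℕ → κ) {a b c : ℕ} (hab : a < b) (hbc : b < c) :
    ({a, b, c} : Finset ℕ).card = 3 ∧ col χ {a, b, c} = χ a b c := by
  have h3 : ({a, b, c} : Finset ℕ).card = 3 := by
    rw [Finset.card_eq_three]
    exact ⟨a, b, c, by omega, by omega, by omega, rfl⟩
  refine ⟨h3, ?_⟩
  have hmono : StrictMono (![a, b, c] : Fin 3 → ℕ) := by
    intro i j hij
    fin_cases i <;> fin_cases j <;> simp_all <;> omega
  have hu := Finset.orderEmbOfFin_unique h3 (f := ![a, b, c]) (by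
    intro x
    fin_cases x <;> simp) hmono
  unfold col
  rw [dif_pos h3]
  rw [← hu]
  rfl

end R0Aux

open R0Aux in
theorem pfR0 : S_R0 := by
  intro κ _ m
  obtain ⟨L, hL⟩ := Pool.Agent.Lib.MP_577a3c26_an.ramsey 3 m κ
  refine ⟨L, fun χ => ?_⟩
  obtain ⟨H, hHL, hcard, c, hc⟩ := hL (col χ)
  have hs : ∀ k (hk : k < m), (fun k => if h : k < m then H.orderEmbOfFin hcard ⟨k, h⟩ else 0) k
      = H.orderEmbOfFin hcard ⟨k, hk⟩ := by
    intro k hk
    simp only [hk, dif_pos]
  have hlt : ∀ k l (_ : k < l) (hl : l < m),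
      (fun k => if h : k < m then H.orderEmbOfFin hcard ⟨k, h⟩ else 0) k
      < (fun k => if h : k < m then H.orderEmbOfFin hcard ⟨k, h⟩ else 0) l := by
    intro k l hkl hl
    rw [hs k (by omega), hs l hl]
    exact (H.orderEmbOfFin hcard).strictMono (Fin.mk_lt_mk.2 hkl)
  have hmem : ∀ k, k < m → (fun k => if h : k < m then H.orderEmbOfFin hcard ⟨k, h⟩ else 0) k ∈ H := by
    intro k hk
    rw [hs k hk]
    exact H.orderEmbOfFin_mem hcard _
  refine ⟨fun k => if h : k < m then H.orderEmbOfFin hcard ⟨k, h⟩ else 0, c, hlt, ?_, ?_⟩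
  · intro k hk
    exact Finset.mem_range.1 (hHL (hmem k hk))
  · intro i j k hij hjk hk
    obtain ⟨h1, h2⟩ := col_eq χ (hlt i j hij (by omega)) (hlt j k hjk hk)
    rw [← h2]
    refine hc _ ?_ h1
    intro x hx
    rw [Finset.mem_insert, Finset.mem_insert, Finset.mem_singleton] at hx
    rcases hx with rfl | rfl | rfl
    · exact hmem i (by omega)
    · exact hmem j (by omega)
    · exact hmem k hk

end Pool.Agent.MPd439b2.H1
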