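import Pool.Agent.Lib.MP_d439b2_co.H1.Spec1

/-!
# MP_d439b2_co, H1: R1, halving a linked clique
-/

set_option autoImplicit false

namespace Pool.Agent.MPd439b2.H1

open Pool.Agent.MPd439b2 Pool.Agent.MPd439b2.LK

private theorem halve {V : Type} [Finite V] (h1 : LK.S_A1) {G : SimpleGraph V} {S : Set V} {q : ℕ}
    (hS : CompleteOn G S) (hL : Lk G S q) (k : ℕ) : ∀ T ⊆ S, 2 ^ k * (q + 1) ≤ T.ncard →
      q < (S \ T).ncard → ∃ b v : ℕ → V, (∀ i, i < k → b i ∈ T) ∧
    (∀ i j, i < j → j < k → b i ≠ b j) ∧ (∀ i, i < k → v i ∉ S) ∧
    ∀ i, i < k → (¬ G.Adj (v i) (b i) ∧ ∀ j, i < j → j < k → G.Adj (v i) (b j)) ∨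
      (G.Adj (v i) (b i) ∧ ∀ j, i < j → j < k → ¬ G.Adj (v i) (b j)) := by
  induction k with
  | zero =>
    intro T hT hTc _
    have hpos : 0 < T.ncard := by
      have h2 : 2 ^ 0 * (q + 1) = q + 1 := by ring
      omega
    obtain ⟨a, ha⟩ := (Set.ncard_pos (Set.toFinite _)).mp hpos
    exact ⟨fun _ => a, fun _ => a, fun i hi => absurd hi (Nat.not_lt_zero _),
      fun i j _ hj => absurd hj (Nat.not_lt_zero _), fun i hi => absurd hi (Nat.not_lt_zero _),
      fun i hi => absurd hi (Nat.not_lt_zero _)⟩
  | succ k ih =>
    intro T hT hTc hST
    have hpow : 2 ^ (k + 1) * (q + 1) = 2 * (2 ^ k * (q + 1)) := by ring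
    have hq : q + 1 ≤ 2 ^ k * (q + 1) := Nat.le_mul_of_pos_left _ (Nat.two_pow_pos k)
    -- a vertex which sees an element of `T` and misses another one
    obtain ⟨v, hv, ⟨a, ha, hva⟩, a', ha', hva'⟩ : ∃ v, v ∉ S ∧ (∃ a ∈ T, G.Adj v a) ∧
        ∃ a' ∈ T, ¬ G.Adj v a' := by
      by_contra hno
      push Not at hno
      obtain ⟨r1, -, -, -, r5, -⟩ := h1 V G
      have hcr : cr G T ≤ 1 := by
        unfold cr
        rw [r1]
        refine r5 _ _ Set.univ fun x hx => ?_
        by_cases hxS : x ∈ S
        · left
          intro b hb
          refine ⟨fun _ => trivial, fun _ => hS x hxS b (hT hb) ?_⟩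
          rintro rfl
          exact hx hb
        · by_cases h3 : ∃ a ∈ T, G.Adj x a
          · left
            intro b hb
            exact ⟨fun _ => trivial, fun _ => hno x hxS h3 b hb⟩
          · right
            intro b hb hxb
            exact h3 ⟨b, hb, hxb⟩
      have h4 : q * cr G T ≤ q := by
        calc q * cr G T ≤ q * 1 := Nat.mul_le_mul_left _ hcr
          _ = q := Nat.mul_one q
      rcases hL T with h5 | h5
      · rw [Set.inter_eq_self_of_subset_right hT] at h5
        omega
      · omega
    have hsplit : (T ∩ {x | G.Adj v x}).ncard + (T \ {x | G.Adj v x}).ncard = T.ncard :=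
      Set.ncard_inter_add_ncard_sdiff_eq_ncard _ _ (Set.toFinite _)
    by_cases hbig : 2 ^ k * (q + 1) ≤ (T ∩ {x | G.Adj v x}).ncard
    · have hsub : T ∩ {x | G.Adj v x} ⊆ T := Set.inter_subset_left
      have hST' : q < (S \ (T ∩ {x | G.Adj v x})).ncard :=
        lt_of_lt_of_le hST (Set.ncard_le_ncard (Set.sdiff_subset_sdiff_right hsub)
          (Set.toFinite _))
      obtain ⟨b, w, hb, hbb, hw, hbw⟩ := ih _ (hsub.trans hT) hbig hST'
      refine ⟨fun i => Nat.casesOn i a' b, fun i => Nat.casesOn i v w, ?_, ?_, ?_, ?_⟩
      · intro i hi
        cases i with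
        | zero => exact ha'
        | succ i => exact hsub (hb i (by omega))
      · intro i j hij hj
        cases j with
        | zero => omega
        | succ j =>
          cases i with
          | zero =>
            intro h5
            have h6 : a' = b j := h5
            apply hva'
            rw [h6]
            exact (hb j (by omega)).2
          | succ i => exact hbb i j (by omega) (by omega)
      · intro i hi
        cases i with
        | zero => exact hv
        | succ i => exact hw i (by omega)
      · intro i hi
        cases i with
        | zero =>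
          left
          refine ⟨hva', fun j hj hjk => ?_⟩
          cases j with
          | zero => omega
          | succ j => exact (hb j (by omega)).2
        | succ i =>
          rcases hbw i (by omega) with ⟨h5, h6⟩ | ⟨h5, h6⟩
          · left
            refine ⟨h5, fun j hj hjk => ?_⟩
            cases j with
            | zero => omega
            | succ j => exact h6 j (by omega) (by omega)
          · right
            refine ⟨h5, fun j hj hjk => ?_⟩
            cases j with
            | zero => omega
            | succ j => exact h6 j (by omega) (by omega)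
    · have hbig' : 2 ^ k * (q + 1) ≤ (T \ {x | G.Adj v x}).ncard := by omega
      have hsub : T \ {x | G.Adj v x} ⊆ T := Set.sdiff_subset
      have hST' : q < (S \ (T \ {x | G.Adj v x})).ncard :=
        lt_of_lt_of_le hST (Set.ncard_le_ncard (Set.sdiff_subset_sdiff_right hsub)
          (Set.toFinite _))
      obtain ⟨b, w, hb, hbb, hw, hbw⟩ := ih _ (hsub.trans hT) hbig' hST'
      refine ⟨fun i => Nat.casesOn i a b, fun i => Nat.casesOn i v w, ?_, ?_, ?_, ?_⟩
      · intro i hi
        cases i with
        | zero => exact ha
        | succ i => exact hsub (hb i (by omega))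
      · intro i j hij hj
        cases j with
        | zero => omega
        | succ j =>
          cases i with
          | zero =>
            intro h5
            have h6 : a = b j := h5
            apply (hb j (by omega)).2
            rw [← h6]
            exact hva
          | succ i => exact hbb i j (by omega) (by omega)
      · intro i hi
        cases i with
        | zero => exact hv
        | succ i => exact hw i (by omega)
      · intro i hi
        cases i with
        | zero =>
          right
          refine ⟨hva, fun j hj hjk => ?_⟩
          cases j with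
          | zero => omega
          | succ j => exact (hb j (by omega)).2
        | succ i =>
          rcases hbw i (by omega) with ⟨h5, h6⟩ | ⟨h5, h6⟩
          · left
            refine ⟨h5, fun j hj hjk => ?_⟩
            cases j with
            | zero => omega
            | succ j => exact h6 j (by omega) (by omega)
          · right
            refine ⟨h5, fun j hj hjk => ?_⟩
            cases j with
            | zero => omega
            | succ j => exact h6 j (by omega) (by omega)

theorem pfR1 (h1 : LK.S_A1) : S_R1 := by
  intro q k
  refine ⟨2 ^ k * (q + 1) + q + 1, fun V _ G S hS hL hN => ?_⟩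
  obtain ⟨T, hT, hTc⟩ := Set.exists_subset_card_eq (s := S) (n := 2 ^ k * (q + 1)) (by omega)
  have h2 := Set.ncard_sdiff_add_ncard_of_subset hT (Set.toFinite _)
  obtain ⟨b, v, hb, h3⟩ := halve h1 hS hL k T hT hTc.ge (by omega)
  exact ⟨b, v, fun i hi => hT (hb i hi), h3⟩

end Pool.Agent.MPd439b2.H1
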