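import Pool.Agent.Lib.MP_d439b2_co.H1.Spec1

/-!
# MP_d439b2_co, H1: R2, witnesses of one type
-/

set_option autoImplicit false

namespace Pool.Agent.MPd439b2.H1

open Pool.Agent.MPd439b2 Pool.Agent.MPd439b2.LK

theorem pfR2 (h1 : S_R1) (h2 : S_RP) : S_R2 := by
  classical
  intro q n
  obtain ⟨k, hk⟩ := h2 (Bool × Bool) (n + 1)
  obtain ⟨N, hN⟩ := h1 q k
  refine ⟨N, fun V _ G S hS hL hNS => ?_⟩
  obtain ⟨b, v, hb, hbb, hv, hbv⟩ := hN V G S hS hL hNS
  obtain ⟨σ, ⟨c₁, c₂⟩, hσ, hσk, hc⟩ := hk fun i j => (decide (¬ G.Adj (v i) (b i)),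
    decide (G.Adj (v j) (b i)))
  have hσ' : ∀ i, i < n → σ i < k := fun i hi => hσk i (by omega)
  have hc₁ : ∀ i, i < n → (¬ G.Adj (v (σ i)) (b (σ i)) ↔ c₁ = true) := by
    intro i hi
    have h3 := congrArg Prod.fst (hc i n hi (Nat.lt_succ_self n))
    have h4 : decide (¬ G.Adj (v (σ i)) (b (σ i))) = c₁ := h3
    rw [← h4]
    exact decide_eq_true_iff.symm
  have hc₂ : ∀ i j, i < j → j < n → (G.Adj (v (σ j)) (b (σ i)) ↔ c₂ = true) := by
    intro i j hij hj
    have h3 := congrArg Prod.snd (hc i j hij (by omega))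
    have h4 : decide (G.Adj (v (σ j)) (b (σ i))) = c₂ := h3
    rw [← h4]
    exact decide_eq_true_iff.symm
  -- the forward adjacencies
  have hc₃ : ∀ i j, i < j → j < n → (G.Adj (v (σ i)) (b (σ j)) ↔ c₁ = true) := by
    intro i j hij hj
    have h3 := hc₁ i (by omega)
    have h4 : σ i < σ j := hσ i j hij (by omega)
    rcases hbv (σ i) (hσ' i (by omega)) with ⟨h5, h6⟩ | ⟨h5, h6⟩
    · exact iff_of_true (h6 _ h4 (hσ' j hj)) (h3.mp h5)
    · exact iff_of_false (h6 _ h4 (hσ' j hj)) fun h7 => h3.mpr h7 h5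
  have hbS : ∀ i, i < n → b (σ i) ∈ S := fun i hi => hb _ (hσ' i hi)
  have hvS : ∀ i, i < n → v (σ i) ∉ S := fun i hi => hv _ (hσ' i hi)
  have hne : ∀ i j, i < n → j < n → i ≠ j → b (σ i) ≠ b (σ j) := by
    intro i j hi hj hij
    rcases lt_or_gt_of_ne hij with h | h
    · exact hbb _ _ (hσ i j h (by omega)) (hσ' j hj)
    · exact (hbb _ _ (hσ j i h (by omega)) (hσ' i hi)).symm
  have hOt : ∀ i, i < n → Ot (fun j => b (σ j)) n (v (σ i)) := by
    intro i hi j hj h
    apply hvS i hi
    rw [h]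
    exact hbS j hj
  have hSq : Sq G (fun j => b (σ j)) n := fun i hi j hj hij =>
    hS _ (hbS i hi) _ (hbS j hj) (hne i j hi hj hij)
  by_cases h₁ : c₁ = true
  · by_cases h₂ : c₂ = true
    · refine ⟨fun j => b (σ j), hbS, hSq, Or.inl ?_⟩
      intro e he
      refine ⟨v (σ e), hOt e he, ?_⟩
      ext i
      constructor
      · rintro ⟨hi, hadj⟩
        by_contra hie
        have hie' : i ≠ e := hie
        apply hadj
        rcases lt_or_gt_of_ne hie' with h | h
        · exact (hc₂ i e h he).mpr h₂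
        · exact (hc₃ e i h hi).mpr h₁
      · intro hi
        have hi' : i = e := hi
        rw [hi']
        exact ⟨he, (hc₁ e he).mpr h₁⟩
    · refine ⟨fun j => b (σ j), hbS, hSq, Or.inr (Or.inr ?_)⟩
      intro p hp hpn
      refine ⟨v (σ (p - 1)), hOt _ (by omega), ?_⟩
      ext i
      constructor
      · rintro ⟨hi, hadj⟩
        by_contra hip
        have hip' : ¬ i < p := hip
        apply hadj
        exact (hc₃ (p - 1) i (by omega) hi).mpr h₁
      · intro hi
        have hi' : i < p := hi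
        refine ⟨by omega, ?_⟩
        by_cases h : i = p - 1
        · rw [h]
          exact (hc₁ (p - 1) (by omega)).mpr h₁
        · exact fun h3 => h₂ ((hc₂ i (p - 1) (by omega) (by omega)).mp h3)
  · by_cases h₂ : c₂ = true
    · refine ⟨fun j => b (σ (n - 1 - j)), fun i hi => hbS _ (by omega), ?_, Or.inr (Or.inr ?_)⟩
      · intro i hi j hj hij
        exact hSq (n - 1 - i) (by omega) (n - 1 - j) (by omega) (by omega)
      · intro p hp hpn
        refine ⟨v (σ (n - 1 - p)), fun i hi => hOt (n - 1 - p) (by omega) (n - 1 - i) (by omega),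
          ?_⟩
        ext i
        constructor
        · rintro ⟨hi, hadj⟩
          by_contra hip
          have hip' : ¬ i < p := hip
          apply hadj
          by_cases h : i = p
          · rw [h]
            by_contra h4
            exact h₁ ((hc₁ (n - 1 - p) (by omega)).mp h4)
          · exact (hc₂ (n - 1 - i) (n - 1 - p) (by omega) (by omega)).mpr h₂
        · intro hi
          have hi' : i < p := hi
          refine ⟨by omega, fun h3 => h₁ ?_⟩
          exact (hc₃ (n - 1 - p) (n - 1 - i) (by omega) (by omega)).mp h3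
    · refine ⟨fun j => b (σ j), hbS, hSq, Or.inr (Or.inl ?_)⟩
      intro e he
      refine ⟨v (σ e), hOt e he, ?_⟩
      ext i
      constructor
      · rintro ⟨hi, hadj⟩
        refine ⟨hi, fun h => hadj ?_⟩
        rw [h]
        by_contra h4
        exact h₁ ((hc₁ e he).mp h4)
      · rintro ⟨hi, hie⟩
        refine ⟨hi, fun h3 => ?_⟩
        rcases lt_or_gt_of_ne hie with h | h
        · exact h₂ ((hc₂ i e h he).mp h3)
        · exact h₁ ((hc₃ e i h hi).mp h3)

end Pool.Agent.MPd439b2.H1
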