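import Pool.Agent.Lib.MP_d439b2_co.H1.Spec1

/-!
# MP_d439b2_co, H1, R3: co-single witnesses
-/

set_option autoImplicit false

namespace Pool.Agent.MPd439b2.H1

open Pool.Agent.MPd439b2 Pool.Agent.MPd439b2.LK

namespace pfR3Aux

/-- a number below `N` different from three given numbers -/
theorem exists_other (N i j k : ℕ) (hN : 6 ≤ N) : ∃ m, m < N ∧ m ≠ i ∧ m ≠ j ∧ m ≠ k := by
  by_contra hcon
  have h : ∀ m, m < N → m = i ∨ m = j ∨ m = k := by
    intro m hm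
    by_contra h1
    exact hcon ⟨m, hm, by tauto, by tauto, by tauto⟩
  have h0 := h 0 (by omega)
  have h1 := h 1 (by omega)
  have h2 := h 2 (by omega)
  have h3 := h 3 (by omega)
  omega

end pfR3Aux

open pfR3Aux in
theorem pfR3 (hM2 : S_M2) (hM3 : S_M3) (hM4 : S_M4) : S_R3 := by
  classical
  intro V G s n hG hn hS hW
  -- the clique
  have hK : CompleteOn G (rg s (n + 1)) := by
    rintro _ ⟨i, hi, rfl⟩ _ ⟨j, hj, rfl⟩ hij
    exact hS i hi j hj (fun h => hij (by rw [h]))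
  have hinj : ∀ i, i < n + 1 → ∀ j, j < n + 1 → i ≠ j → s i ≠ s j :=
    fun i hi j hj hij => (hS i hi j hj hij).ne
  have hmem : ∀ i, i < n + 1 → s i ∈ rg s (n + 1) := fun i hi => ⟨i, hi, rfl⟩
  have hOt : ∀ v, Ot s (n + 1) v → v ∉ rg s (n + 1) := by
    rintro v hv ⟨i, hi, h⟩
    exact hv i hi h
  have nadj : ∀ u w, Ot s (n + 1) u → Ot s (n + 1) w → ∀ i, i < n + 1 → ∀ k, k < n + 1 →
      ¬ G.Adj u (s i) → G.Adj w (s i) → G.Adj u (s k) → ¬ G.Adj w (s k) → ¬ G.Adj u w := by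
    intro u w hu hw i hi k hk h1 h2 h3 h4 h5
    rcases hM3 V G s (n + 1) u w hG.1 hS hu hw h5 with h | h
    · exact (h (show i ∈ Tr G s (n + 1) u from ⟨hi, h1⟩)).2 h2
    · exact (h (show k ∈ Tr G s (n + 1) w from ⟨hk, h4⟩)).2 h3
  -- the witnesses
  have hch : ∀ i, ∃ v, i < n + 1 → Ot s (n + 1) v ∧
      Tr G s (n + 1) v = {j | j < n + 1 ∧ j ≠ i} := by
    intro i
    by_cases hi : i < n + 1
    · obtain ⟨v, hv⟩ := hW i hi
      exact ⟨v, fun _ => hv⟩
    · exact ⟨s 0, fun h => absurd h hi⟩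
  choose v hv using hch
  have hv0 : ∀ i, i < n + 1 → Ot s (n + 1) (v i) := fun i hi => (hv i hi).1
  have hv1 : ∀ i, i < n + 1 → G.Adj (v i) (s i) := by
    intro i hi
    by_contra h
    have h1 : i ∈ Tr G s (n + 1) (v i) := ⟨hi, h⟩
    rw [(hv i hi).2] at h1
    exact h1.2 rfl
  have hv2 : ∀ i, i < n + 1 → ∀ j, j < n + 1 → j ≠ i → ¬ G.Adj (v i) (s j) := by
    intro i hi j hj hij
    have h1 : j ∈ Tr G s (n + 1) (v i) := by
      rw [(hv i hi).2]
      exact ⟨hj, hij⟩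
    exact h1.2
  have hvv : ∀ i, i < n + 1 → ∀ j, j < n + 1 → i ≠ j → ¬ G.Adj (v i) (v j) :=
    fun i hi j hj hij => nadj _ _ (hv0 i hi) (hv0 j hj) j hj i hi (hv2 i hi j hj hij.symm)
      (hv1 j hj) (hv1 i hi) (hv2 j hj i hi hij)
  -- (1)
  have h1 : ∀ w, Ot s (n + 1) w → ∀ i, i < n + 1 → ∀ j, j < n + 1 → ∀ k, k < n + 1 →
      ∀ l, l < n + 1 → i ≠ j → k ≠ l → ¬ G.Adj w (s i) → ¬ G.Adj w (s j) → G.Adj w (s k) →
      G.Adj w (s l) → False := by
    intro w hw i hi j hj k hk l hl hij hkl wi wj wk wl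
    have hki : k ≠ i := fun h => wi (h ▸ wk)
    have hkj : k ≠ j := fun h => wj (h ▸ wk)
    have hli : l ≠ i := fun h => wi (h ▸ wl)
    have h2 : ¬ G.Adj w (v i) := nadj w (v i) hw (hv0 i hi) i hi k hk wi (hv1 i hi) wk
      (hv2 i hi k hk hki)
    have h3 : ¬ G.Adj w (v j) := nadj w (v j) hw (hv0 j hj) j hj k hk wj (hv1 j hj) wk
      (hv2 j hj k hk hkj)
    have h4 := hM4 V G (rg s (n + 1)) (s j) (s l) (s i) (s k) (v j) (v i) w hG hK (hmem j hj)
      (hmem l hl) (hmem i hi) (hmem k hk) (hOt _ (hv0 j hj)) (hOt _ (hv0 i hi)) (hOt _ hw)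
      (hinj k hk l hl hkl) (hv1 j hj) (hv2 j hj i hi hij) (hv2 j hj k hk hkj) (hv1 i hi)
      (hv2 i hi j hj hij.symm) (hv2 i hi l hl hli) (hv2 i hi k hk hki) wl wk wi
      (hvv j hj i hi hij.symm) (fun h => h3 h.symm)
    exact h2 h4.symm
  -- (2)
  have h2 : ∀ w, Ot s (n + 1) w → ∀ i, i < n + 1 → ¬ G.Adj w (s i) →
      (∀ m, m < n + 1 → m ≠ i → G.Adj w (s m)) → ∀ j, j < n + 1 → j ≠ i → G.Adj w (v j) := by
    intro w hw i hi wi wm j hj hji
    by_contra hcon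
    obtain ⟨k, hk, hki, hkj, -⟩ := exists_other (n + 1) i j j (by omega)
    have h3 : ¬ G.Adj w (v i) := nadj w (v i) hw (hv0 i hi) i hi k hk wi (hv1 i hi)
      (wm k hk hki) (hv2 i hi k hk hki)
    have h4 := hM4 V G (rg s (n + 1)) (s j) (s j) (s i) (s k) (v j) (v i) w hG hK (hmem j hj)
      (hmem j hj) (hmem i hi) (hmem k hk) (hOt _ (hv0 j hj)) (hOt _ (hv0 i hi)) (hOt _ hw)
      (hinj k hk j hj hkj) (hv1 j hj) (hv2 j hj i hi hji.symm) (hv2 j hj k hk hkj) (hv1 i hi)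
      (hv2 i hi j hj hji) (hv2 i hi j hj hji) (hv2 i hi k hk hki) (wm j hj hji) (wm k hk hki) wi
      (hvv j hj i hi hji) (fun h => hcon h.symm)
    exact h3 h4.symm
  -- (3)
  have h3 : ∀ w w', Ot s (n + 1) w → Ot s (n + 1) w' → ∀ i, i < n + 1 → ∀ i', i' < n + 1 →
      ¬ G.Adj w (s i) → (∀ m, m < n + 1 → m ≠ i → G.Adj w (s m)) →
      ¬ G.Adj w' (s i') → (∀ m, m < n + 1 → m ≠ i' → G.Adj w' (s m)) → i = i' := by
    intro w w' hw hw' i hi i' hi' wi wm wi' wm'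
    by_contra hii
    obtain ⟨j, hj, hji, hji', -⟩ := exists_other (n + 1) i i' i' (by omega)
    obtain ⟨k, hk, hki, hki', hkj⟩ := exists_other (n + 1) i i' j (by omega)
    have hww : ¬ G.Adj w w' := nadj w w' hw hw' i hi i' hi' wi (wm' i hi hii)
      (wm i' hi' (Ne.symm hii)) wi'
    rcases hM2 V G w (v j) w' (s k) hG.1 (h2 w hw i hi wi wm j hj hji)
      (h2 w' hw' i' hi' wi' wm' j hj hji').symm (wm' k hk hki') (wm k hk hki).symm
      (fun h => wi (by rw [h]; exact wm' i hi hii)) (hv0 j hj k hk) with h | h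
    · exact hww h
    · exact hv2 j hj k hk hkj h
  -- (4)
  obtain ⟨i₀, hi₀, huniq⟩ : ∃ i₀, i₀ < n + 1 ∧ ∀ w, Ot s (n + 1) w → ∀ i, i < n + 1 →
      ¬ G.Adj w (s i) → (∀ m, m < n + 1 → m ≠ i → G.Adj w (s m)) → i = i₀ := by
    by_cases hex : ∃ w i, Ot s (n + 1) w ∧ i < n + 1 ∧ ¬ G.Adj w (s i) ∧
        ∀ m, m < n + 1 → m ≠ i → G.Adj w (s m)
    · obtain ⟨w₀, i₀, hw₀, hi₀, h4, h5⟩ := hex
      exact ⟨i₀, hi₀, fun w hw i hi h6 h7 => h3 w w₀ hw hw₀ i hi i₀ hi₀ h6 h7 h4 h5⟩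
    · exact ⟨0, by omega, fun w hw i hi h6 h7 => absurd ⟨w, i, hw, hi, h6, h7⟩ hex⟩
  obtain ⟨t, ht⟩ : ∃ t : ℕ → ℕ, ∀ i, t i = if i < i₀ then i else i + 1 := ⟨_, fun _ => rfl⟩
  have ht1 : ∀ i, (i < i₀ ∧ t i = i) ∨ (i₀ ≤ i ∧ t i = i + 1) := by
    intro i
    rw [ht]
    by_cases h : i < i₀
    · rw [if_pos h]
      exact Or.inl ⟨h, rfl⟩
    · rw [if_neg h]
      exact Or.inr ⟨by omega, rfl⟩
  have htlt : ∀ i, i < n → t i < n + 1 := by
    intro i hi
    rcases ht1 i with h | h <;> omega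
  have htne : ∀ i, t i ≠ i₀ := by
    intro i
    rcases ht1 i with h | h <;> omega
  have htinj : ∀ i j, t i = t j → i = j := by
    intro i j hij
    rcases ht1 i with h | h <;> rcases ht1 j with h' | h' <;> omega
  have htsur : ∀ m, m < n + 1 → m ≠ i₀ → ∃ i, i < n ∧ t i = m := by
    intro m hm hmi
    by_cases h : m < i₀
    · refine ⟨m, by omega, ?_⟩
      rcases ht1 m with h' | h' <;> omega
    · refine ⟨m - 1, by omega, ?_⟩
      rcases ht1 (m - 1) with h' | h' <;> omega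
  refine ⟨t, ?_, htlt, ?_, ?_⟩
  · intro i j hij hj
    rcases ht1 i with h | h <;> rcases ht1 j with h' | h' <;> omega
  · intro u hu
    by_cases hus : ∃ m, m < n + 1 ∧ u = s m
    · obtain ⟨m, hm, rfl⟩ := hus
      refine Or.inl ?_
      have hmi : m = i₀ := by
        by_contra hmi
        obtain ⟨i, hi, him⟩ := htsur m hm hmi
        exact hu i hi (by show s m = s (t i); rw [him])
      refine Set.eq_empty_of_forall_notMem ?_
      rintro i ⟨hi, h⟩
      exact h (hS m hm (t i) (htlt i hi) (fun h' => htne i (by rw [← h', hmi])))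
    · have hu' : Ot s (n + 1) u := fun i hi h => hus ⟨i, hi, h⟩
      by_cases hmiss : ∃ i j, i < n + 1 ∧ j < n + 1 ∧ i ≠ j ∧ ¬ G.Adj u (s i) ∧ ¬ G.Adj u (s j)
      · obtain ⟨i, j, hi, hj, hij, ui, uj⟩ := hmiss
        refine Or.inr ?_
        by_cases hsee : ∃ e, e < n ∧ G.Adj u (s (t e))
        · obtain ⟨e, he, ue⟩ := hsee
          refine Or.inr ⟨e, he, ?_⟩
          ext k
          constructor
          · rintro ⟨hk, uk⟩
            exact ⟨hk, fun h => uk (by rw [h]; exact ue)⟩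
          · rintro ⟨hk, hke⟩
            refine ⟨hk, fun uk => ?_⟩
            exact h1 u hu' i hi j hj (t k) (htlt k hk) (t e) (htlt e he) hij
              (fun h => hke (htinj _ _ h)) ui uj uk ue
        · refine Or.inl ?_
          ext k
          constructor
          · rintro ⟨hk, -⟩
            exact hk
          · intro hk
            exact ⟨hk, fun uk => hsee ⟨k, hk, uk⟩⟩
      · refine Or.inl ?_
        refine Set.eq_empty_of_forall_notMem ?_
        rintro i ⟨hi, h⟩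
        have h4 := huniq u hu' (t i) (htlt i hi) h (fun m hm hmt => by
          by_contra h5
          exact hmiss ⟨m, t i, hm, htlt i hi, hmt, h5, h⟩)
        exact htne i h4
  · intro e he
    refine ⟨v (t e), fun i hi => hv0 (t e) (htlt e he) (t i) (htlt i hi), ?_⟩
    ext k
    constructor
    · rintro ⟨hk, h⟩
      exact ⟨hk, fun h' => h (by rw [h']; exact hv1 (t e) (htlt e he))⟩
    · rintro ⟨hk, hke⟩
      exact ⟨hk, hv2 (t e) (htlt e he) (t k) (htlt k hk) (fun h => hke (htinj _ _ h))⟩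

end Pool.Agent.MPd439b2.H1
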