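import Pool.Agent.Lib.MP_d439b2_co.H1.Spec1

/-!
# MP_d439b2_co, H1, R4: single witnesses, the missed sets are laminar with one exception
-/

set_option autoImplicit false

namespace Pool.Agent.MPd439b2.H1

open Pool.Agent.MPd439b2 Pool.Agent.MPd439b2.LK

namespace pfR4Aux

/-- a number below `N` different from four given numbers -/
theorem exists_other (N i j k l : ℕ) (hN : 5 ≤ N) :
    ∃ m, m < N ∧ m ≠ i ∧ m ≠ j ∧ m ≠ k ∧ m ≠ l := by
  by_contra hcon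
  have h : ∀ m, m < N → m = i ∨ m = j ∨ m = k ∨ m = l := by
    intro m hm
    by_contra h1
    exact hcon ⟨m, hm, by tauto, by tauto, by tauto, by tauto⟩
  have h0 := h 0 (by omega)
  have h1 := h 1 (by omega)
  have h2 := h 2 (by omega)
  have h3 := h 3 (by omega)
  have h4 := h 4 (by omega)
  omega

variable {V : Type} {G : SimpleGraph V} {s : ℕ → V} {n : ℕ}

theorem nadj (hM3 : S_M3) (hG : Cls1 G) (hS : Sq G s n) {u w : V} (hu : Ot s n u) (hw : Ot s n w)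
    {i k : ℕ} (hi : i < n) (hk : k < n) (h1 : ¬ G.Adj u (s i)) (h2 : G.Adj w (s i))
    (h3 : G.Adj u (s k)) (h4 : ¬ G.Adj w (s k)) : ¬ G.Adj u w := by
  intro h5
  rcases hM3 V G s n u w hG.1 hS hu hw h5 with h | h
  · exact (h (show i ∈ Tr G s n u from ⟨hi, h1⟩)).2 h2
  · exact (h (show k ∈ Tr G s n w from ⟨hk, h4⟩)).2 h3

/-- `v` is a single of index `i` -/
def Sg (G : SimpleGraph V) (s : ℕ → V) (n i : ℕ) (v : V) : Prop :=
  Ot s n v ∧ ¬ G.Adj v (s i) ∧ ∀ m, m < n → m ≠ i → G.Adj v (s m)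

theorem sg_of_Tr {i : ℕ} {v : V} (hv : Ot s n v) (h : Tr G s n v = {i}) : Sg G s n i v := by
  refine ⟨hv, ?_, ?_⟩
  · have h1 : i ∈ Tr G s n v := by
      rw [h]
      rfl
    exact h1.2
  · intro m hm hmi
    by_contra h1
    have h2 : m ∈ Tr G s n v := ⟨hm, h1⟩
    rw [h] at h2
    exact hmi h2

/-- (i) -/
theorem two (hM2 : S_M2) (hM3 : S_M3) (hG : Cls1 G) (hS : Sq G s n) {u v v' : V} {a b c : ℕ}
    (ha : a < n) (hb : b < n) (hc : c < n) (hab : a ≠ b) (hca : c ≠ a) (hcb : c ≠ b)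
    (hu : Ot s n u) (hv : Sg G s n a v) (hv' : Sg G s n b v') (h1 : G.Adj u v) (h2 : G.Adj u v') :
    G.Adj u (s c) := by
  rcases hM2 V G u v (s c) v' hG.1 h1 (hv.2.2 c hc hca) (hv'.2.2 c hc hcb).symm h2.symm
    (hu c hc) (fun h => hv.2.1 (by rw [h]; exact hv'.2.2 a ha hab)) with h | h
  · exact h
  · exact absurd h (nadj hM3 hG hS hv.1 hv'.1 ha hb hv.2.1 (hv'.2.2 a ha hab)
      (hv.2.2 b hb hab.symm) hv'.2.1)

/-- (ii) -/
theorem adj_single (hM3 : S_M3) (hM4 : S_M4) (hG : Cls1 G) (hS : Sq G s n) {u w v : V}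
    {i j r : ℕ} (hi : i < n) (hj : j < n) (hr : r < n) (hu : Ot s n u) (hw : Ot s n w)
    (hv : Sg G s n i v) (ui : ¬ G.Adj u (s i)) (wi : G.Adj w (s i)) (uj : G.Adj u (s j))
    (wj : ¬ G.Adj w (s j)) (ur : ¬ G.Adj u (s r)) (wr : ¬ G.Adj w (s r)) : G.Adj u v := by
  by_contra hcon
  have hK : CompleteOn G (rg s n) := by
    rintro _ ⟨i, hi, rfl⟩ _ ⟨j, hj, rfl⟩ hij
    exact hS i hi j hj (fun h => hij (by rw [h]))
  have hOt : ∀ v, Ot s n v → v ∉ rg s n := by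
    rintro v hv ⟨i, hi, h⟩
    exact hv i hi h
  have hij : j ≠ i := fun h => ui (h ▸ uj)
  have hri : r ≠ i := fun h => wr (h ▸ wi)
  have hrj : r ≠ j := fun h => ur (h ▸ uj)
  have huw : ¬ G.Adj u w := nadj hM3 hG hS hu hw hi hj ui wi uj wj
  have hvw : ¬ G.Adj v w := nadj hM3 hG hS hv.1 hw hi hj hv.2.1 wi (hv.2.2 j hj hij) wj
  exact hvw (hM4 V G (rg s n) (s j) (s j) (s i) (s r) u w v hG hK ⟨j, hj, rfl⟩ ⟨j, hj, rfl⟩
    ⟨i, hi, rfl⟩ ⟨r, hr, rfl⟩ (hOt u hu) (hOt w hw) (hOt v hv.1) (hS r hr j hj hrj).ne uj ui ur wi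
    wj wj wr (hv.2.2 j hj hij) (hv.2.2 r hr hri) hv.2.1 huw hcon).symm

/-- (iii) -/
theorem diff_one (hM2 : S_M2) (hM3 : S_M3) (hM4 : S_M4) (hG : Cls1 G) (hS : Sq G s n)
    (hW : WM G s n) {u w : V} {i j r i' : ℕ} (hi : i < n) (hj : j < n) (hr : r < n) (hi' : i' < n)
    (hu : Ot s n u) (hw : Ot s n w) (ui : ¬ G.Adj u (s i)) (wi : G.Adj w (s i))
    (uj : G.Adj u (s j)) (wj : ¬ G.Adj w (s j)) (ur : ¬ G.Adj u (s r)) (wr : ¬ G.Adj w (s r))
    (ui' : ¬ G.Adj u (s i')) (wi' : G.Adj w (s i')) : i' = i := by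
  by_contra hne
  obtain ⟨v, hv, hv'⟩ := hW i hi
  obtain ⟨z, hz, hz'⟩ := hW i' hi'
  have h1 := adj_single hM3 hM4 hG hS hi hj hr hu hw (sg_of_Tr hv hv') ui wi uj wj ur wr
  have h2 := adj_single hM3 hM4 hG hS hi' hj hr hu hw (sg_of_Tr hz hz') ui' wi' uj wj ur wr
  exact ur (two hM2 hM3 hG hS hi hi' hr (Ne.symm hne) (fun h => wr (by rw [h]; exact wi))
    (fun h => wr (by rw [h]; exact wi')) hu (sg_of_Tr hv hv') (sg_of_Tr hz hz') h1 h2)

/-- a single of an index which is neither `i` nor `r` is not adjacent to `u` -/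
theorem nadj_single (hM2 : S_M2) (hM3 : S_M3) (hM4 : S_M4) (hG : Cls1 G) (hS : Sq G s n)
    (hW : WM G s n) {u w v : V} {i j r k : ℕ} (hi : i < n) (hj : j < n) (hr : r < n) (hk : k < n)
    (hu : Ot s n u) (hw : Ot s n w) (ui : ¬ G.Adj u (s i)) (wi : G.Adj w (s i))
    (uj : G.Adj u (s j)) (wj : ¬ G.Adj w (s j)) (ur : ¬ G.Adj u (s r)) (wr : ¬ G.Adj w (s r))
    (hki : k ≠ i) (hkr : k ≠ r) (hv : Sg G s n k v) : ¬ G.Adj u v := by
  intro huv
  by_cases hk' : G.Adj u (s k)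
  · exact nadj hM3 hG hS hv.1 hu hk hi hv.2.1 hk' (hv.2.2 i hi hki.symm) ui huv.symm
  · obtain ⟨z, hz, hz'⟩ := hW i hi
    have h1 := adj_single hM3 hM4 hG hS hi hj hr hu hw (sg_of_Tr hz hz') ui wi uj wj ur wr
    exact ur (two hM2 hM3 hG hS hi hk hr hki.symm (fun h => wr (by rw [h]; exact wi)) hkr.symm hu
      (sg_of_Tr hz hz') hv h1 huv)

end pfR4Aux

open pfR4Aux in
theorem pfR4 (hM1 : S_M1) (hM2 : S_M2) (hM3 : S_M3) (hM4 : S_M4) : S_R4 := by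
  intro V G s n hG hn hS hW u hu w hw
  by_cases h1 : Tr G s n u ⊆ Tr G s n w
  · exact Or.inl h1
  by_cases h2 : Tr G s n w ⊆ Tr G s n u
  · exact Or.inr (Or.inl h2)
  by_cases h3 : Disjoint (Tr G s n u) (Tr G s n w)
  · exact Or.inr (Or.inr (Or.inl h3))
  refine Or.inr (Or.inr (Or.inr ?_))
  rw [Set.not_subset] at h1 h2
  rw [Set.not_disjoint_iff] at h3
  obtain ⟨i, ⟨hi, ui⟩, wi'⟩ := h1
  obtain ⟨j, ⟨hj, wj⟩, uj'⟩ := h2
  obtain ⟨r, ⟨hr, ur⟩, ⟨-, wr⟩⟩ := h3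
  have wi : G.Adj w (s i) := by
    by_contra h
    exact wi' ⟨hi, h⟩
  have uj : G.Adj u (s j) := by
    by_contra h
    exact uj' ⟨hj, h⟩
  have hij : i ≠ j := fun h => ui (by rw [h]; exact uj)
  have hir : i ≠ r := fun h => wr (by rw [← h]; exact wi)
  have hjr : j ≠ r := fun h => ur (by rw [← h]; exact uj)
  -- (iii)
  have hiii : ∀ c, c < n → ¬ G.Adj u (s c) → G.Adj w (s c) → c = i := fun c hc uc wc =>
    diff_one hM2 hM3 hM4 hG hS hW hi hj hr hc hu hw ui wi uj wj ur wr uc wc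
  have hiii' : ∀ c, c < n → ¬ G.Adj w (s c) → G.Adj u (s c) → c = j := fun c hc wc uc =>
    diff_one hM2 hM3 hM4 hG hS hW hj hi hr hc hw hu wj uj wi ui wr ur wc uc
  -- (iv)
  have hiv : ∀ c, c < n → ¬ G.Adj u (s c) → ¬ G.Adj w (s c) → c = r := by
    intro c hc uc wc
    by_contra hcr
    obtain ⟨k, hk, hki, hkj, hkr, hkc⟩ := exists_other n i j r c hn
    obtain ⟨v, hv, hv'⟩ := hW i hi
    obtain ⟨z, hz, hz'⟩ := hW k hk
    have hvs := sg_of_Tr hv hv'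
    have hzs := sg_of_Tr hz hz'
    have hci : c ≠ i := fun h => wc (by rw [h]; exact wi)
    have uz := nadj_single hM2 hM3 hM4 hG hS hW hi hj hr hk hu hw ui wi uj wj ur wr hki hkr hzs
    have wz := nadj_single hM2 hM3 hM4 hG hS hW hj hi hr hk hw hu wj uj wi ui wr ur hkj hkr hzs
    have uv := adj_single hM3 hM4 hG hS hi hj hr hu hw hvs ui wi uj wj ur wr
    have huw : ¬ G.Adj u w := nadj hM3 hG hS hu hw hi hj ui wi uj wj
    have hvw : ¬ G.Adj v w := nadj hM3 hG hS hv hw hi hj hvs.2.1 wi (hvs.2.2 j hj hij.symm) wj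
    have hzv : ¬ G.Adj z v := nadj hM3 hG hS hz hv hk hi hzs.2.1 (hvs.2.2 k hk hki)
      (hzs.2.2 i hi hki.symm) hvs.2.1
    exact hG.2 (hM1 V G (s r) (s i) v (s c) w u z (Or.inr (hS r hr i hi hir.symm))
      (Or.inl (hvs.2.2 r hr hir.symm)) (Or.inl (hS c hc r hr hcr)) (hvs.2.2 c hc hci)
      (hS c hc r hr hcr).ne (hS c hc i hi hci).ne (hw r hr) (hw i hi) (hz r hr) (hz i hi)
      (Or.inr wi) (fun h => hvw h.symm) wc uv ur ui uc (Or.inl (hzs.2.2 r hr hkr.symm))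
      (hzs.2.2 c hc hkc.symm) hzv (fun h => huw h.symm) wz uz)
  refine ⟨i, j, r, hij, hir, hjr, ?_, ?_, ?_, ?_⟩
  · ext c
    constructor
    · rintro ⟨hc, uc⟩
      by_cases wc : G.Adj w (s c)
      · exact Or.inl (hiii c hc uc wc)
      · exact Or.inr (hiv c hc uc wc)
    · rintro (rfl | rfl)
      · exact ⟨hi, ui⟩
      · exact ⟨hr, ur⟩
  · ext c
    constructor
    · rintro ⟨hc, wc⟩
      by_cases uc : G.Adj u (s c)
      · exact Or.inl (hiii' c hc wc uc)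
      · exact Or.inr (hiv c hc uc wc)
    · rintro (rfl | rfl)
      · exact ⟨hj, wj⟩
      · exact ⟨hr, wr⟩
  · intro v hv hv'
    exact adj_single hM3 hM4 hG hS hi hj hr hu hw (sg_of_Tr hv hv') ui wi uj wj ur wr
  · intro v hv hv'
    exact adj_single hM3 hM4 hG hS hj hi hr hw hu (sg_of_Tr hv hv') wj uj wi ui wr ur

end Pool.Agent.MPd439b2.H1
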