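import Pool.Agent.Lib.MP_d439b2_co.H1.Spec1

/-!
# MP_d439b2_co, H1, R5: single witnesses, laminar missed sets by Ramsey
-/

set_option autoImplicit false

namespace Pool.Agent.MPd439b2.H1

open Pool.Agent.MPd439b2 Pool.Agent.MPd439b2.LK

namespace r5Aux

variable {V : Type} {G : SimpleGraph V} {s : ℕ → V} {n : ℕ}

theorem adj_of {v : V} {i : ℕ} (hi : i < n) (h : i ∉ Tr G s n v) : G.Adj v (s i) := by
  by_contra h'
  exact h ⟨hi, h'⟩

theorem nadj_of {v : V} {i : ℕ} (h : i ∈ Tr G s n v) : ¬ G.Adj v (s i) := h.2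

theorem nadj (h3 : S_M3) (hC : Cls1 G) (hS : Sq G s n) {u v : V} (hu : Ot s n u) (hv : Ot s n v)
    {x y : ℕ} (h1 : x ∈ Tr G s n u) (h2 : x ∉ Tr G s n v) (h4 : y ∈ Tr G s n v)
    (h5 : y ∉ Tr G s n u) : ¬ G.Adj u v := by
  intro h
  rcases h3 V G s n u v hC.1 hS hu hv h with h6 | h6
  · exact h2 (h6 h1)
  · exact h5 (h6 h4)

/-- the consequence of R4 which is used -/
theorem exc (h4 : S_R4) (hC : Cls1 G) (hn : 5 ≤ n) (hS : Sq G s n) (hW : WM G s n) {u w v : V}
    (hu : Ot s n u) (hw : Ot s n w) (hv : Ot s n v) {x y r : ℕ} (hxy : x ≠ y) (hxr : x ≠ r)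
    (hyr : y ≠ r) (h1 : Tr G s n u = {x, r}) (h2 : Tr G s n w = {y, r})
    (h3 : Tr G s n v = {x}) : G.Adj u v := by
  rcases h4 V G s n hC hn hS hW u hu w hw with h5 | h5 | h5 | ⟨i, j, r', hij, hir, hjr, e1, e2, h5, -⟩
  · rw [h1, h2] at h5
    rcases h5 (Or.inl rfl) with h6 | h6
    · exact absurd h6 hxy
    · exact absurd h6 hxr
  · rw [h1, h2] at h5
    rcases h5 (Or.inl rfl) with h6 | h6
    · exact absurd h6.symm hxy
    · exact absurd h6 hyr
  · rw [h1, h2, Set.disjoint_left] at h5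
    exact absurd (Or.inr rfl) (h5 (Or.inr rfl : r ∈ ({x, r} : Set ℕ)))
  · refine h5 v hv ?_
    rw [h3]
    have h6 : i ∈ ({x, r} : Set ℕ) := by
      rw [← h1, e1]
      exact Or.inl rfl
    rcases h6 with h6 | h6
    · rw [h6]
    · exfalso
      have h7 : r ∈ ({j, r'} : Set ℕ) := by
        rw [← e2, h2]
        exact Or.inr rfl
      rcases h7 with h7 | h7
      · exact hij (Eq.trans h6 h7)
      · exact hir (Eq.trans h6 h7)

/-- the colour true is impossible -/
theorem no_pairs (h1 : S_M1) (h3 : S_M3) (h4 : S_R4) (hC : Cls1 G) (hn : 5 ≤ n) (hS : Sq G s n)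
    (hW : WM G s n) {i j k l : ℕ} (hi : i < n) (hj : j < n) (hk : k < n) (hl : l < n)
    (hij : i ≠ j) (hik : i ≠ k) (hil : i ≠ l) (hjk : j ≠ k) (hjl : j ≠ l) (hkl : k ≠ l)
    {uik uil ukl : V} (o1 : Ot s n uik) (o2 : Ot s n uil) (o3 : Ot s n ukl)
    (t1 : Tr G s n uik = {i, k}) (t2 : Tr G s n uil = {i, l}) (t3 : Tr G s n ukl = {k, l}) :
    False := by
  obtain ⟨vi, oi, ti⟩ := hW i hi
  obtain ⟨vj, oj, tj⟩ := hW j hj
  obtain ⟨vl, ol, tl⟩ := hW l hl
  have t1' : Tr G s n uik = {k, i} := by rw [t1, Set.pair_comm]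
  have t2' : Tr G s n uil = {l, i} := by rw [t2, Set.pair_comm]
  have t3' : Tr G s n ukl = {l, k} := by rw [t3, Set.pair_comm]
  have e1 : G.Adj uik vi := exc h4 hC hn hS hW o1 o3 oi hil hik hkl.symm t1 t3' ti
  have e2 : G.Adj uil vi := exc h4 hC hn hS hW o2 o3 oi hik hil hkl t2 t3 ti
  have e3 : G.Adj uil vl := exc h4 hC hn hS hW o2 o1 ol hkl.symm hil.symm hik.symm t2' t1' tl
  refine hC.2 (h1 V G (s k) (s k) vi uil vj uik vl (Or.inl rfl) ?_ ?_ e2.symm (o2 k hk) (o2 k hk)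
    (oj k hk) (oj k hk) (ol k hk) (ol k hk) ?_ ?_ ?_ e1 ?_ ?_ ?_ ?_ e3.symm ?_ ?_ ?_ ?_)
  · refine Or.inl (adj_of hk ?_)
    rw [ti]
    exact fun h => hik (Eq.symm h)
  · refine Or.inl (adj_of hk ?_)
    rw [t2]
    rintro (h | h)
    · exact hik h.symm
    · exact hkl h
  · refine Or.inl (adj_of hk ?_)
    rw [tj]
    exact fun h => hjk (Eq.symm h)
  · refine nadj h3 hC hS oj oi (x := j) (y := i) ?_ ?_ ?_ ?_
    · rw [tj]; rfl
    · rw [ti]; exact fun h => hij (Eq.symm h)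
    · rw [ti]; rfl
    · rw [tj]; exact fun h => hij h
  · refine nadj h3 hC hS oj o2 (x := j) (y := i) ?_ ?_ ?_ ?_
    · rw [tj]; rfl
    · rw [t2]
      rintro (h | h)
      · exact hij h.symm
      · exact hjl h
    · rw [t2]; exact Or.inl rfl
    · rw [tj]; exact fun h => hij h
  · exact nadj_of (by rw [t1]; exact Or.inr rfl)
  · exact nadj_of (by rw [t1]; exact Or.inr rfl)
  · refine nadj h3 hC hS o1 o2 (x := k) (y := l) ?_ ?_ ?_ ?_
    · rw [t1]; exact Or.inr rfl
    · rw [t2]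
      rintro (h | h)
      · exact hik h.symm
      · exact hkl h
    · rw [t2]; exact Or.inr rfl
    · rw [t1]
      rintro (h | h)
      · exact hil h.symm
      · exact hkl h.symm
  · refine Or.inl (adj_of hk ?_)
    rw [tl]
    exact fun h => hkl h
  · refine nadj h3 hC hS ol oi (x := l) (y := i) ?_ ?_ ?_ ?_
    · rw [tl]; rfl
    · rw [ti]; exact fun h => hil (Eq.symm h)
    · rw [ti]; rfl
    · rw [tl]; exact fun h => hil h
  · refine nadj h3 hC hS oj o1 (x := j) (y := i) ?_ ?_ ?_ ?_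
    · rw [tj]; rfl
    · rw [t1]
      rintro (h | h)
      · exact hij h.symm
      · exact hjk h
    · rw [t1]; exact Or.inl rfl
    · rw [tj]; exact fun h => hij h
  · refine nadj h3 hC hS oj ol (x := j) (y := l) ?_ ?_ ?_ ?_
    · rw [tj]; rfl
    · rw [tl]; exact fun h => hjl h
    · rw [tl]; rfl
    · rw [tj]; exact fun h => hjl (Eq.symm h)
  · refine nadj h3 hC hS o1 ol (x := i) (y := l) ?_ ?_ ?_ ?_
    · rw [t1]; exact Or.inl rfl
    · rw [tl]; exact fun h => hil h
    · rw [tl]; rfl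
    · rw [t1]
      rintro (h | h)
      · exact hil h.symm
      · exact hkl h.symm

theorem tr_comp {t : ℕ → ℕ} {n' : ℕ} (ht : ∀ i, i < n' → t i < n) (u : V) :
    Tr G (fun i => s (t i)) n' u = {i | i < n' ∧ t i ∈ Tr G s n u} := by
  ext i
  constructor
  · rintro ⟨h1, h2⟩
    exact ⟨h1, ht i h1, h2⟩
  · rintro ⟨h1, -, h2⟩
    exact ⟨h1, h2⟩

end r5Aux

open r5Aux in
theorem pfR5 (h1 : S_M1) (h3 : S_M3) (h4 : S_R4) (hP : S_RP) : S_R5 := by
  classical
  intro n'
  obtain ⟨N, hN⟩ := hP Bool (max n' 5)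
  refine ⟨max N 5, fun V G s hC hS hW => ?_⟩
  obtain ⟨t, c, ht1, ht2, ht3⟩ := hN fun a b =>
    decide (∃ u, Ot s (max N 5) u ∧ Tr G s (max N 5) u = {a, b})
  have hn : 5 ≤ max N 5 := le_max_right _ _
  have hlt : ∀ i, i < max n' 5 → t i < max N 5 := fun i hi =>
    lt_of_lt_of_le (ht2 i hi) (le_max_left _ _)
  have h5 : 5 ≤ max n' 5 := le_max_right _ _
  have hinj : ∀ i, i < max n' 5 → ∀ j, j < max n' 5 → t i = t j → i = j := by
    intro i hi j hj h
    rcases lt_trichotomy i j with h6 | h6 | h6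
    · exact absurd h (ht1 i j h6 hj).ne
    · exact h6
    · exact absurd h (ht1 j i h6 hi).ne'
  generalize hM : max N 5 = n at *
  -- the colour
  rcases c with _ | _
  swap
  · exfalso
    have key : ∀ a b, a < b → b < max n' 5 → ∃ u, Ot s n u ∧ Tr G s n u = {t a, t b} :=
      fun a b hab hb => of_decide_eq_true (ht3 a b hab hb)
    obtain ⟨u1, o1, e1⟩ := key 0 2 (by omega) (by omega)
    obtain ⟨u2, o2, e2⟩ := key 0 3 (by omega) (by omega)
    obtain ⟨u3, o3, e3⟩ := key 2 3 (by omega) (by omega)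
    have ne : ∀ i j, i < j → j < 5 → t i ≠ t j := fun i j hij hj =>
      (ht1 i j hij (by omega)).ne
    exact no_pairs h1 h3 h4 hC hn hS hW (hlt 0 (by omega)) (hlt 1 (by omega)) (hlt 2 (by omega))
      (hlt 3 (by omega)) (ne 0 1 (by omega) (by omega)) (ne 0 2 (by omega) (by omega))
      (ne 0 3 (by omega) (by omega)) (ne 1 2 (by omega) (by omega)) (ne 1 3 (by omega) (by omega))
      (ne 2 3 (by omega) (by omega)) o1 o2 o3 e1 e2 e3
  have key : ∀ a b, a ≠ b → a < max n' 5 → b < max n' 5 → ∀ u, Ot s n u →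
      Tr G s n u ≠ {t a, t b} := by
    have key' : ∀ a b, a < b → b < max n' 5 → ∀ u, Ot s n u → Tr G s n u ≠ {t a, t b} :=
      fun a b hab hb u hu he => of_decide_eq_false (ht3 a b hab hb) ⟨u, hu, he⟩
    intro a b hab ha hb u hu he
    rcases lt_or_gt_of_ne hab with h6 | h6
    · exact key' a b h6 hb u hu he
    · exact key' b a h6 ha u hu (by rw [he, Set.pair_comm])
  have hn' : ∀ i, i < n' → i < max n' 5 := fun i hi => lt_of_lt_of_le hi (le_max_left _ _)
  have hlt' : ∀ i, i < n' → t i < n := fun i hi => hlt i (hn' i hi)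
  refine ⟨t, fun i j hij hj => ht1 i j hij (hn' j hj), hlt', ?_, ?_⟩
  · intro e he
    obtain ⟨v, hv, hv'⟩ := hW (t e) (hlt' e he)
    refine ⟨v, fun i hi => hv (t i) (hlt' i hi), ?_⟩
    rw [tr_comp hlt', hv']
    ext i
    constructor
    · rintro ⟨h6, h7⟩
      exact hinj i (hn' i h6) e (hn' e he) h7
    · intro h6
      have h7 : i = e := h6
      subst h7
      exact ⟨he, rfl⟩
  · have out : ∀ u, Ot (fun i => s (t i)) n' u → Ot s n u ∨ Tr G (fun i => s (t i)) n' u = ∅ := by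
      intro u hu
      by_cases h6 : Ot s n u
      · exact Or.inl h6
      · right
        simp only [Ot, not_forall, not_not] at h6
        obtain ⟨j, hj, rfl⟩ := h6
        rw [Set.eq_empty_iff_forall_notMem]
        rintro i ⟨hi, h7⟩
        apply h7
        apply hS j hj (t i) (hlt' i hi)
        rintro rfl
        exact hu i hi rfl
    intro u hu w hw
    rcases out u hu with hu' | hu'
    swap
    · rw [hu']
      exact Or.inl (Set.empty_subset _)
    rcases out w hw with hw' | hw'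
    swap
    · rw [hw']
      exact Or.inr (Or.inl (Set.empty_subset _))
    rw [tr_comp hlt', tr_comp hlt']
    rcases h4 V G s n hC hn hS hW u hu' w hw' with h6 | h6 | h6 |
      ⟨i, j, r, hij, hir, hjr, e1, e2, -, -⟩
    · exact Or.inl fun x hx => ⟨hx.1, h6 hx.2⟩
    · exact Or.inr (Or.inl fun x hx => ⟨hx.1, h6 hx.2⟩)
    · right
      right
      rw [Set.disjoint_left] at h6 ⊢
      exact fun x hx hx' => h6 hx.2 hx'.2
    · by_cases hr : ∃ d, d < n' ∧ r = t d
      · obtain ⟨d, hd, rfl⟩ := hr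
        left
        rintro x ⟨hx, hx'⟩
        refine ⟨hx, ?_⟩
        rw [e1] at hx'
        rw [e2]
        rcases hx' with h7 | h7
        · exfalso
          refine key x d ?_ (hn' x hx) (hn' d hd) u hu' (by rw [e1, h7])
          rintro rfl
          exact hir h7.symm
        · exact Or.inr h7
      · right
        right
        rw [Set.disjoint_left]
        rintro x ⟨hx, h7⟩ ⟨-, h8⟩
        rw [e1] at h7
        rw [e2] at h8
        rcases h7 with h7 | h7
        · rcases h8 with h8 | h8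
          · exact hij (h7.symm.trans h8)
          · exact hr ⟨x, hx, h8.symm⟩
        · exact hr ⟨x, hx, h7.symm⟩

end Pool.Agent.MPd439b2.H1
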