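import Pool.Agent.Lib.MP_d439b2_co.H1.Spec1

/-!
# MP_d439b2_co, H1, R6: from laminar missed sets to the types (M) and (CH) with singletons
-/

set_option autoImplicit false

namespace Pool.Agent.MPd439b2.H1

open Pool.Agent.MPd439b2 Pool.Agent.MPd439b2.LK

namespace R6Aux

variable {V : Type} {G : SimpleGraph V}

private def P011 (G : SimpleGraph V) (s : ℕ → V) (n a b c : ℕ) : Prop :=
  ∃ v, Ot s n v ∧ G.Adj v (s a) ∧ ¬ G.Adj v (s b) ∧ ¬ G.Adj v (s c)

private def P101 (G : SimpleGraph V) (s : ℕ → V) (n a b c : ℕ) : Prop :=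
  ∃ v, Ot s n v ∧ ¬ G.Adj v (s a) ∧ G.Adj v (s b) ∧ ¬ G.Adj v (s c)

private def P110 (G : SimpleGraph V) (s : ℕ → V) (n a b c : ℕ) : Prop :=
  ∃ v, Ot s n v ∧ ¬ G.Adj v (s a) ∧ ¬ G.Adj v (s b) ∧ G.Adj v (s c)

private theorem out {s t' : ℕ → V} {t : ℕ → ℕ} {n L : ℕ} (hS : Sq G s n) (ht : ∀ i, i < L → t i < n)
    (ht' : t' = fun i => s (t i)) {v : V} (hv : Ot t' L v) {b : ℕ} (hb : b < L)
    (hvb : ¬ G.Adj v (t' b)) : Ot s n v := by
  intro j hj he
  subst ht'
  by_cases hjb : j = t b
  · exact hv b hb (by rw [he, hjb])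
  · apply hvb
    rw [he]
    exact hS j hj (t b) (ht b hb) hjb

private theorem out' {s t' : ℕ → V} {t : ℕ → ℕ} {n L : ℕ} (ht : ∀ i, i < L → t i < n)
    (ht' : t' = fun i => s (t i)) {v : V} (hv : Ot s n v) : Ot t' L v := by
  subst ht'
  intro i hi
  exact hv (t i) (ht i hi)

/-- missed sets with two elements are initial segments -/
private theorem two_init {s : ℕ → V} {L : ℕ} {v : V}
    (h011 : ∀ a b c, a < b → b < c → c < L →
      ¬ (G.Adj v (s a) ∧ ¬ G.Adj v (s b) ∧ ¬ G.Adj v (s c)))
    (h101 : ∀ a b c, a < b → b < c → c < L →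
      ¬ (¬ G.Adj v (s a) ∧ G.Adj v (s b) ∧ ¬ G.Adj v (s c)))
    {a b : ℕ} (hab : a < b) (hb : b < L) (ha1 : ¬ G.Adj v (s a)) (hb1 : ¬ G.Adj v (s b)) :
    ∃ p ≤ L, Tr G s L v = {i | i < p} := by
  classical
  obtain ⟨M, hM, hmax⟩ : ∃ M, (M < L ∧ ¬ G.Adj v (s M)) ∧ ∀ x, (x < L ∧ ¬ G.Adj v (s x)) → x ≤ M := by
    have h1 : ((Finset.range L).filter fun x => ¬ G.Adj v (s x)).Nonempty :=
      ⟨b, by rw [Finset.mem_filter, Finset.mem_range]; exact ⟨hb, hb1⟩⟩
    refine ⟨((Finset.range L).filter fun x => ¬ G.Adj v (s x)).max' h1, ?_, fun x hx => ?_⟩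
    · have h2 := Finset.max'_mem _ h1
      rw [Finset.mem_filter, Finset.mem_range] at h2
      exact h2
    · refine Finset.le_max' _ x ?_
      rw [Finset.mem_filter, Finset.mem_range]
      exact hx
  have hbM := hmax b ⟨hb, hb1⟩
  refine ⟨M + 1, by omega, ?_⟩
  ext i
  constructor
  · intro hi
    have h1 := hmax i hi
    show i < M + 1
    omega
  · intro hi
    have hi' : i < M + 1 := hi
    refine ⟨by omega, fun hadj => ?_⟩
    have hiM : i ≠ M := fun h => hM.2 (h ▸ hadj)
    have hia : i ≠ a := fun h => ha1 (h ▸ hadj)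
    rcases Nat.lt_or_ge i a with h | h
    · exact h011 i a M h (by omega) hM.1 ⟨hadj, ha1, hM.2⟩
    · exact h101 a i M (by omega) (by omega) hM.1 ⟨ha1, hadj, hM.2⟩

private theorem onlyIS {s : ℕ → V} {L : ℕ} (hWM : WM G s L)
    (h011 : ∀ a b c, a < b → b < c → c < L → ¬ P011 G s L a b c)
    (h101 : ∀ a b c, a < b → b < c → c < L → ¬ P101 G s L a b c)
    (h110 : ∀ a b c, a < b → b < c → c < L → P110 G s L a b c) : TyIS G s L := by
  have key : ∀ v, Ot s L v → ∀ a b, a < b → b < L → ¬ G.Adj v (s a) → ¬ G.Adj v (s b) →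
      ∃ p ≤ L, Tr G s L v = {i | i < p} := by
    intro v hv a b hab hb ha1 hb1
    exact two_init (fun a b c h1 h2 h3 h4 => h011 a b c h1 h2 h3 ⟨v, hv, h4⟩)
      (fun a b c h1 h2 h3 h4 => h101 a b c h1 h2 h3 ⟨v, hv, h4⟩) hab hb ha1 hb1
  refine ⟨?_, ?_, hWM⟩
  · intro v hv
    by_cases h1 : ∃ e, e < L ∧ ¬ G.Adj v (s e)
    · obtain ⟨e, he, he1⟩ := h1
      by_cases h2 : ∃ f, f < L ∧ f ≠ e ∧ ¬ G.Adj v (s f)
      · obtain ⟨f, hf, hfe, hf1⟩ := h2
        left
        rcases lt_or_gt_of_ne hfe with h | h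
        · exact key v hv f e h he hf1 he1
        · exact key v hv e f h hf he1 hf1
      · right
        refine ⟨e, he, ?_⟩
        ext i
        constructor
        · intro hi
          by_contra hie
          exact h2 ⟨i, hi.1, hie, hi.2⟩
        · intro hi
          have hi' : i = e := hi
          rw [hi']
          exact ⟨he, he1⟩
    · left
      refine ⟨0, Nat.zero_le L, ?_⟩
      ext i
      constructor
      · intro hi
        exact absurd ⟨i, hi.1, hi.2⟩ h1
      · intro hi
        exact absurd hi (Nat.not_lt_zero i)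
  · intro p hp hpL
    rcases Nat.lt_or_ge p 2 with h | h
    · have hp1 : p = 1 := by omega
      subst hp1
      obtain ⟨v, hv, hv1⟩ := hWM 0 (by omega)
      refine ⟨v, hv, ?_⟩
      rw [hv1]
      ext i
      constructor
      · intro hi
        have hi' : i = 0 := hi
        show i < 1
        omega
      · intro hi
        have hi' : i < 1 := hi
        show i = 0
        omega
    · obtain ⟨v, hv, h0, h1, h2⟩ := h110 0 (p - 1) p (by omega) (by omega) hpL
      obtain ⟨q, hq, hvq⟩ := key v hv 0 (p - 1) (by omega) (by omega) h0 h1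
      refine ⟨v, hv, ?_⟩
      have e1 : p - 1 < q := by
        have : p - 1 ∈ Tr G s L v := ⟨by omega, h1⟩
        rw [hvq] at this
        exact this
      have e2 : ¬ p < q := by
        intro h3
        have : p ∈ Tr G s L v := by
          rw [hvq]
          exact h3
        exact this.2 h2
      have e3 : q = p := by omega
      rw [hvq, e3]

/-- restriction to the first indices -/
private theorem tr_restr {s : ℕ → V} {L n : ℕ} (hS : Sq G s L) (hn : n ≤ L) {v : V}
    (hv : Ot s n v) : (Ot s L v ∧ ∀ i, (i ∈ Tr G s n v ↔ i ∈ Tr G s L v ∧ i < n)) ∨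
      Tr G s n v = ∅ := by
  by_cases h : Ot s L v
  · left
    refine ⟨h, fun i => ⟨fun hi => ⟨⟨by have := hi.1; omega, hi.2⟩, hi.1⟩, fun hi => ⟨hi.2, hi.1.2⟩⟩⟩
  · right
    unfold Ot at h
    push Not at h
    obtain ⟨j, hj, hj'⟩ := h
    rw [Set.eq_empty_iff_forall_notMem]
    intro i hi
    apply hi.2
    rw [hj']
    refine hS j hj i (by have := hi.1; omega) (fun he => ?_)
    exact hv i hi.1 (he ▸ hj')

private theorem wm_restr {s : ℕ → V} {L n : ℕ} (hn : n ≤ L) (h : WM G s L) : WM G s n := by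
  intro e he
  obtain ⟨v, hv, hv1⟩ := h e (by omega)
  refine ⟨v, fun i hi => hv i (by omega), ?_⟩
  ext i
  constructor
  · intro hi
    rw [← hv1]
    exact ⟨by have := hi.1; omega, hi.2⟩
  · intro hi
    rw [← hv1] at hi
    have h1 : i ∈ ({e} : Set ℕ) := hv1 ▸ hi
    have h2 : i = e := h1
    exact ⟨by omega, hi.2⟩

private theorem tyM_restr {s : ℕ → V} {L n : ℕ} (hS : Sq G s L) (hn : n ≤ L) (h : TyM G s L) :
    TyM G s n := by
  refine ⟨?_, wm_restr hn h.2⟩
  intro v hv
  rcases tr_restr hS hn hv with ⟨h1, h2⟩ | h1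
  · rcases h.1 v h1 with h3 | h3 | ⟨e, he, h3⟩
    · left
      rw [Set.eq_empty_iff_forall_notMem]
      intro i hi
      have := ((h2 i).1 hi).1
      rw [h3] at this
      exact this
    · right; left
      ext i
      rw [h2, h3]
      constructor
      · intro hi; exact hi.2
      · intro hi
        have hi' : i < n := hi
        exact ⟨show i < L by omega, hi'⟩
    · by_cases hen : e < n
      · right; right
        refine ⟨e, hen, ?_⟩
        ext i
        rw [h2, h3]
        constructor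
        · intro hi; exact hi.1
        · intro hi
          have hi' : i = e := hi
          exact ⟨hi, by omega⟩
      · left
        rw [Set.eq_empty_iff_forall_notMem]
        intro i hi
        have h4 := (h2 i).1 hi
        rw [h3] at h4
        have h5 : i = e := h4.1
        exact hen (h5 ▸ h4.2)
  · exact Or.inl h1

private theorem tyIS_restr {s : ℕ → V} {L n : ℕ} (hS : Sq G s L) (hn : n ≤ L) (h : TyIS G s L) :
    TyIS G s n := by
  refine ⟨?_, ?_, wm_restr hn h.2.2⟩
  · intro v hv
    have hempty : Tr G s n v = ∅ → (∃ p, p ≤ n ∧ Tr G s n v = {i | i < p}) := by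
      intro h1
      refine ⟨0, Nat.zero_le n, ?_⟩
      rw [h1]
      ext i
      constructor
      · intro hi; exact absurd hi (Set.notMem_empty i)
      · intro hi; exact absurd hi (Nat.not_lt_zero i)
    rcases tr_restr hS hn hv with ⟨h1, h2⟩ | h1
    · rcases h.1 v h1 with ⟨p, hp, h3⟩ | ⟨e, he, h3⟩
      · left
        refine ⟨min p n, Nat.min_le_right p n, ?_⟩
        ext i
        rw [h2, h3]
        show i < p ∧ i < n ↔ i < min p n
        omega
      · by_cases hen : e < n
        · right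
          refine ⟨e, hen, ?_⟩
          ext i
          rw [h2, h3]
          constructor
          · intro hi; exact hi.1
          · intro hi
            have hi' : i = e := hi
            exact ⟨hi, by omega⟩
        · left
          apply hempty
          rw [Set.eq_empty_iff_forall_notMem]
          intro i hi
          have h4 := (h2 i).1 hi
          rw [h3] at h4
          have h5 : i = e := h4.1
          exact hen (h5 ▸ h4.2)
    · exact Or.inl (hempty h1)
  · intro p hp hpn
    obtain ⟨v, hv, hv1⟩ := h.2.1 p hp (by omega)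
    refine ⟨v, fun i hi => hv i (by omega), ?_⟩
    ext i
    constructor
    · intro hi
      rw [← hv1]
      exact ⟨by have := hi.1; omega, hi.2⟩
    · intro hi
      have h1 : i < p := hi
      rw [← hv1] at hi
      exact ⟨by omega, hi.2⟩

/-- the reversed sequence -/
private theorem rev_IS {s : ℕ → V} {L : ℕ} (hWM : WM G s L)
    (h110 : ∀ a b c, a < b → b < c → c < L → ¬ P110 G s L a b c)
    (h101 : ∀ a b c, a < b → b < c → c < L → ¬ P101 G s L a b c)
    (h011 : ∀ a b c, a < b → b < c → c < L → P011 G s L a b c) :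
    TyIS G (fun i => s (L - 1 - i)) L := by
  have ho : ∀ v, Ot (fun i => s (L - 1 - i)) L v ↔ Ot s L v := by
    intro v
    constructor
    · intro h i hi
      have h1 := h (L - 1 - i) (by omega)
      have h2 : L - 1 - (L - 1 - i) = i := by omega
      simp only [h2] at h1
      exact h1
    · intro h i hi
      exact h (L - 1 - i) (by omega)
  refine onlyIS ?_ ?_ ?_ ?_
  · intro e he
    obtain ⟨v, hv, hv1⟩ := hWM (L - 1 - e) (by omega)
    refine ⟨v, (ho v).2 hv, ?_⟩
    ext i
    constructor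
    · intro hi
      have h1 : L - 1 - i ∈ Tr G s L v := ⟨by have := hi.1; omega, hi.2⟩
      rw [hv1] at h1
      have h2 : L - 1 - i = L - 1 - e := h1
      have h3 := hi.1
      show i = e
      omega
    · intro hi
      have hi' : i = e := hi
      subst hi'
      have h1 : L - 1 - i ∈ Tr G s L v := by
        rw [hv1]
        rfl
      exact ⟨he, h1.2⟩
  · intro a b c hab hbc hc hP
    obtain ⟨v, hv, h1, h2, h3⟩ := hP
    exact h110 (L - 1 - c) (L - 1 - b) (L - 1 - a) (by omega) (by omega) (by omega)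
      ⟨v, (ho v).1 hv, h3, h2, h1⟩
  · intro a b c hab hbc hc hP
    obtain ⟨v, hv, h1, h2, h3⟩ := hP
    exact h101 (L - 1 - c) (L - 1 - b) (L - 1 - a) (by omega) (by omega) (by omega)
      ⟨v, (ho v).1 hv, h3, h2, h1⟩
  · intro a b c hab hbc hc
    obtain ⟨v, hv, h1, h2, h3⟩ := h011 (L - 1 - c) (L - 1 - b) (L - 1 - a) (by omega) (by omega)
      (by omega)
    exact ⟨v, (ho v).2 hv, h3, h2, h1⟩

/-- no pattern: type (M) -/
private theorem onlyM {s : ℕ → V} {L : ℕ} (hWM : WM G s L)
    (h110 : ∀ a b c, a < b → b < c → c < L → ¬ P110 G s L a b c)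
    (h101 : ∀ a b c, a < b → b < c → c < L → ¬ P101 G s L a b c)
    (h011 : ∀ a b c, a < b → b < c → c < L → ¬ P011 G s L a b c) : TyM G s L := by
  refine ⟨?_, hWM⟩
  have key : ∀ v, Ot s L v → ∀ a b, a < b → b < L → ¬ G.Adj v (s a) → ¬ G.Adj v (s b) →
      Tr G s L v = {i | i < L} := by
    intro v hv a b hab hb ha1 hb1
    ext i
    constructor
    · intro hi; exact hi.1
    · intro hi
      have hi' : i < L := hi
      refine ⟨hi', fun hadj => ?_⟩
      have h1 : i ≠ a := fun h => ha1 (h ▸ hadj)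
      have h2 : i ≠ b := fun h => hb1 (h ▸ hadj)
      rcases Nat.lt_or_ge i a with h | h
      · exact h011 i a b h hab hb ⟨v, hv, hadj, ha1, hb1⟩
      · rcases Nat.lt_or_ge i b with h' | h'
        · exact h101 a i b (by omega) h' hb ⟨v, hv, ha1, hadj, hb1⟩
        · exact h110 a b i hab (by omega) hi' ⟨v, hv, ha1, hb1, hadj⟩
  intro v hv
  by_cases h1 : ∃ e, e < L ∧ ¬ G.Adj v (s e)
  · right
    obtain ⟨e, he, he1⟩ := h1
    by_cases h2 : ∃ f, f < L ∧ f ≠ e ∧ ¬ G.Adj v (s f)
    · obtain ⟨f, hf, hfe, hf1⟩ := h2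
      left
      rcases lt_or_gt_of_ne hfe with h | h
      · exact key v hv f e h he hf1 he1
      · exact key v hv e f h hf he1 hf1
    · right
      refine ⟨e, he, ?_⟩
      ext i
      constructor
      · intro hi
        by_contra hie
        exact h2 ⟨i, hi.1, hie, hi.2⟩
      · intro hi
        have hi' : i = e := hi
        rw [hi']
        exact ⟨he, he1⟩
  · left
    rw [Set.eq_empty_iff_forall_notMem]
    intro i hi
    exact h1 ⟨i, hi.1, hi.2⟩

private theorem no101 {s : ℕ → V} {L : ℕ} (hL : 4 ≤ L) (hlam : LamT G s L)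
    (h : ∀ a b c, a < b → b < c → c < L → P101 G s L a b c) : False := by
  obtain ⟨u, hu, u0, u1, u2⟩ := h 0 1 2 (by omega) (by omega) (by omega)
  obtain ⟨u', hu', v1, v2, v3⟩ := h 1 2 3 (by omega) (by omega) (by omega)
  obtain ⟨w, hw, w0, w1, w3⟩ := h 0 1 3 (by omega) (by omega) (by omega)
  have m0 : 0 < L := by omega
  have m1 : 1 < L := by omega
  have m2 : 2 < L := by omega
  have m3 : 3 < L := by omega
  rcases hlam u hu u' hu' with h1 | h1 | h1
  · exact (h1 (show 2 ∈ Tr G s L u from ⟨m2, u2⟩)).2 v2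
  · exact (h1 (show 1 ∈ Tr G s L u' from ⟨m1, v1⟩)).2 u1
  · have h3 : 3 ∉ Tr G s L u := fun h4 =>
      Set.disjoint_left.1 h1 h4 (show 3 ∈ Tr G s L u' from ⟨m3, v3⟩)
    have h0 : 0 ∉ Tr G s L u' := fun h4 =>
      Set.disjoint_left.1 h1 (show 0 ∈ Tr G s L u from ⟨m0, u0⟩) h4
    have e1 : Tr G s L u' ⊆ Tr G s L w := by
      rcases hlam w hw u' hu' with h2 | h2 | h2
      · exact absurd (h2 (show 0 ∈ Tr G s L w from ⟨m0, w0⟩)) h0
      · exact h2
      · exact absurd (show 3 ∈ Tr G s L u' from ⟨m3, v3⟩)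
          (Set.disjoint_left.1 h2 (show 3 ∈ Tr G s L w from ⟨m3, w3⟩))
    exact (e1 (show 1 ∈ Tr G s L u' from ⟨m1, v1⟩)).2 w1

private theorem noboth {s : ℕ → V} {L : ℕ} (hL : 4 ≤ L) (hlam : LamT G s L)
    (h : ∀ a b c, a < b → b < c → c < L → P011 G s L a b c)
    (h' : ∀ a b c, a < b → b < c → c < L → P110 G s L a b c) : False := by
  obtain ⟨u, hu, u0, u1, u2⟩ := h 0 1 2 (by omega) (by omega) (by omega)
  obtain ⟨w, hw, w0, w1, w2⟩ := h' 0 1 2 (by omega) (by omega) (by omega)
  have m0 : 0 < L := by omega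
  have m1 : 1 < L := by omega
  have m2 : 2 < L := by omega
  rcases hlam u hu w hw with h1 | h1 | h1
  · exact (h1 (show 2 ∈ Tr G s L u from ⟨m2, u2⟩)).2 w2
  · exact (h1 (show 0 ∈ Tr G s L w from ⟨m0, w0⟩)).2 u0
  · exact Set.disjoint_left.1 h1 (show 1 ∈ Tr G s L u from ⟨m1, u1⟩)
      (show 1 ∈ Tr G s L w from ⟨m1, w1⟩)

end R6Aux

open R6Aux

theorem pfR6 (h0 : S_R0) : S_R6 := by
  classical
  intro n'
  obtain ⟨L, hL⟩ : ∃ L, L = max n' 4 := ⟨_, rfl⟩
  have hL4 : 4 ≤ L := by omega
  have hLn : n' ≤ L := by omega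
  obtain ⟨N, hN⟩ := h0 (Bool × Bool × Bool) L
  refine ⟨N, ?_⟩
  intro V G s hS hW hlam
  obtain ⟨t, c, ht1, ht2, ht3⟩ := hN (fun a b c => (decide (P011 G s N a b c),
    decide (P101 G s N a b c), decide (P110 G s N a b c)))
  obtain ⟨σ, hσ⟩ : ∃ σ : ℕ → V, σ = fun i => s (t i) := ⟨_, rfl⟩
  have tinj : ∀ i j, i < L → j < L → t i = t j → i = j := by
    intro i j hi hj hij
    rcases Nat.lt_trichotomy i j with h | h | h
    · exact absurd hij (ht1 i j h hj).ne
    · exact h
    · exact absurd hij (ht1 j i h hi).ne'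
  have hSσ : Sq G σ L := by
    intro i hi j hj hij
    rw [hσ]
    exact hS (t i) (ht2 i hi) (t j) (ht2 j hj) (fun h => hij (tinj i j hi hj h))
  have hWσ : WM G σ L := by
    intro e he
    obtain ⟨v, hv, hv1⟩ := hW (t e) (ht2 e he)
    refine ⟨v, out' ht2 hσ hv, ?_⟩
    ext i
    constructor
    · intro hi
      have h1 : t i ∈ Tr G s N v := ⟨ht2 i hi.1, by have := hi.2; rw [hσ] at this; exact this⟩
      rw [hv1] at h1
      exact tinj i e hi.1 he h1
    · intro hi
      have hi' : i = e := hi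
      subst hi'
      have h1 : t i ∈ Tr G s N v := by
        rw [hv1]
        rfl
      refine ⟨he, ?_⟩
      rw [hσ]
      exact h1.2
  have hlamσ : LamT G σ L := by
    intro u hu w hw
    by_cases h1 : ∃ b, b < L ∧ ¬ G.Adj u (σ b)
    · by_cases h2 : ∃ b, b < L ∧ ¬ G.Adj w (σ b)
      · obtain ⟨b, hb, hb1⟩ := h1
        obtain ⟨b', hb', hb1'⟩ := h2
        have hu' := out hS ht2 hσ hu hb hb1
        have hw' := out hS ht2 hσ hw hb' hb1'
        have tr : ∀ v i, i ∈ Tr G σ L v ↔ i < L ∧ t i ∈ Tr G s N v := by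
          intro v i
          subst hσ
          exact ⟨fun h => ⟨h.1, ht2 i h.1, h.2⟩, fun h => ⟨h.1, h.2.2⟩⟩
        rcases hlam u hu' w hw' with h3 | h3 | h3
        · left
          intro i hi
          rw [tr] at hi ⊢
          exact ⟨hi.1, h3 hi.2⟩
        · right; left
          intro i hi
          rw [tr] at hi ⊢
          exact ⟨hi.1, h3 hi.2⟩
        · right; right
          rw [Set.disjoint_left]
          intro i hi hi'
          rw [tr] at hi hi'
          exact Set.disjoint_left.1 h3 hi.2 hi'.2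
      · right; left
        intro i hi
        exact absurd ⟨i, hi.1, hi.2⟩ h2
    · left
      intro i hi
      exact absurd ⟨i, hi.1, hi.2⟩ h1
  have q011 : ∀ a b d, a < L → b < L → d < L → (P011 G σ L a b d ↔ P011 G s N (t a) (t b) (t d)) := by
    intro a b d ha hb hd
    constructor
    · rintro ⟨v, hv, h1, h2, h3⟩
      refine ⟨v, out hS ht2 hσ hv hb h2, ?_⟩
      subst hσ
      exact ⟨h1, h2, h3⟩
    · rintro ⟨v, hv, h1, h2, h3⟩
      refine ⟨v, out' ht2 hσ hv, ?_⟩
      subst hσ
      exact ⟨h1, h2, h3⟩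
  have q101 : ∀ a b d, a < L → b < L → d < L → (P101 G σ L a b d ↔ P101 G s N (t a) (t b) (t d)) := by
    intro a b d ha hb hd
    constructor
    · rintro ⟨v, hv, h1, h2, h3⟩
      refine ⟨v, out hS ht2 hσ hv ha h1, ?_⟩
      subst hσ
      exact ⟨h1, h2, h3⟩
    · rintro ⟨v, hv, h1, h2, h3⟩
      refine ⟨v, out' ht2 hσ hv, ?_⟩
      subst hσ
      exact ⟨h1, h2, h3⟩
  have q110 : ∀ a b d, a < L → b < L → d < L → (P110 G σ L a b d ↔ P110 G s N (t a) (t b) (t d)) := by
    intro a b d ha hb hd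
    constructor
    · rintro ⟨v, hv, h1, h2, h3⟩
      refine ⟨v, out hS ht2 hσ hv ha h1, ?_⟩
      subst hσ
      exact ⟨h1, h2, h3⟩
    · rintro ⟨v, hv, h1, h2, h3⟩
      refine ⟨v, out' ht2 hσ hv, ?_⟩
      subst hσ
      exact ⟨h1, h2, h3⟩
  have c011 : (∀ a b d, a < b → b < d → d < L → P011 G σ L a b d) ∨
      ∀ a b d, a < b → b < d → d < L → ¬ P011 G σ L a b d := by
    rcases hc : c.1 with _ | _
    · right
      intro a b d hab hbd hd
      rw [q011 a b d (by omega) (by omega) hd]
      have h1 := congrArg Prod.fst (ht3 a b d hab hbd hd)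
      rw [hc] at h1
      exact of_decide_eq_false h1
    · left
      intro a b d hab hbd hd
      rw [q011 a b d (by omega) (by omega) hd]
      have h1 := congrArg Prod.fst (ht3 a b d hab hbd hd)
      rw [hc] at h1
      exact of_decide_eq_true h1
  have c101 : (∀ a b d, a < b → b < d → d < L → P101 G σ L a b d) ∨
      ∀ a b d, a < b → b < d → d < L → ¬ P101 G σ L a b d := by
    rcases hc : c.2.1 with _ | _
    · right
      intro a b d hab hbd hd
      rw [q101 a b d (by omega) (by omega) hd]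
      have h1 := congrArg (fun x => x.2.1) (ht3 a b d hab hbd hd)
      simp only [hc] at h1
      exact of_decide_eq_false h1
    · left
      intro a b d hab hbd hd
      rw [q101 a b d (by omega) (by omega) hd]
      have h1 := congrArg (fun x => x.2.1) (ht3 a b d hab hbd hd)
      simp only [hc] at h1
      exact of_decide_eq_true h1
  have c110 : (∀ a b d, a < b → b < d → d < L → P110 G σ L a b d) ∨
      ∀ a b d, a < b → b < d → d < L → ¬ P110 G σ L a b d := by
    rcases hc : c.2.2 with _ | _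
    · right
      intro a b d hab hbd hd
      rw [q110 a b d (by omega) (by omega) hd]
      have h1 := congrArg (fun x => x.2.2) (ht3 a b d hab hbd hd)
      simp only [hc] at h1
      exact of_decide_eq_false h1
    · left
      intro a b d hab hbd hd
      rw [q110 a b d (by omega) (by omega) hd]
      have h1 := congrArg (fun x => x.2.2) (ht3 a b d hab hbd hd)
      simp only [hc] at h1
      exact of_decide_eq_true h1
  have c101' : ∀ a b d, a < b → b < d → d < L → ¬ P101 G σ L a b d := by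
    rcases c101 with h | h
    · exact absurd (no101 hL4 hlamσ h) not_false
    · exact h
  rcases c110 with h110 | h110
  · have h011 : ∀ a b d, a < b → b < d → d < L → ¬ P011 G σ L a b d := by
      rcases c011 with h | h
      · exact absurd (noboth hL4 hlamσ h h110) not_false
      · exact h
    refine ⟨t, fun i j hij hj => (ht1 i j hij (by omega)).ne, fun i hi => ht2 i (by omega),
      Or.inr ?_⟩
    rw [← hσ]
    exact tyIS_restr hSσ hLn (onlyIS hWσ h011 c101' h110)
  · rcases c011 with h011 | h011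
    · refine ⟨fun i => t (L - 1 - i), fun i j hij hj => ?_, fun i hi => ht2 _ (by omega),
        Or.inr ?_⟩
      · exact (ht1 (L - 1 - j) (L - 1 - i) (by omega) (by omega)).ne'
      · have h1 := rev_IS hWσ h110 c101' h011
        have h2 : Sq G (fun i => σ (L - 1 - i)) L := by
          intro i hi j hj hij
          exact hSσ _ (by omega) _ (by omega) (by omega)
        have h3 := tyIS_restr h2 hLn h1
        rw [hσ] at h3
        exact h3
    · refine ⟨t, fun i j hij hj => (ht1 i j hij (by omega)).ne, fun i hi => ht2 i (by omega),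
        Or.inl ?_⟩
      rw [← hσ]
      exact tyM_restr hSσ hLn (onlyM hWσ h110 c101' h011)

end Pool.Agent.MPd439b2.H1
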