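import Pool.Agent.Lib.MP_d439b2_co.H1.Spec1

/-!
# MP_d439b2_co, column `C_4`, row `K3:0,1,02`, R7: the pattern 011 is impossible
-/

set_option autoImplicit false

namespace Pool.Agent.MPd439b2.H1

open Pool.Agent.MPd439b2 Pool.Agent.MPd439b2.LK

namespace R7Aux

variable {V : Type} {G : SimpleGraph V} {s : ℕ → V} {n : ℕ}

theorem nadj (h3 : S_M3) (hC : Chd G) (hs : Sq G s n) {u w : V} (i j : ℕ) (hu : Ot s n u)
    (hw : Ot s n w) (hi : i < n) (hj : j < n) (a1 : ¬ G.Adj u (s i)) (a2 : G.Adj w (s i))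
    (a3 : ¬ G.Adj w (s j)) (a4 : G.Adj u (s j)) : ¬ G.Adj u w := by
  intro hadj
  rcases h3 V G s n u w hC hs hu hw hadj with h | h
  · exact (h ⟨hi, a1⟩).2 a2
  · exact (h ⟨hj, a3⟩).2 a4

theorem rin {i : ℕ} (hi : i < n) : s i ∈ rg s n := ⟨i, hi, rfl⟩

theorem rout {v : V} (h : Ot s n v) : v ∉ rg s n := by
  rintro ⟨i, hi, e⟩
  exact h i hi e

theorem rcomp (hs : Sq G s n) : CompleteOn G (rg s n) := by
  rintro _ ⟨i, hi, rfl⟩ _ ⟨j, hj, rfl⟩ hne
  exact hs i hi j hj fun e => hne (by rw [e])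

end R7Aux

open R7Aux in
theorem pfR7 (h1 : S_M1) (h3 : S_M3) (h4 : S_M4) : S_R7 := by
  intro V G s n hG hn hs hI hpat
  have hC : Chd G := hG.1
  have hF := hG.2
  have hx0 : ∀ p, ∃ v, 1 ≤ p → p < n → Ot s n v ∧ Tr G s n v = {i | i < p} := by
    intro p
    by_cases hp : 1 ≤ p ∧ p < n
    · obtain ⟨v, hv⟩ := hI p hp.1 hp.2
      exact ⟨v, fun _ _ => hv⟩
    · exact ⟨s 0, fun a b => absurd ⟨a, b⟩ hp⟩
  choose x hx using hx0
  have xo : ∀ p, 1 ≤ p → p < n → Ot s n (x p) := fun p a b => (hx p a b).1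
  have xy : ∀ p i, 1 ≤ p → p < n → i < n → p ≤ i → G.Adj (x p) (s i) := by
    intro p i a b hi hpi
    by_contra hno
    have : i ∈ Tr G s n (x p) := ⟨hi, hno⟩
    rw [(hx p a b).2] at this
    exact absurd this (not_lt.2 hpi)
  have xn : ∀ p i, 1 ≤ p → p < n → i < p → ¬ G.Adj (x p) (s i) := by
    intro p i a b hi
    have : i ∈ Tr G s n (x p) := by
      rw [(hx p a b).2]
      exact hi
    exact this.2
  have sne : ∀ i j, i < n → j < n → i ≠ j → s i ≠ s j := fun i j hi hj h => (hs i hi j hj h).ne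
  -- (1)
  have xx : ∀ p p', 1 ≤ p → p < p' → p' < n → G.Adj (x p) (x p') := by
    intro p p' hp hpp hp'
    by_contra hno
    obtain ⟨w, hw, w1, w2, w3⟩ := hpat (p - 1) p p' (by omega) hpp hp'
    have e1 : ¬ G.Adj (x p') w := nadj h3 hC hs (p - 1) p' (xo p' (by omega) hp') hw (by omega) hp'
      (xn _ _ (by omega) hp' (by omega)) w1 w3 (xy _ _ (by omega) hp' hp' le_rfl)
    have e2 : ¬ G.Adj (x p) w := nadj h3 hC hs (p - 1) p' (xo p hp (by omega)) hw (by omega) hp'
      (xn _ _ hp (by omega) (by omega)) w1 w3 (xy _ _ hp (by omega) hp' hpp.le)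
    refine e2 (h4 V G (rg s n) (s p') (s p') (s (p - 1)) (s p) (x p') w (x p) hG (rcomp hs)
      (rin hp') (rin hp') (rin (by omega)) (rin (by omega)) (rout (xo p' (by omega) hp'))
      (rout hw) (rout (xo p hp (by omega))) (sne _ _ (by omega) hp' (by omega))
      (xy _ _ (by omega) hp' hp' le_rfl) (xn _ _ (by omega) hp' (by omega))
      (xn _ _ (by omega) hp' hpp) w1 w3 w3 w2 (xy _ _ hp (by omega) hp' hpp.le)
      (xy _ _ hp (by omega) (by omega) le_rfl) (xn _ _ hp (by omega) (by omega)) e1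
      fun h => hno h.symm).symm
  -- (2)
  have key : ∀ w a b c d, Ot s n w → a < b → b < c → c < d → d < n → b + 3 ≤ d → G.Adj w (s a) →
      ¬ G.Adj w (s b) → ¬ G.Adj w (s c) → G.Adj w (s d) := by
    intro w a b c d hw hab hbc hcd hd hbd w1 w2 w3
    by_contra w4
    obtain ⟨e, he1, he2, he3⟩ : ∃ e, b + 1 ≤ e ∧ e < d ∧ e ≠ c := by
      by_cases h : c = b + 1
      · exact ⟨b + 2, by omega, by omega, by omega⟩
      · exact ⟨b + 1, by omega, by omega, by omega⟩
    have ou := xo (b + 1) (by omega) (by omega)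
    have ov := xo d (by omega) hd
    have n1 : ¬ G.Adj w (x (b + 1)) := nadj h3 hC hs c a hw ou (by omega) (by omega) w3
      (xy _ _ (by omega) (by omega) (by omega) (by omega)) (xn _ _ (by omega) (by omega) (by omega))
      w1
    have n2 : ¬ G.Adj w (x d) := nadj h3 hC hs d a hw ov hd (by omega) w4
      (xy _ _ (by omega) hd hd le_rfl) (xn _ _ (by omega) hd (by omega)) w1
    have n3 : ¬ G.Adj (x d) (s b) := xn _ _ (by omega) hd (by omega)
    have n4 : ¬ G.Adj (x (b + 1)) (s b) := xn _ _ (by omega) (by omega) (by omega)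
    refine hF (h1 V G (s e) (s a) (x (b + 1)) (s c) w (x d) (s b)
      (Or.inr (hs e (by omega) a (by omega) (by omega)))
      (Or.inl (xy _ _ (by omega) (by omega) (by omega) he1))
      (Or.inl (hs c (by omega) e (by omega) (by omega)))
      (xy _ _ (by omega) (by omega) (by omega) (by omega))
      (sne _ _ (by omega) (by omega) (by omega)) (sne _ _ (by omega) (by omega) (by omega))
      (hw e (by omega)) (hw a (by omega)) (sne _ _ (by omega) (by omega) (by omega))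
      (sne _ _ (by omega) (by omega) (by omega)) (Or.inr w1) n1 w3
      (xx (b + 1) d (by omega) (by omega) hd).symm (xn _ _ (by omega) hd he2)
      (xn _ _ (by omega) hd (by omega)) (xn _ _ (by omega) hd hcd)
      (Or.inl (hs b (by omega) e (by omega) (by omega)))
      (hs b (by omega) c (by omega) (by omega)) (fun h => n4 h.symm) n2 w2 n3)
  obtain ⟨w₁, o1, a0, a2, a4⟩ := hpat 0 2 4 (by omega) (by omega) (by omega)
  obtain ⟨w₂, o2, b0, b4, b6⟩ := hpat 0 4 6 (by omega) (by omega) (by omega)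
  obtain ⟨w₃, o3, c0, c6, c8⟩ := hpat 0 6 8 (by omega) (by omega) (by omega)
  have a6 : G.Adj w₁ (s 6) := key w₁ 0 2 4 6 o1 (by omega) (by omega) (by omega) (by omega)
    (by omega) a0 a2 a4
  have b8 : G.Adj w₂ (s 8) := key w₂ 0 4 6 8 o2 (by omega) (by omega) (by omega) (by omega)
    (by omega) b0 b4 b6
  have b2 : G.Adj w₂ (s 2) := by
    by_contra h
    exact b6 (key w₂ 0 2 4 6 o2 (by omega) (by omega) (by omega) (by omega) (by omega) b0 h b4)
  have c2 : G.Adj w₃ (s 2) := by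
    by_contra h
    exact c8 (key w₃ 0 2 6 8 o3 (by omega) (by omega) (by omega) (by omega) (by omega) c0 h c6)
  have c4 : G.Adj w₃ (s 4) := by
    by_contra h
    exact c8 (key w₃ 0 4 6 8 o3 (by omega) (by omega) (by omega) (by omega) (by omega) c0 h c6)
  have d21 : ¬ G.Adj w₂ w₁ := nadj h3 hC hs 6 2 o2 o1 (by omega) (by omega) b6 a6 a2 b2
  have d23 : ¬ G.Adj w₂ w₃ := nadj h3 hC hs 4 8 o2 o3 (by omega) (by omega) b4 c4 c8 b8
  have d13 : ¬ G.Adj w₁ w₃ := nadj h3 hC hs 2 6 o1 o3 (by omega) (by omega) a2 c2 c6 a6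
  exact d13 (h4 V G (rg s n) (s 2) (s 2) (s 6) (s 4) w₂ w₁ w₃ hG (rcomp hs) (rin (by omega))
    (rin (by omega)) (rin (by omega)) (rin (by omega)) (rout o2) (rout o1) (rout o3)
    (sne _ _ (by omega) (by omega) (by omega)) b2 b6 b4 a6 a2 a2 a4 c2 c4 c6 d21 d23)

end Pool.Agent.MPd439b2.H1
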