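import Pool.Agent.Lib.MP_d439b2_co.H1.Spec1

/-!
# MP_d439b2_co, H1: the statement `S_R8` (the pattern 101 does not occur everywhere)
-/

set_option autoImplicit false

namespace Pool.Agent.MPd439b2.H1

open Pool.Agent.MPd439b2 Pool.Agent.MPd439b2.LK

namespace PfR8

variable {V : Type} {G : SimpleGraph V} {s : ℕ → V} {n : ℕ}

/-- the vertex of the pattern 101 at `(l, l + 1, c)` misses exactly `0, ..., l` and `c` -/
private theorem pat
    (h011 : ∀ w, Ot s n w → ∀ a b c, a < b → b < c → c < n → G.Adj w (s a) → ¬ G.Adj w (s b) →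
      G.Adj w (s c))
    {w : V} (hw : Ot s n w) {l c : ℕ} (hlc : l + 1 < c) (hc : c < n) (h1 : ¬ G.Adj w (s l))
    (h2 : G.Adj w (s (l + 1))) (h3 : ¬ G.Adj w (s c)) :
    ∀ i, i < n → (¬ G.Adj w (s i) ↔ i ≤ l ∨ i = c) := by
  intro i hi
  constructor
  · intro hm
    by_contra hcon
    push Not at hcon
    obtain ⟨hil, hic⟩ := hcon
    have hi1 : i ≠ l + 1 := fun h => hm (h ▸ h2)
    rcases lt_or_gt_of_ne hic with hlt | hgt
    · exact h3 (h011 w hw (l + 1) i c (by omega) hlt hc h2 hm)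
    · exact hm (h011 w hw (l + 1) c i hlc hgt hi h2 h3)
  · rintro (hil | rfl)
    · rcases Nat.lt_or_ge i l with hlt | hge
      · intro hadj
        exact h3 (h011 w hw i l c hlt (by omega) hc hadj h1)
      · have : i = l := by omega
        exact this ▸ h1
    · exact h3

end PfR8

theorem pfR8 (h1 : S_M1) (h3 : S_M3) (h4 : S_M4) : S_R8 := by
  intro V G s n hG hn hsq h011 h101
  obtain ⟨X, oX, x1, x2, x3⟩ := h101 0 1 3 (by omega) (by omega) (by omega)
  obtain ⟨Y, oY, y1, y2, y3⟩ := h101 1 2 5 (by omega) (by omega) (by omega)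
  obtain ⟨Z, oZ, z1, z2, z3⟩ := h101 4 5 6 (by omega) (by omega) (by omega)
  have pX := PfR8.pat h011 oX (l := 0) (c := 3) (by omega) (by omega) x1 x2 x3
  have pY := PfR8.pat h011 oY (l := 1) (c := 5) (by omega) (by omega) y1 y2 y3
  have pZ := PfR8.pat h011 oZ (l := 4) (c := 6) (by omega) (by omega) z1 z2 z3
  have aX : ∀ i, i < n → ¬ (i ≤ 0 ∨ i = 3) → G.Adj X (s i) := fun i hi h => by
    by_contra hcon
    exact h ((pX i hi).1 hcon)
  have aY : ∀ i, i < n → ¬ (i ≤ 1 ∨ i = 5) → G.Adj Y (s i) := fun i hi h => by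
    by_contra hcon
    exact h ((pY i hi).1 hcon)
  have aZ : ∀ i, i < n → ¬ (i ≤ 4 ∨ i = 6) → G.Adj Z (s i) := fun i hi h => by
    by_contra hcon
    exact h ((pZ i hi).1 hcon)
  have mX : ∀ i, i < n → (i ≤ 0 ∨ i = 3) → ¬ G.Adj X (s i) := fun i hi h => (pX i hi).2 h
  have mY : ∀ i, i < n → (i ≤ 1 ∨ i = 5) → ¬ G.Adj Y (s i) := fun i hi h => (pY i hi).2 h
  have mZ : ∀ i, i < n → (i ≤ 4 ∨ i = 6) → ¬ G.Adj Z (s i) := fun i hi h => (pZ i hi).2 h
  -- `Y` is adjacent neither to `X` nor to `Z`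
  have nYX : ¬ G.Adj Y X := by
    intro hadj
    rcases h3 V G s n Y X hG.1 hsq oY oX hadj with h | h
    · have h5 : (5 : ℕ) ∈ Tr G s n Y := ⟨by omega, mY 5 (by omega) (by omega)⟩
      exact (h h5).2 (aX 5 (by omega) (by omega))
    · have h5 : (3 : ℕ) ∈ Tr G s n X := ⟨by omega, mX 3 (by omega) (by omega)⟩
      exact (h h5).2 (aY 3 (by omega) (by omega))
  have nYZ : ¬ G.Adj Y Z := by
    intro hadj
    rcases h3 V G s n Y Z hG.1 hsq oY oZ hadj with h | h
    · have h5 : (5 : ℕ) ∈ Tr G s n Y := ⟨by omega, mY 5 (by omega) (by omega)⟩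
      exact (h h5).2 (aZ 5 (by omega) (by omega))
    · have h5 : (3 : ℕ) ∈ Tr G s n Z := ⟨by omega, mZ 3 (by omega) (by omega)⟩
      exact (h h5).2 (aY 3 (by omega) (by omega))
  by_cases hXZ : G.Adj X Z
  · apply hG.2
    exact h1 V G (s 2) (s 2) X (s 1) Y Z (s 0) (Or.inl rfl) (Or.inl (aX 2 (by omega) (by omega)))
      (Or.inl (hsq 1 (by omega) 2 (by omega) (by omega))) (aX 1 (by omega) (by omega))
      (hsq 1 (by omega) 2 (by omega) (by omega)).ne (hsq 1 (by omega) 2 (by omega) (by omega)).ne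
      (oY 2 (by omega)) (oY 2 (by omega)) (hsq 0 (by omega) 2 (by omega) (by omega)).ne
      (hsq 0 (by omega) 2 (by omega) (by omega)).ne (Or.inl (aY 2 (by omega) (by omega))) nYX
      (mY 1 (by omega) (by omega)) hXZ.symm (mZ 2 (by omega) (by omega))
      (mZ 2 (by omega) (by omega)) (mZ 1 (by omega) (by omega))
      (Or.inl (hsq 0 (by omega) 2 (by omega) (by omega))) (hsq 0 (by omega) 1 (by omega) (by omega))
      (fun h => mX 0 (by omega) (by omega) h.symm) nYZ (mY 0 (by omega) (by omega))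
      (mZ 0 (by omega) (by omega))
  · have hK : CompleteOn G (rg s n) := by
      rintro u ⟨i, hi, rfl⟩ v ⟨j, hj, rfl⟩ huv
      exact hsq i hi j hj (fun h => huv (by rw [h]))
    have nK : ∀ v, Ot s n v → v ∉ rg s n := fun v hv ⟨i, hi, h⟩ => hv i hi h
    apply nYX
    exact h4 V G (rg s n) (s 5) (s 5) (s 3) (s 1) Z Y X hG hK ⟨5, by omega, rfl⟩
      ⟨5, by omega, rfl⟩ ⟨3, by omega, rfl⟩ ⟨1, by omega, rfl⟩ (nK Z oZ) (nK Y oY) (nK X oX)
      (hsq 1 (by omega) 5 (by omega) (by omega)).ne (aZ 5 (by omega) (by omega))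
      (mZ 3 (by omega) (by omega)) (mZ 1 (by omega) (by omega)) (aY 3 (by omega) (by omega))
      (mY 5 (by omega) (by omega)) (mY 5 (by omega) (by omega)) (mY 1 (by omega) (by omega))
      (aX 5 (by omega) (by omega)) (aX 1 (by omega) (by omega)) (mX 3 (by omega) (by omega))
      (fun h => nYZ h.symm) (fun h => hXZ h.symm)

end Pool.Agent.MPd439b2.H1
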