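import Pool.Agent.Lib.MP_d439b2_co.H1.Spec1

/-!
# MP_d439b2_co, H1/R9: initial witnesses, the types (CH)
-/

set_option autoImplicit false

namespace Pool.Agent.MPd439b2.H1

open Pool.Agent.MPd439b2 Pool.Agent.MPd439b2.LK

namespace R9aux

variable {V : Type} {G : SimpleGraph V} {s : ℕ → V} {n L : ℕ} {t : ℕ → ℕ}

theorem inj (ht : ∀ k l, k < l → l < L → t k < t l) {i j : ℕ} (hi : i < L) (hj : j < L)
    (h : t i = t j) : i = j := by
  rcases lt_trichotomy i j with h1 | h1 | h1
  · have := ht i j h1 hj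
    omega
  · exact h1
  · have := ht j i h1 hi
    omega

theorem lt_iff (ht : ∀ k l, k < l → l < L → t k < t l) {i j : ℕ} (hi : i < L) (hj : j < L) :
    t i < t j ↔ i < j := by
  constructor
  · intro h
    by_contra h1
    rcases eq_or_lt_of_le (not_lt.1 h1) with h2 | h2
    · rw [h2] at h
      omega
    · have := ht j i h2 hi
      omega
  · intro h
    exact ht i j h hj

theorem sq (hs : Sq G s n) (ht : ∀ k l, k < l → l < L → t k < t l) (htn : ∀ k, k < L → t k < n) :
    Sq G (fun i => s (t i)) L := fun i hi j hj hij =>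
  hs (t i) (htn i hi) (t j) (htn j hj) fun h => hij (inj ht hi hj h)

theorem ot_of (htn : ∀ k, k < L → t k < n) {w : V} (h : Ot s n w) : Ot (fun i => s (t i)) L w :=
  fun i hi => h (t i) (htn i hi)

/-- a vertex outside of the subsequence which misses something is outside of the sequence -/
theorem ot_miss (hs : Sq G s n) (htn : ∀ k, k < L → t k < n) {w : V}
    (h : Ot (fun i => s (t i)) L w) {i : ℕ} (hi : i < L) (hw : ¬ G.Adj w (s (t i))) : Ot s n w := by
  rintro j hj rfl
  apply hw
  exact hs j hj (t i) (htn i hi) fun h' => h i hi (by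
    show s j = s (t i)
    rw [h'])

theorem wi (hwi : WI G s n) (ht : ∀ k l, k < l → l < L → t k < t l)
    (htn : ∀ k, k < L → t k < n) : WI G (fun i => s (t i)) L := by
  intro p hp hpL
  have h0 := ht 0 p (by omega) hpL
  obtain ⟨v, hv, hvt⟩ := hwi (t p) (by omega) (htn p hpL)
  refine ⟨v, ot_of htn hv, ?_⟩
  ext i
  constructor
  · rintro ⟨hi, hi'⟩
    have h1 : t i ∈ Tr G s n v := ⟨htn i hi, hi'⟩
    rw [hvt] at h1
    exact (lt_iff ht hi hpL).1 h1
  · intro hi
    have hi1 : i < p := hi
    have h1 : t i ∈ Tr G s n v := by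
      rw [hvt]
      exact ht i p hi1 hpL
    exact ⟨by omega, h1.2⟩

end R9aux

open R9aux in
theorem pfR9 (h0 : S_R0) (h7 : S_R7) (h8 : S_R8) : S_R9 := by
  intro n'
  set L := max n' 7 + 2 with hL
  have hL1 : n' + 2 ≤ L := by omega
  have hL2 : 9 ≤ L := by omega
  clear_value L
  obtain ⟨n, hn⟩ := h0 (Prop × Prop × Prop) L
  refine ⟨n, fun V G s hC hs hwi => ?_⟩
  obtain ⟨t, ⟨c1, c2, c3⟩, ht, htn, hcol⟩ := hn fun a b c =>
    ((∃ w, Ot s n w ∧ G.Adj w (s a) ∧ ¬ G.Adj w (s b) ∧ ¬ G.Adj w (s c)),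
     (∃ w, Ot s n w ∧ ¬ G.Adj w (s a) ∧ G.Adj w (s b) ∧ ¬ G.Adj w (s c)),
     (∃ w, Ot s n w ∧ G.Adj w (s a) ∧ ¬ G.Adj w (s b) ∧ G.Adj w (s c)))
  have q1 : ∀ i j k, i < j → j < k → k < L →
      ((∃ w, Ot s n w ∧ G.Adj w (s (t i)) ∧ ¬ G.Adj w (s (t j)) ∧ ¬ G.Adj w (s (t k))) ↔ c1) :=
    fun i j k h1 h2 h3 => iff_of_eq (Prod.ext_iff.1 (hcol i j k h1 h2 h3)).1
  have q2 : ∀ i j k, i < j → j < k → k < L →
      ((∃ w, Ot s n w ∧ ¬ G.Adj w (s (t i)) ∧ G.Adj w (s (t j)) ∧ ¬ G.Adj w (s (t k))) ↔ c2) :=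
    fun i j k h1 h2 h3 =>
      iff_of_eq (Prod.ext_iff.1 (Prod.ext_iff.1 (hcol i j k h1 h2 h3)).2).1
  have q3 : ∀ i j k, i < j → j < k → k < L →
      ((∃ w, Ot s n w ∧ G.Adj w (s (t i)) ∧ ¬ G.Adj w (s (t j)) ∧ G.Adj w (s (t k))) ↔ c3) :=
    fun i j k h1 h2 h3 =>
      iff_of_eq (Prod.ext_iff.1 (Prod.ext_iff.1 (hcol i j k h1 h2 h3)).2).2
  have hs' := sq hs ht htn
  have hwi' := wi hwi ht htn
  -- no pattern 011
  have n1 : ¬ c1 := by
    intro hc1
    refine h7 V G (fun i => s (t i)) L hC hL2 hs' hwi' fun a b c hab hbc hc => ?_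
    obtain ⟨w, hw, h1⟩ := (q1 a b c hab hbc hc).2 hc1
    exact ⟨w, ot_of htn hw, h1⟩
  have p1 : ∀ w, Ot (fun i => s (t i)) L w → ∀ a b c, a < b → b < c → c < L →
      G.Adj w (s (t a)) → ¬ G.Adj w (s (t b)) → G.Adj w (s (t c)) := by
    intro w hw a b c hab hbc hc h1 h2
    by_contra h3
    exact n1 ((q1 a b c hab hbc hc).1 ⟨w, ot_miss hs htn hw hc h3, h1, h2, h3⟩)
  -- no pattern 101
  have n2 : ¬ c2 := by
    intro hc2
    refine h8 V G (fun i => s (t i)) L hC (by omega) hs' p1 fun a b c hab hbc hc => ?_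
    obtain ⟨w, hw, h1⟩ := (q2 a b c hab hbc hc).2 hc2
    exact ⟨w, ot_of htn hw, h1⟩
  have p2 : ∀ w, Ot (fun i => s (t i)) L w → ∀ a b c, a < b → b < c → c < L →
      ¬ G.Adj w (s (t a)) → G.Adj w (s (t b)) → G.Adj w (s (t c)) := by
    intro w hw a b c hab hbc hc h1 h2
    by_contra h3
    exact n2 ((q2 a b c hab hbc hc).1 ⟨w, ot_miss hs htn hw hc h3, h1, h2, h3⟩)
  -- two missed elements
  have two : ∀ w, Ot (fun i => s (t i)) L w → ∀ b c, b < c → c < L → ¬ G.Adj w (s (t b)) →
      ¬ G.Adj w (s (t c)) → ∀ i, i ≤ c → ¬ G.Adj w (s (t i)) := by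
    intro w hw b c hbc hc hb hcc i hi h
    rcases lt_trichotomy i b with h1 | h1 | h1
    · exact hcc (p1 w hw i b c h1 hbc hc h hb)
    · rw [h1] at h
      exact hb h
    · rcases eq_or_lt_of_le hi with h2 | h2
      · rw [h2] at h
        exact hcc h
      · exact hcc (p2 w hw b i c h1 h2 hc hb h)
  -- the initial witnesses of the shifted sequence
  have hwi'' : WI G (fun i => s (t (i + 1))) n' := by
    intro p hp hpn
    obtain ⟨v, hv, hvt⟩ := hwi' (p + 1) (by omega) (by omega)
    refine ⟨v, fun i hi => hv (i + 1) (by omega), ?_⟩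
    ext i
    constructor
    · rintro ⟨hi, hi'⟩
      have h1 : i + 1 ∈ Tr G (fun i => s (t i)) L v := ⟨by omega, hi'⟩
      rw [hvt] at h1
      have h2 : i + 1 < p + 1 := h1
      show i < p
      omega
    · intro hi
      have hi1 : i < p := hi
      have h1 : i + 1 ∈ Tr G (fun i => s (t i)) L v := by
        rw [hvt]
        show i + 1 < p + 1
        omega
      exact ⟨by omega, h1.2⟩
  -- the missed sets of the shifted sequence
  have main : ∀ v, Ot (fun i => s (t (i + 1))) n' v →
      (∃ p, p ≤ n' ∧ Tr G (fun i => s (t (i + 1))) n' v = {i | i < p}) ∨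
        (c3 ∧ ∃ e, e < n' ∧ Tr G (fun i => s (t (i + 1))) n' v = {e}) := by
    intro v hv
    by_cases hvL : Ot (fun i => s (t i)) L v
    · by_cases hne : (Tr G (fun i => s (t (i + 1))) n' v).Nonempty
      · have hfin : (Tr G (fun i => s (t (i + 1))) n' v).Finite :=
          (Set.finite_lt_nat n').subset fun i hi => hi.1
        obtain ⟨c, ⟨hcn, hcm⟩, hmax⟩ := Set.exists_max_image _ id hfin hne
        have hcm' : ¬ G.Adj v (s (t (c + 1))) := hcm
        by_cases hb : ∃ b, b < c + 1 ∧ ¬ G.Adj v (s (t b))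
        · obtain ⟨b, hb, hbm⟩ := hb
          refine Or.inl ⟨c + 1, hcn, ?_⟩
          ext i
          constructor
          · intro hi
            have h1 := hmax i hi
            show i < c + 1
            simp only [id] at h1
            omega
          · intro hi
            have hi1 : i < c + 1 := hi
            exact ⟨by omega, two v hvL b (c + 1) hb (by omega) hbm hcm' (i + 1) (by omega)⟩
        · have hb' : ∀ b, b < c + 1 → G.Adj v (s (t b)) := by
            intro b hb1
            by_contra hb2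
            exact hb ⟨b, hb1, hb2⟩
          refine Or.inr ⟨?_, c, hcn, ?_⟩
          · refine (q3 0 (c + 1) (L - 1) (by omega) (by omega) (by omega)).1
              ⟨v, ot_miss hs htn hvL (by omega) hcm', hb' 0 (by omega), hcm', ?_⟩
            by_contra h3
            exact two v hvL (c + 1) (L - 1) (by omega) (by omega) hcm' h3 0 (by omega)
              (hb' 0 (by omega))
          · ext i
            constructor
            · intro hi
              have h1 := hmax i hi
              simp only [id] at h1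
              rw [Set.mem_singleton_iff]
              by_contra h2
              exact hi.2 (hb' (i + 1) (by omega))
            · intro hi
              rw [Set.mem_singleton_iff] at hi
              rw [hi]
              exact ⟨hcn, hcm⟩
      · refine Or.inl ⟨0, by omega, ?_⟩
        rw [Set.not_nonempty_iff_eq_empty.1 hne]
        ext i
        constructor
        · intro h
          exact absurd h (Set.notMem_empty i)
        · intro h
          exact absurd h (Nat.not_lt_zero i)
    · refine Or.inl ⟨0, by omega, ?_⟩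
      have h1 : ∃ j, j < L ∧ v = s (t j) := by
        by_contra h
        exact hvL fun j hj hv' => h ⟨j, hj, hv'⟩
      obtain ⟨j, hj, rfl⟩ := h1
      ext i
      constructor
      · rintro ⟨hi, hi'⟩
        exfalso
        refine hi' (hs' j hj (i + 1) (by omega) fun h => ?_)
        exact hv i hi (by
          show s (t j) = s (t (i + 1))
          rw [h])
      · intro h
        exact absurd h (Nat.not_lt_zero i)
  refine ⟨fun i => t (i + 1), fun i j hij hj => ht _ _ (by omega) (by omega),
    fun i hi => htn _ (by omega), ?_⟩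
  by_cases hc3 : c3
  · refine Or.inr ⟨fun v hv => ?_, hwi'', ?_⟩
    · rcases main v hv with h | h
      · exact Or.inl h
      · exact Or.inr h.2
    · intro e he
      obtain ⟨w, hw, hw1, hw2, hw3⟩ := (q3 e (e + 1) (e + 2) (by omega) (by omega)
        (by omega)).2 hc3
      have hwL : Ot (fun i => s (t i)) L w := ot_of htn hw
      refine ⟨w, fun i hi => hwL (i + 1) (by omega), ?_⟩
      ext i
      constructor
      · rintro ⟨hi, hi'⟩
        have hi'' : ¬ G.Adj w (s (t (i + 1))) := hi'
        rw [Set.mem_singleton_iff]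
        by_contra hne
        rcases lt_or_gt_of_ne hne with h | h
        · exact two w hwL (i + 1) (e + 1) (by omega) (by omega) hi'' hw2 e (by omega) hw1
        · exact two w hwL (e + 1) (i + 1) (by omega) (by omega) hw2 hi'' e (by omega) hw1
      · intro hi
        rw [Set.mem_singleton_iff] at hi
        rw [hi]
        exact ⟨he, hw2⟩
  · refine Or.inl ⟨fun v hv => ?_, hwi''⟩
    rcases main v hv with h | h
    · exact h
    · exact absurd h.1 hc3

end Pool.Agent.MPd439b2.H1
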