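import Pool.Agent.Lib.MP_d439b2_co.H1.Spec1
import Pool.Agent.Lib.MP_d439b2_co.W.RamC

/-!
# MP_d439b2_co, H1: Ramsey's theorem for ordered pairs (helper18)
-/

set_option autoImplicit false

namespace Pool.Agent.MPd439b2.H1

open Pool.Agent.MPd439b2 Pool.Agent.MPd439b2.LK

/-- **RP.** Ramsey's theorem for ordered pairs. -/
theorem pfRP : S_RP := Pool.Agent.MPd439b2.W.ramC

end Pool.Agent.MPd439b2.H1
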