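import Pool.Agent.Lib.MP_d439b2_co.H1.Spec1

/-!
# MP_d439b2_co, H1: Reg, regularization (helper50)
-/

set_option autoImplicit false

namespace Pool.Agent.MPd439b2.H1

open Pool.Agent.MPd439b2 Pool.Agent.MPd439b2.LK

namespace RegAux

variable {V : Type} {G : SimpleGraph V} {s : ℕ → V}

theorem sq_mono {m n : ℕ} (hmn : m ≤ n) (h : Sq G s n) : Sq G s m :=
  fun i hi j hj hij => h i (by omega) j (by omega) hij

theorem ot_mono {m n : ℕ} (hmn : m ≤ n) {v : V} (h : Ot s n v) : Ot s m v :=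
  fun i hi => h i (by omega)

theorem tr_mono {m n : ℕ} (hmn : m ≤ n) (v : V) :
    Tr G s m v = {i | i ∈ Tr G s n v ∧ i < m} := by
  ext i
  constructor
  · rintro ⟨h1, h2⟩
    exact ⟨⟨by omega, h2⟩, h1⟩
  · rintro ⟨⟨_, h2⟩, h1⟩
    exact ⟨h1, h2⟩

theorem wm_mono {m n : ℕ} (hmn : m ≤ n) (h : WM G s n) : WM G s m := by
  intro e he
  obtain ⟨v, h1, h2⟩ := h e (by omega)
  refine ⟨v, ot_mono hmn h1, ?_⟩
  rw [tr_mono hmn, h2]
  ext i
  constructor
  · rintro ⟨h3, _⟩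
    exact h3
  · intro h3
    have h4 : i = e := h3
    exact ⟨h3, by omega⟩

theorem wc_mono {m n : ℕ} (hmn : m ≤ n) (h : WC G s n) : WC G s m := by
  intro e he
  obtain ⟨v, h1, h2⟩ := h e (by omega)
  refine ⟨v, ot_mono hmn h1, ?_⟩
  rw [tr_mono hmn, h2]
  ext i
  constructor
  · rintro ⟨⟨_, h3⟩, h4⟩
    exact ⟨h4, h3⟩
  · rintro ⟨h3, h4⟩
    exact ⟨⟨by omega, h4⟩, h3⟩

theorem wi_mono {m n : ℕ} (hmn : m ≤ n) (h : WI G s n) : WI G s m := by
  intro p hp1 hp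
  obtain ⟨v, h1, h2⟩ := h p hp1 (by omega)
  refine ⟨v, ot_mono hmn h1, ?_⟩
  rw [tr_mono hmn, h2]
  ext i
  constructor
  · rintro ⟨h3, _⟩
    exact h3
  · intro h3
    have h4 : i < p := h3
    exact ⟨h3, by omega⟩

theorem sq_comp {m n : ℕ} {t : ℕ → ℕ} (h : Sq G s n) (h1 : ∀ i j, i < j → j < m → t i ≠ t j)
    (h2 : ∀ i, i < m → t i < n) : Sq G (fun i => s (t i)) m := by
  intro i hi j hj hij
  refine h _ (h2 i hi) _ (h2 j hj) ?_
  rcases lt_or_gt_of_ne hij with h3 | h3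
  · exact h1 i j h3 hj
  · exact (h1 j i h3 hi).symm

end RegAux

open RegAux in
theorem pfReg (h2 : S_R2) (h3 : S_R3) (h5 : S_R5) (h6 : S_R6) (h9 : S_R9) (h11 : S_R11) :
    S_Reg := by
  intro q m
  obtain ⟨n₁, hn₁⟩ := h6 (max m 5)
  obtain ⟨n₂, hn₂⟩ := h5 n₁
  obtain ⟨n₃, hn₃⟩ := h9 (max m 5)
  obtain ⟨N, hN⟩ := h2 q (max (max n₂ n₃) (max m 5 + 1))
  refine ⟨N, fun V _ G J hG hJ hL hNJ => ?_⟩
  obtain ⟨s, hsJ, hsq, hty⟩ := hN V G J hJ hL hNJ
  set m' := max m 5 with hm'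
  set n := max (max n₂ n₃) (m' + 1) with hn
  have hmm' : m ≤ m' := le_max_left _ _
  have h5m' : 5 ≤ m' := le_max_right _ _
  have hn2 : n₂ ≤ n := (le_max_left n₂ n₃).trans (le_max_left _ _)
  have hn3 : n₃ ≤ n := (le_max_right n₂ n₃).trans (le_max_left _ _)
  have hnm : m' + 1 ≤ n := le_max_right _ _
  -- it is enough to find a map `t`
  have fin : ∀ t : ℕ → ℕ, (∀ i j, i < j → j < m' → t i ≠ t j) → (∀ i, i < m' → t i < n) →
      (TyM G (fun i => s (t i)) m' ∨ TyC G (fun i => s (t i)) m' ∨ TyI G (fun i => s (t i)) m' ∨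
        TyIS G (fun i => s (t i)) m') → ∃ s : ℕ → V, (∀ i, i < m → s i ∈ J) ∧
        Sq G s m ∧ (TyM G s m ∨ TyC G s m ∨ TyI G s m ∨ TyIS G s m) := by
    intro t ht1 ht2 hT
    have hsq' : Sq G (fun i => s (t i)) m' := sq_comp hsq ht1 ht2
    obtain ⟨r1, r2, r3, r4⟩ := h11 V G (fun i => s (t i)) m m' hmm' hsq'
    refine ⟨fun i => s (t i), fun i hi => hsJ _ (ht2 i (by omega)), sq_mono hmm' hsq', ?_⟩
    rcases hT with h | h | h | h
    · exact Or.inl (r1 h)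
    · exact Or.inr (Or.inl (r2 h))
    · exact Or.inr (Or.inr (Or.inl (r3 h)))
    · exact Or.inr (Or.inr (Or.inr (r4 h)))
  rcases hty with hW | hW | hW
  · obtain ⟨t, t1, t2, t3, t4⟩ := hn₂ V G s hG (sq_mono hn2 hsq) (wm_mono hn2 hW)
    have hsq1 : Sq G (fun i => s (t i)) n₁ :=
      sq_comp (sq_mono hn2 hsq) (fun i j hij hj => (t1 i j hij hj).ne) t2
    obtain ⟨t', u1, u2, u3⟩ := hn₁ V G (fun i => s (t i)) hsq1 t3 t4
    refine fin (fun i => t (t' i)) ?_ ?_ ?_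
    · intro i j hij hj he
      have hi : i < m' := by omega
      have hne := u1 i j hij hj
      rcases lt_or_gt_of_ne hne with h | h
      · exact (t1 _ _ h (u2 j hj)).ne he
      · exact (t1 _ _ h (u2 i hi)).ne he.symm
    · intro i hi
      exact (t2 _ (u2 i hi)).trans_le hn2
    · rcases u3 with h | h
      · exact Or.inl h
      · exact Or.inr (Or.inr (Or.inr h))
  · obtain ⟨t, t1, t2, t3⟩ := h3 V G s m' hG h5m' (sq_mono hnm hsq) (wc_mono hnm hW)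
    exact fin t (fun i j hij hj => (t1 i j hij hj).ne) (fun i hi => (t2 i hi).trans_le hnm)
      (Or.inr (Or.inl t3))
  · obtain ⟨t, t1, t2, t3⟩ := hn₃ V G s hG (sq_mono hn3 hsq) (wi_mono hn3 hW)
    refine fin t (fun i j hij hj => (t1 i j hij hj).ne) (fun i hi => (t2 i hi).trans_le hn3) ?_
    rcases t3 with h | h
    · exact Or.inr (Or.inr (Or.inl h))
    · exact Or.inr (Or.inr (Or.inr h))

end Pool.Agent.MPd439b2.H1
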