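import Pool.Agent.Lib.MP_d439b2_co.H1.Spec1

/-!
# MP_d439b2_co, H1: R11, the types are inherited by initial parts
-/

set_option autoImplicit false

namespace Pool.Agent.MPd439b2.H1

open Pool.Agent.MPd439b2 Pool.Agent.MPd439b2.LK

private theorem ot_mono {V : Type} {s : ℕ → V} {m n : ℕ} (hmn : m ≤ n) {v : V} (h : Ot s n v) :
    Ot s m v := fun i hi => h i (lt_of_lt_of_le hi hmn)

private theorem tr_mem {V : Type} {G : SimpleGraph V} {s : ℕ → V} {m n : ℕ} (hmn : m ≤ n) {v : V}
    (i : ℕ) : i ∈ Tr G s m v ↔ i ∈ Tr G s n v ∧ i < m := by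
  constructor
  · rintro ⟨h1, h2⟩
    exact ⟨⟨lt_of_lt_of_le h1 hmn, h2⟩, h1⟩
  · rintro ⟨⟨-, h2⟩, h1⟩
    exact ⟨h1, h2⟩

private theorem ot_cases {V : Type} {G : SimpleGraph V} {s : ℕ → V} {m n : ℕ}
    (hs : Sq G s n) {v : V} (h : Ot s m v) : Tr G s m v = ∅ ∨ Ot s n v := by
  by_cases h1 : Ot s n v
  · exact Or.inr h1
  · left
    unfold Ot at h1
    push Not at h1
    obtain ⟨j, hj, rfl⟩ := h1
    ext i
    constructor
    · rintro ⟨hi, h2⟩
      have hij : j ≠ i := fun h3 => h i hi (by rw [h3])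
      by_cases hin : i < n
      · exact h2 (hs j hj i hin hij)
      · by_cases hjm : j < m
        · exact absurd rfl (h j hjm)
        · exfalso
          omega
    · intro h2
      exact absurd h2 (Set.notMem_empty i)

private theorem wm_mono {V : Type} {G : SimpleGraph V} {s : ℕ → V} {m n : ℕ} (hmn : m ≤ n)
    (h : WM G s n) : WM G s m := by
  intro e he
  obtain ⟨v, hv, hT⟩ := h e (by omega)
  refine ⟨v, ot_mono hmn hv, ?_⟩
  ext i
  rw [tr_mem hmn, hT]
  simp only [Set.mem_singleton_iff]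
  omega

private theorem wc_mono {V : Type} {G : SimpleGraph V} {s : ℕ → V} {m n : ℕ} (hmn : m ≤ n)
    (h : WC G s n) : WC G s m := by
  intro e he
  obtain ⟨v, hv, hT⟩ := h e (by omega)
  refine ⟨v, ot_mono hmn hv, ?_⟩
  ext i
  rw [tr_mem hmn, hT]
  simp only [Set.mem_ofPred_eq]
  omega

private theorem wi_mono {V : Type} {G : SimpleGraph V} {s : ℕ → V} {m n : ℕ} (hmn : m ≤ n)
    (h : WI G s n) : WI G s m := by
  intro p hp hpm
  obtain ⟨v, hv, hT⟩ := h p hp (by omega)
  refine ⟨v, ot_mono hmn hv, ?_⟩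
  ext i
  rw [tr_mem hmn, hT]
  simp only [Set.mem_ofPred_eq]
  omega

private theorem tr_single {V : Type} {G : SimpleGraph V} {s : ℕ → V} {m n : ℕ} (hmn : m ≤ n)
    {v : V} {e : ℕ} (hT : Tr G s n v = {e}) :
    Tr G s m v = ∅ ∨ ∃ e, e < m ∧ Tr G s m v = {e} := by
  by_cases hem : e < m
  · right
    refine ⟨e, hem, ?_⟩
    ext i
    rw [tr_mem hmn, hT]
    simp only [Set.mem_singleton_iff]
    omega
  · left
    ext i
    rw [tr_mem hmn, hT]
    constructor
    · rintro ⟨h1, h2⟩
      have h3 : i = e := h1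
      exfalso
      omega
    · intro h1
      exact absurd h1 (Set.notMem_empty i)

private theorem tr_init {V : Type} {G : SimpleGraph V} {s : ℕ → V} {m n : ℕ} (hmn : m ≤ n)
    {v : V} {p : ℕ} (hT : Tr G s n v = {i | i < p}) :
    ∃ p, p ≤ m ∧ Tr G s m v = {i | i < p} := by
  refine ⟨min p m, min_le_right _ _, ?_⟩
  ext i
  rw [tr_mem hmn, hT]
  simp only [Set.mem_ofPred_eq]
  omega

private theorem init_of_empty {V : Type} {G : SimpleGraph V} {s : ℕ → V} {m : ℕ} {v : V}
    (hT : Tr G s m v = ∅) : ∃ p, p ≤ m ∧ Tr G s m v = {i | i < p} := by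
  refine ⟨0, Nat.zero_le _, ?_⟩
  rw [hT]
  ext i
  simp

theorem pfR11 : S_R11 := by
  intro V G s m n hmn hs
  refine ⟨?_, ?_, ?_, ?_⟩
  · rintro ⟨h1, h2⟩
    refine ⟨fun v hv => ?_, wm_mono hmn h2⟩
    rcases ot_cases hs hv with h | h
    · exact Or.inl h
    · rcases h1 v h with h3 | h3 | ⟨e, -, h3⟩
      · left
        ext i
        rw [tr_mem hmn, h3]
        simp
      · right
        left
        ext i
        rw [tr_mem hmn, h3]
        simp only [Set.mem_ofPred_eq]
        omega
      · rcases tr_single hmn h3 with h4 | h4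
        · exact Or.inl h4
        · exact Or.inr (Or.inr h4)
  · rintro ⟨h1, h2⟩
    refine ⟨fun v hv => ?_, wc_mono hmn h2⟩
    rcases ot_cases hs hv with h | h
    · exact Or.inl h
    · rcases h1 v h with h3 | h3 | ⟨e, -, h3⟩
      · left
        ext i
        rw [tr_mem hmn, h3]
        simp
      · right
        left
        ext i
        rw [tr_mem hmn, h3]
        simp only [Set.mem_ofPred_eq]
        omega
      · by_cases hem : e < m
        · right
          right
          refine ⟨e, hem, ?_⟩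
          ext i
          rw [tr_mem hmn, h3]
          simp only [Set.mem_ofPred_eq]
          omega
        · right
          left
          ext i
          rw [tr_mem hmn, h3]
          simp only [Set.mem_ofPred_eq]
          omega
  · rintro ⟨h1, h2⟩
    refine ⟨fun v hv => ?_, wi_mono hmn h2⟩
    rcases ot_cases hs hv with h | h
    · exact init_of_empty h
    · obtain ⟨p, -, h3⟩ := h1 v h
      exact tr_init hmn h3
  · rintro ⟨h1, h2, h2'⟩
    refine ⟨fun v hv => ?_, wi_mono hmn h2, wm_mono hmn h2'⟩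
    rcases ot_cases hs hv with h | h
    · exact Or.inl (init_of_empty h)
    · rcases h1 v h with ⟨p, -, h3⟩ | ⟨e, -, h3⟩
      · exact Or.inl (tr_init hmn h3)
      · rcases tr_single hmn h3 with h4 | h4
        · exact Or.inl (init_of_empty h4)
        · exact Or.inr h4

end Pool.Agent.MPd439b2.H1
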