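import Pool.Agent.Lib.MP_d439b2_co.H1.Spec2

/-!
# MP_d439b2_co, H1: Reg2, only the types (M) and (CH) pure in linked cliques (helper50)
-/

set_option autoImplicit false

namespace Pool.Agent.MPd439b2.H1

open Pool.Agent.MPd439b2 Pool.Agent.MPd439b2.LK

namespace Reg2Aux

theorem card_le {V : Type} [Finite V] {G : SimpleGraph V} {s : ℕ → V} {n : ℕ} (h : Sq G s n)
    (A : Finset ℕ) (hA : ∀ i ∈ A, i < n) (Y : Set V) (hY : ∀ i ∈ A, s i ∈ Y) :
    A.card ≤ Y.ncard := by
  have hinj : Set.InjOn s (A : Set ℕ) := by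
    intro i hi j hj hij
    by_contra hne
    have := h i (hA i hi) j (hA j hj) hne
    rw [hij] at this
    exact G.irrefl this
  rw [← Set.ncard_coe_finset, ← hinj.ncard_image]
  refine Set.ncard_le_ncard ?_ (Set.toFinite _)
  rintro _ ⟨i, hi, rfl⟩
  exact hY i hi

/-- a linked clique has no cut of small rank with many elements on both sides -/
theorem no_cut {V : Type} [Finite V] {G : SimpleGraph V} {s : ℕ → V} {n q c h : ℕ} {J X : Set V}
    (hsq : Sq G s n) (hsJ : ∀ i, i < n → s i ∈ J) (hL : Lk G J q) (hX : cr G X ≤ c)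
    (hs : ∀ i, i < n → (s i ∈ X ↔ i < h)) (h1 : q * c < h) (h2 : q * c + h < n) : False := by
  have e1 : q * cr G X ≤ q * c := Nat.mul_le_mul_left q hX
  have e2 : (Finset.range h).card ≤ (J ∩ X).ncard := by
    refine card_le hsq _ (fun i hi => ?_) _ (fun i hi => ?_)
    · have := Finset.mem_range.1 hi
      omega
    · have h3 := Finset.mem_range.1 hi
      exact ⟨hsJ i (by omega), (hs i (by omega)).2 h3⟩
  have e3 : (Finset.Ico h n).card ≤ (J \ X).ncard := by
    refine card_le hsq _ (fun i hi => ?_) _ (fun i hi => ?_)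
    · exact (Finset.mem_Ico.1 hi).2
    · have h3 := Finset.mem_Ico.1 hi
      refine ⟨hsJ i h3.2, fun h4 => ?_⟩
      have := (hs i h3.2).1 h4
      omega
  rw [Finset.card_range] at e2
  rw [Nat.card_Ico] at e3
  rcases hL X with h4 | h4 <;> omega

end Reg2Aux

open Reg2Aux in
theorem pfReg2 (h1 : S_Reg) (h2 : S_R11) (h3 : S_CM2) (h4 : S_CH7) : S_Reg2 := by
  intro q m
  obtain ⟨N, hN⟩ := h1 q (max m (10 * q + 20))
  refine ⟨N, fun V _ G J hG hJ hL hNJ => ?_⟩
  obtain ⟨s, hsJ, hsq, hty⟩ := hN V G J hG hJ hL hNJ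
  set m' := max m (10 * q + 20) with hm'
  have hmm' : m ≤ m' := le_max_left _ _
  have hbig : 10 * q + 20 ≤ m' := le_max_right _ _
  obtain ⟨r1, r2, r3, r4⟩ := h2 V G s m m' hmm' hsq
  have hsqm : Sq G s m := fun i hi j hj hij => hsq i (by omega) j (by omega) hij
  refine ⟨s, fun i hi => hsJ i (by omega), hsqm, ?_⟩
  rcases hty with h | h | h | h
  · exact Or.inl (r1 h)
  · exfalso
    obtain ⟨X, hX1, hX2⟩ := h3 V G s m' (2 * q + 1) hG (by omega) hsq h (by omega)
    exact no_cut hsq hsJ hL hX1 hX2 (by omega) (by omega)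
  · exact Or.inr (r3 h)
  · exfalso
    have e1 : m' - 1 + 1 = m' := by omega
    obtain ⟨X, hX1, hX2⟩ := h4 V G s (m' - 1) (3 * q + 4)
      ⟨hG, by omega, by omega, by rw [e1]; exact hsq, by rw [e1]; exact h⟩
    exact no_cut hsq hsJ hL hX1 (fun i hi => hX2 i (by omega)) (by omega) (by omega)

end Pool.Agent.MPd439b2.H1
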