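import Pool.Agent.Lib.MP_d439b2_co.H1P.Final
import Pool.Agent.Lib.MP_d439b2_co.H1.A13
import Pool.Agent.Lib.MP_d439b2_co.H1.M0
import Pool.Agent.Lib.MP_d439b2_co.H1.M1
import Pool.Agent.Lib.MP_d439b2_co.H1.M2
import Pool.Agent.Lib.MP_d439b2_co.H1.M3
import Pool.Agent.Lib.MP_d439b2_co.H1.M4
import Pool.Agent.Lib.MP_d439b2_co.H1.M5
import Pool.Agent.Lib.MP_d439b2_co.H1.R0
import Pool.Agent.Lib.MP_d439b2_co.H1.RP
import Pool.Agent.Lib.MP_d439b2_co.H1.R1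
import Pool.Agent.Lib.MP_d439b2_co.H1.R2
import Pool.Agent.Lib.MP_d439b2_co.H1.R3
import Pool.Agent.Lib.MP_d439b2_co.H1.R4
import Pool.Agent.Lib.MP_d439b2_co.H1.R5
import Pool.Agent.Lib.MP_d439b2_co.H1.R6
import Pool.Agent.Lib.MP_d439b2_co.H1.R7
import Pool.Agent.Lib.MP_d439b2_co.H1.R8
import Pool.Agent.Lib.MP_d439b2_co.H1.R9
import Pool.Agent.Lib.MP_d439b2_co.H1.R11
import Pool.Agent.Lib.MP_d439b2_co.H1.Reg
import Pool.Agent.Lib.MP_d439b2_co.H1.CM1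
import Pool.Agent.Lib.MP_d439b2_co.H1.CM2
import Pool.Agent.Lib.MP_d439b2_co.H1.CH1
import Pool.Agent.Lib.MP_d439b2_co.H1.CH2
import Pool.Agent.Lib.MP_d439b2_co.H1.CH3
import Pool.Agent.Lib.MP_d439b2_co.H1.CH4
import Pool.Agent.Lib.MP_d439b2_co.H1.CH5
import Pool.Agent.Lib.MP_d439b2_co.H1.CH6
import Pool.Agent.Lib.MP_d439b2_co.H1.CH7
import Pool.Agent.Lib.MP_d439b2_co.H1.Reg2
import Pool.Agent.Lib.MP_d439b2_co.H1.Fin1

/-!
# MP_d439b2_co, column `C_4`, row `K3:0,1,02`: assembly of the first part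

Regularization (`reg2F`), linked cliques (`a13F`), pure chains (`noIF`); `fin1Of` is the theorem for the
pair `(C_4, K3:0,1,02)` given `S_NoM` (type (M), directory `H1M`).
-/

set_option autoImplicit false

namespace Pool.Agent.MPd439b2.H1

open Pool.Agent.MPd439b2 Pool.Agent.MPd439b2.LK

theorem m1F : S_M1 := pfM1 pfM0
theorem m2F : S_M2 := pfM2 a0
theorem m3F : S_M3 := pfM3 m2F
theorem m4F : S_M4 := pfM4 m1F
theorem m5F : S_M5 := pfM5 m1F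

theorem a13F : S_A13 := pfA13 H1P.lnkBF

theorem r1F : S_R1 := pfR1 a1
theorem r2F : S_R2 := pfR2 r1F pfRP
theorem r3F : S_R3 := pfR3 m2F m3F m4F
theorem r4F : S_R4 := pfR4 m1F m2F m3F m4F
theorem r5F : S_R5 := pfR5 m1F m3F r4F pfRP
theorem r6F : S_R6 := pfR6 pfR0
theorem r7F : S_R7 := pfR7 m1F m3F m4F
theorem r8F : S_R8 := pfR8 m1F m3F m4F
theorem r9F : S_R9 := pfR9 pfR0 r7F r8F

/-- regularization -/
theorem regF : S_Reg := pfReg r2F r3F r5F r6F r9F pfR11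

theorem cm1F : S_CM1 := pfCM1 pfM0 a0 m3F m4F
theorem cm2F : S_CM2 := pfCM2 a1 cm1F
theorem ch1F : S_CH1 := pfCH1 m1F m2F m3F
theorem ch2F : S_CH2 := pfCH2 m1F ch1F
theorem ch3F : S_CH3 := pfCH3 ch1F ch2F
theorem ch4F : S_CH4 := pfCH4 m2F ch2F ch3F
theorem ch5F : S_CH5 := pfCH5 m5F ch1F ch3F
theorem ch6F : S_CH6 := pfCH6 m4F ch1F ch3F ch4F ch5F
theorem ch7F : S_CH7 := pfCH7 a1 ch1F ch3F ch4F ch5F ch6F

/-- regularization of linked cliques -/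
theorem reg2F : S_Reg2 := pfReg2 regF pfR11 cm2F ch7F

/-- long linked pure chains do not exist -/
theorem noIF : S_NoI := H1P.noI reg2F

/-- the theorem for the pair `(C_4, K3:0,1,02)`, given type (M) -/
theorem fin1Of (h : S_NoM) : S_Fin1 := pfFin1 a13F reg2F pfR11 noIF h layCW

end Pool.Agent.MPd439b2.H1
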