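import Pool.Agent.Lib.MP_d439b2_co.H1.Spec2
import Pool.Agent.Lib.MP_d439b2_co.Basic

/-!
# MP_d439b2_co, H1, CM1: adjacencies in type (CM)
-/

set_option autoImplicit false

namespace Pool.Agent.MPd439b2.H1

open Pool.Agent.MPd439b2 Pool.Agent.MPd439b2.LK

namespace cm1Aux

variable {V : Type} {G : SimpleGraph V} {s : ℕ → V} {n : ℕ}

theorem adjF {f : V} (hf : f ∈ hF G s n) {i : ℕ} (hi : i < n) : G.Adj f (s i) := by
  by_contra h
  have h1 : i ∈ Tr G s n f := ⟨hi, h⟩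
  rw [hf.2] at h1
  exact h1

theorem adjV {e : ℕ} {v : V} (hv : v ∈ cV G s n e) (he : e < n) : G.Adj v (s e) := by
  by_contra h
  have h1 : e ∈ Tr G s n v := ⟨he, h⟩
  rw [hv.2] at h1
  exact h1.2 rfl

theorem nadjV {e i : ℕ} {v : V} (hv : v ∈ cV G s n e) (hi : i < n) (hie : i ≠ e) :
    ¬ G.Adj v (s i) := by
  have h1 : i ∈ Tr G s n v := by
    rw [hv.2]
    exact ⟨hi, hie⟩
  exact h1.2

theorem nadjO {i : ℕ} {o : V} (ho : o ∈ cO G s n) (hi : i < n) : ¬ G.Adj o (s i) := by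
  have h1 : i ∈ Tr G s n o := by
    rw [ho.2]
    exact hi
  exact h1.2

/-- different classes -/
theorem neVV {e e' : ℕ} {v v' : V} (hv : v ∈ cV G s n e) (hv' : v' ∈ cV G s n e') (he : e < n)
    (h : e ≠ e') : v ≠ v' := by
  rintro rfl
  exact nadjV hv' he h (adjV hv he)

theorem neFV {e : ℕ} {f v : V} (hf : f ∈ hF G s n) (hv : v ∈ cV G s n e) {i : ℕ} (hi : i < n)
    (h : i ≠ e) : f ≠ v := by
  rintro rfl
  exact nadjV hv hi h (adjF hf hi)

theorem neFO {f o : V} (hf : f ∈ hF G s n) (ho : o ∈ cO G s n) (hn : 0 < n) : f ≠ o := by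
  rintro rfl
  exact nadjO ho hn (adjF hf hn)

theorem neVO {e : ℕ} {v o : V} (hv : v ∈ cV G s n e) (he : e < n) (ho : o ∈ cO G s n) :
    v ≠ o := by
  rintro rfl
  exact nadjO ho he (adjV hv he)

theorem part1 (h3 : S_M3) (hC : Cls1 G) (hS : Sq G s n) {e e' : ℕ} {v v' : V} (hne : e ≠ e')
    (he : e < n) (he' : e' < n) (hv : v ∈ cV G s n e) (hv' : v' ∈ cV G s n e') :
    ¬ G.Adj v v' := by
  intro h
  rcases h3 V G s n v v' hC.1 hS hv.1 hv'.1 h with h1 | h1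
  · have h2 : e' ∈ Tr G s n v := by
      rw [hv.2]
      exact ⟨he', hne.symm⟩
    have h4 := h1 h2
    rw [hv'.2] at h4
    exact h4.2 rfl
  · have h2 : e ∈ Tr G s n v' := by
      rw [hv'.2]
      exact ⟨he, hne⟩
    have h4 := h1 h2
    rw [hv.2] at h4
    exact h4.2 rfl

/-- a third index -/
theorem third (hn : 3 ≤ n) (e e' : ℕ) : ∃ k, k < n ∧ k ≠ e ∧ k ≠ e' := by
  by_cases h0 : 0 ≠ e ∧ 0 ≠ e'
  · exact ⟨0, by omega, h0⟩
  · by_cases h1 : 1 ≠ e ∧ 1 ≠ e'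
    · exact ⟨1, by omega, h1⟩
    · exact ⟨2, by omega, by omega, by omega⟩

theorem clq {f : V} (hS : Sq G s n) (hf : f ∈ hF G s n) : CompleteOn G (insert f (rg s n)) := by
  rintro a (rfl | ⟨i, hi, rfl⟩) b (rfl | ⟨j, hj, rfl⟩) hab
  · exact absurd rfl hab
  · exact adjF hf hj
  · exact (adjF hf hi).symm
  · apply hS i hi j hj
    rintro rfl
    exact hab rfl

theorem notMem {f v : V} (h : f ≠ v) (hv : Ot s n v) : v ∉ insert f (rg s n) := by
  rintro (rfl | ⟨i, hi, h1⟩)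
  · exact h rfl
  · exact hv i hi h1

theorem part2a (h3 : S_M3) (h4 : S_M4) (hC : Cls1 G) (hn : 3 ≤ n) (hS : Sq G s n)
    (hW : WC G s n) {e e' : ℕ} {v v' f : V} (hne : e ≠ e') (he : e < n) (he' : e' < n)
    (hv : v ∈ cV G s n e) (hv' : v' ∈ cV G s n e') (hf : f ∈ hF G s n) (h : G.Adj f v) :
    G.Adj f v' := by
  by_contra h'
  obtain ⟨k, hk, hke, hke'⟩ := third hn e e'
  obtain ⟨u, hu1, hu2⟩ := hW k hk
  have hu : u ∈ cV G s n k := ⟨hu1, hu2⟩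
  have h5 : G.Adj v' v := h4 V G (insert f (rg s n)) (s k) f (s e') (s e) u v' v hC (clq hS hf)
    (Or.inr ⟨k, hk, rfl⟩) (Or.inl rfl) (Or.inr ⟨e', he', rfl⟩) (Or.inr ⟨e, he, rfl⟩)
    (notMem (neFV hf hu he hke.symm) hu.1) (notMem (neFV hf hv' he hne) hv'.1)
    (notMem (neFV hf hv he' hne.symm) hv.1) (fun h6 => hf.1 e he h6.symm) (adjV hu hk)
    (nadjV hu he' hke'.symm) (nadjV hu he hke.symm) (adjV hv' he') (nadjV hv' hk hke')
    (fun h6 => h' h6.symm) (nadjV hv' he hne) h.symm (adjV hv he) (nadjV hv he' hne.symm)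
    (part1 h3 hC hS hke' hk he' hu hv') (part1 h3 hC hS hke hk he hu hv)
  exact part1 h3 hC hS hne he he' hv hv' h5.symm

theorem part2 (h3 : S_M3) (h4 : S_M4) (hC : Cls1 G) (hn : 3 ≤ n) (hS : Sq G s n)
    (hW : WC G s n) {e e' : ℕ} {v v' f : V} (he : e < n) (he' : e' < n)
    (hv : v ∈ cV G s n e) (hv' : v' ∈ cV G s n e') (hf : f ∈ hF G s n) (h : G.Adj f v) :
    G.Adj f v' := by
  by_cases hne : e = e'
  · subst hne
    obtain ⟨k, hk, hke, -⟩ := third hn e e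
    obtain ⟨u, hu1, hu2⟩ := hW k hk
    have hu : u ∈ cV G s n k := ⟨hu1, hu2⟩
    exact part2a h3 h4 hC hn hS hW hke hk he hu hv' hf
      (part2a h3 h4 hC hn hS hW hke.symm he hk hv hu hf h)
  · exact part2a h3 h4 hC hn hS hW hne he he' hv hv' hf h

theorem part3 (hA : S_A0) (h3 : S_M3) (hC : Cls1 G) (hS : Sq G s n) {C : Set V} {e e' : ℕ}
    {v v' : V} (hK : IsComp G (cO G s n) C) (he : e < n) (he' : e' < n) (hv : v ∈ cV G s n e)
    (hv' : v' ∈ cV G s n e') (hn : v ∈ nb G C) (hn' : v' ∈ nb G C) : e = e' := by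
  by_contra hne
  have hCO : C ⊆ cO G s n := hK.1
  refine hC.1 (hA V G {v} C {v'} {s e, s e'} (Conn.singleton G v) hK.2.1 (Conn.singleton G v')
    (Conn.pair (hS e he e' he' hne)) ?_ ?_ ?_ ?_ ?_ ?_ ?_ ?_ ?_ ?_ ?_ ?_)
  · rw [Set.disjoint_left]
    rintro x rfl hx
    exact hn.1 hx
  · rw [Set.disjoint_left]
    rintro x rfl hx
    exact neVV hv hv' he hne hx
  · rw [Set.disjoint_left]
    rintro x rfl (hx | hx)
    · exact hv.1 e he hx
    · exact hv.1 e' he' hx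
  · rw [Set.disjoint_left]
    rintro x hx rfl
    exact hn'.1 hx
  · rw [Set.disjoint_left]
    rintro x hx (hx' | hx')
    · exact (hCO hx).1 e he hx'
    · exact (hCO hx).1 e' he' hx'
  · rw [Set.disjoint_left]
    rintro x rfl (hx | hx)
    · exact hv'.1 e he hx
    · exact hv'.1 e' he' hx
  · obtain ⟨a, ha, hav⟩ := hn.2
    exact ⟨v, rfl, a, ha, hav.symm⟩
  · obtain ⟨a, ha, hav⟩ := hn'.2
    exact ⟨a, ha, v', rfl, hav⟩
  · exact ⟨v', rfl, s e', Or.inr rfl, adjV hv' he'⟩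
  · exact ⟨v, rfl, s e, Or.inl rfl, adjV hv he⟩
  · rintro ⟨x, rfl, y, rfl, hxy⟩
    exact part1 h3 hC hS hne he he' hv hv' hxy
  · rintro ⟨x, hx, y, (rfl | rfl), hxy⟩
    · exact nadjO (hCO hx) he hxy
    · exact nadjO (hCO hx) he' hxy

theorem part4b (hA : S_A0) (hC : Cls1 G) (hn : 3 ≤ n) {C : Set V}
    {e : ℕ} {v f : V} (hK : IsComp G (cO G s n) C) (he : e < n) (hv : v ∈ cV G s n e)
    (hnb : v ∈ nb G C) (hf : f ∈ hF G s n) (h : ¬ G.Adj f v) {o : V} (ho : o ∈ C) :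
    ¬ G.Adj f o := by
  intro h'
  have hCO : C ⊆ cO G s n := hK.1
  obtain ⟨k, hk, hke, -⟩ := third hn e e
  refine hC.1 (hA V G {f} C {v} {s e} (Conn.singleton G f) hK.2.1 (Conn.singleton G v)
    (Conn.singleton G (s e)) ?_ ?_ ?_ ?_ ?_ ?_ ?_ ?_ ?_ ?_ ?_ ?_)
  · rw [Set.disjoint_left]
    rintro x rfl hx
    exact neFO hf (hCO hx) (by omega) rfl
  · rw [Set.disjoint_left]
    rintro x rfl hx
    exact neFV hf hv hk hke hx
  · rw [Set.disjoint_left]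
    rintro x rfl hx
    exact hf.1 e he hx
  · rw [Set.disjoint_left]
    rintro x hx rfl
    exact hnb.1 hx
  · rw [Set.disjoint_left]
    rintro x hx hx'
    exact (hCO hx).1 e he hx'
  · rw [Set.disjoint_left]
    rintro x rfl hx
    exact hv.1 e he hx
  · exact ⟨f, rfl, o, ho, h'⟩
  · obtain ⟨a, ha, hav⟩ := hnb.2
    exact ⟨a, ha, v, rfl, hav⟩
  · exact ⟨v, rfl, s e, rfl, adjV hv he⟩
  · exact ⟨f, rfl, s e, rfl, adjF hf he⟩
  · rintro ⟨x, rfl, y, rfl, hxy⟩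
    exact h hxy
  · rintro ⟨x, hx, y, rfl, hxy⟩
    exact nadjO (hCO hx) he hxy

theorem part4a (h0 : S_M0) (hA : S_A0) (h3 : S_M3) (h4 : S_M4) (hC : Cls1 G) (hn : 3 ≤ n)
    (hS : Sq G s n) (hW : WC G s n) {C : Set V} {e : ℕ} {v f : V}
    (hK : IsComp G (cO G s n) C) (he : e < n) (hv : v ∈ cV G s n e) (hnb : v ∈ nb G C)
    (hf : f ∈ hF G s n) (h : G.Adj f v) {o' : V} (ho' : o' ∈ C) : G.Adj f o' := by
  by_contra hfo'
  have hCO : C ⊆ cO G s n := hK.1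
  obtain ⟨P, hPA, hvP, hPc, hPn⟩ := exists_comp G (A := insert v {o | o ∈ C ∧ G.Adj f o})
    (v := v) (Or.inl rfl)
  have hPC : P ⊆ insert v C := by
    intro x hx
    rcases hPA hx with h1 | h1
    · exact Or.inl h1
    · exact Or.inr h1.1
  have hvC : Conn G (insert v C) := Conn.insert hK.2.1 hnb.2
  have hne : P ≠ insert v C := by
    rintro rfl
    rcases hPA (Or.inr ho') with h1 | h1
    · exact hnb.1 (h1 ▸ ho')
    · exact hfo' h1.2
  obtain ⟨b, hb, o, ⟨ho1, hoP⟩, hbo⟩ := hvC.2 P hPC ⟨v, hvP⟩ hne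
  have ho : o ∈ C := by
    rcases ho1 with rfl | ho1
    · exact absurd hvP hoP
    · exact ho1
  have hfo : ¬ G.Adj f o := fun h1 =>
    hPn o (Or.inr ⟨ho, h1⟩) ⟨hoP, b, hb, hbo⟩
  obtain ⟨e₁, he₁, hee, -⟩ := third hn e e
  obtain ⟨k, hk, hke, hke₁⟩ := third hn e e₁
  obtain ⟨v₁, hv1, hv2⟩ := hW e₁ he₁
  have hv₁ : v₁ ∈ cV G s n e₁ := ⟨hv1, hv2⟩
  have hv₁C : ∀ c ∈ C, ¬ G.Adj v₁ c := fun c hc h1 =>
    hee (part3 hA h3 hC hS hK he₁ he hv₁ hv
      ⟨fun h2 => neVO hv₁ he₁ (hCO h2) rfl, c, hc, h1.symm⟩ hnb)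
  have hv₁v : v₁ ≠ v := neVV hv₁ hv he₁ hee
  have hsC : ∀ i, i < n → s i ∉ insert v C := by
    rintro i hi (h1 | h1)
    · exact hv.1 i hi h1.symm
    · exact (hCO h1).1 i hi rfl
  have hfC : f ∉ insert v C := by
    rintro (h1 | h1)
    · exact neFV hf hv hk hke h1
    · exact neFO hf (hCO h1) (by omega) rfl
  refine hC.2 (h0 V G {f} P {s e} v₁ o (s k) (Conn.singleton G f) hPc (Conn.singleton G (s e))
    ?_ ?_ ?_ ?_ ?_ ?_ ?_ hoP ?_ ?_ ?_ ?_ ?_ ?_ ?_ ?_ ?_ ?_ ?_ ?_ ?_ ?_ ?_ ?_ ?_ ?_ ?_)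
  · rw [Set.disjoint_left]
    rintro x rfl hx
    exact hfC (hPC hx)
  · rw [Set.disjoint_left]
    rintro x rfl hx
    exact hf.1 e he hx
  · rw [Set.disjoint_left]
    rintro x hx rfl
    exact hsC e he (hPC hx)
  · rintro rfl
    exact neFV hf hv₁ he hee.symm rfl
  · intro h1
    rcases hPC h1 with h2 | h2
    · exact hv₁v h2
    · exact neVO hv₁ he₁ (hCO h2) rfl
  · exact fun h1 => hv₁.1 e he h1
  · rintro rfl
    exact neFO hf (hCO ho) (by omega) rfl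
  · exact fun h1 => (hCO ho).1 e he h1
  · exact fun h1 => hf.1 k hk (Eq.symm h1)
  · exact fun h1 => hsC k hk (hPC h1)
  · exact fun h1 => (hS k hk e he hke).ne h1
  · exact ⟨f, rfl, v, hvP, h⟩
  · exact ⟨f, rfl, s e, rfl, adjF hf he⟩
  · exact ⟨v, hvP, s e, rfl, adjV hv he⟩
  · exact ⟨f, rfl, (part2 h3 h4 hC hn hS hW he he₁ hv hv₁ hf h).symm⟩
  · intro p hp
    rcases hPC hp with h2 | h2
    · rw [h2]
      exact part1 h3 hC hS hee he₁ he hv₁ hv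
    · exact hv₁C p h2
  · rintro p rfl
    exact nadjV hv₁ he hee.symm
  · exact ⟨b, hb, hbo.symm⟩
  · rintro p rfl h1
    exact hfo h1.symm
  · rintro p rfl
    exact nadjO (hCO ho) he
  · exact ⟨f, rfl, (adjF hf hk).symm⟩
  · exact ⟨s e, rfl, hS k hk e he hke⟩
  · intro p hp h1
    rcases hPC hp with h2 | h2
    · rw [h2] at h1
      exact nadjV hv hk hke h1.symm
    · exact nadjO (hCO h2) hk h1.symm
  · exact hv₁C o ho
  · exact nadjV hv₁ hk hke₁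
  · exact nadjO (hCO ho) hk

end cm1Aux

open cm1Aux in
theorem pfCM1 (h0 : S_M0) (hA : S_A0) (h3 : S_M3) (h4 : S_M4) : S_CM1 := by
  intro V _ G s n hC hn hS hT
  have hW : WC G s n := hT.2
  refine ⟨fun e e' v v' hne he he' hv hv' => part1 h3 hC hS hne he he' hv hv',
    fun e e' v v' f he he' hv hv' hf => ⟨part2 h3 h4 hC hn hS hW he he' hv hv' hf,
      part2 h3 h4 hC hn hS hW he' he hv' hv hf⟩,
    fun C e e' v v' hK he he' hv hv' h1 h2 => part3 hA h3 hC hS hK he he' hv hv' h1 h2,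
    fun C e v f hK he hv h1 hf =>
      ⟨fun h o ho => part4a h0 hA h3 h4 hC hn hS hW hK he hv h1 hf h ho,
        fun h o ho => part4b hA hC hn hK he hv h1 hf h ho⟩⟩

end Pool.Agent.MPd439b2.H1
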