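import Pool.Agent.Lib.MP_d439b2_co.L4.Spec1

/-!
# MP_d439b2_co, column `C_4`, the row `K3:0,1,02`: Spec 1, models, linked cliques, regularization

`H1 = K3:0,1,02` is the triangle `0, 1, 2` with three more pairwise non-adjacent vertices `x ~ 0`, `y ~ 1`,
`z ~ 0, 2`, the graph `KA 3 3 ![{0}, {1}, {0, 2}]`.

Every `S_...` is a statement to be proved in its own file; the docstring contains the complete
proof.  `a ~ b` means `G.Adj a b`, `a ≁ b` its negation.

For a sequence `s 0, ..., s (n - 1)` of pairwise adjacent vertices (`Sq G s n`) and a vertex `v` outside (`Ot s n v`)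
`Tr G s n v` is the set of the indices `i < n` with `v ≁ s i`: the missed set.
-/

set_option autoImplicit false

namespace Pool.Agent.MPd439b2.H1

open Pool.Agent.MPd439b2 Pool.Agent.MPd439b2.LK

/-- chordal graphs without `K3:0,1,02` -/
def Cls1 {V : Type} (G : SimpleGraph V) : Prop :=
  Chd G ∧ ¬ IMS (KA 3 3 ![{0}, {1}, {0, 2}]) G Set.univ

/-- `J` is linked with constant `q` -/
def Lk {V : Type} (G : SimpleGraph V) (J : Set V) (q : ℕ) : Prop :=
  ∀ X : Set V, (J ∩ X).ncard ≤ q * cr G X ∨ (J \ X).ncard ≤ q * cr G X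

/-- `s 0, ..., s (n - 1)` are pairwise adjacent -/
def Sq {V : Type} (G : SimpleGraph V) (s : ℕ → V) (n : ℕ) : Prop :=
  ∀ i, i < n → ∀ j, j < n → i ≠ j → G.Adj (s i) (s j)

/-- `v` is none of the vertices `s 0, ..., s (n - 1)` -/
def Ot {V : Type} (s : ℕ → V) (n : ℕ) (v : V) : Prop := ∀ i, i < n → v ≠ s i

/-- the missed set of `v` -/
def Tr {V : Type} (G : SimpleGraph V) (s : ℕ → V) (n : ℕ) (v : V) : Set ℕ :=
  {i | i < n ∧ ¬ G.Adj v (s i)}

/-- the vertices of the sequence -/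
def rg {V : Type} (s : ℕ → V) (n : ℕ) : Set V := {v | ∃ i, i < n ∧ v = s i}

/-- all single missed sets occur -/
def WM {V : Type} (G : SimpleGraph V) (s : ℕ → V) (n : ℕ) : Prop :=
  ∀ e, e < n → ∃ v, Ot s n v ∧ Tr G s n v = {e}

/-- all co-single missed sets occur -/
def WC {V : Type} (G : SimpleGraph V) (s : ℕ → V) (n : ℕ) : Prop :=
  ∀ e, e < n → ∃ v, Ot s n v ∧ Tr G s n v = {i | i < n ∧ i ≠ e}

/-- all initial segments occur as missed sets -/
def WI {V : Type} (G : SimpleGraph V) (s : ℕ → V) (n : ℕ) : Prop :=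
  ∀ p, 1 ≤ p → p < n → ∃ v, Ot s n v ∧ Tr G s n v = {i | i < p}

/-- type (M): every missed set is empty, everything, or a single element, and all of these occur -/
def TyM {V : Type} (G : SimpleGraph V) (s : ℕ → V) (n : ℕ) : Prop :=
  (∀ v, Ot s n v → Tr G s n v = ∅ ∨ Tr G s n v = {i | i < n} ∨ ∃ e, e < n ∧ Tr G s n v = {e}) ∧
    WM G s n

/-- type (CM): empty, everything, everything except one element -/
def TyC {V : Type} (G : SimpleGraph V) (s : ℕ → V) (n : ℕ) : Prop :=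
  (∀ v, Ot s n v → Tr G s n v = ∅ ∨ Tr G s n v = {i | i < n} ∨
    ∃ e, e < n ∧ Tr G s n v = {i | i < n ∧ i ≠ e}) ∧ WC G s n

/-- type (CH), pure: initial segments -/
def TyI {V : Type} (G : SimpleGraph V) (s : ℕ → V) (n : ℕ) : Prop :=
  (∀ v, Ot s n v → ∃ p, p ≤ n ∧ Tr G s n v = {i | i < p}) ∧ WI G s n

/-- type (CH) with singletons: initial segments and single elements -/
def TyIS {V : Type} (G : SimpleGraph V) (s : ℕ → V) (n : ℕ) : Prop :=
  (∀ v, Ot s n v → (∃ p, p ≤ n ∧ Tr G s n v = {i | i < p}) ∨ ∃ e, e < n ∧ Tr G s n v = {e}) ∧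
    WI G s n ∧ WM G s n

/-- the missed sets are laminar -/
def LamT {V : Type} (G : SimpleGraph V) (s : ℕ → V) (n : ℕ) : Prop :=
  ∀ u, Ot s n u → ∀ w, Ot s n w → Tr G s n u ⊆ Tr G s n w ∨ Tr G s n w ⊆ Tr G s n u ∨
    Disjoint (Tr G s n u) (Tr G s n w)

/-! ## models -/

/-- **M0.** The general model of `K3:0,1,02`.

Proof. `Sum.inl 0, 1, 2 ↦ P0, P1, P2`, `Sum.inr 0, 1, 2 ↦ {x}, {y}, {z}`.  `x ≠ y` since `x` touches `P0` and `y` does not,
`y ≠ z`: `P1`, `x ≠ z`: `P2`. -/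
def S_M0 : Prop := ∀ (V : Type) (G : SimpleGraph V) (P0 P1 P2 : Set V) (x y z : V), Conn G P0 →
  Conn G P1 → Conn G P2 → Disjoint P0 P1 → Disjoint P0 P2 → Disjoint P1 P2 →
  x ∉ P0 → x ∉ P1 → x ∉ P2 → y ∉ P0 → y ∉ P1 → y ∉ P2 → z ∉ P0 → z ∉ P1 → z ∉ P2 →
  Tch G P0 P1 → Tch G P0 P2 → Tch G P1 P2 → (∃ p ∈ P0, G.Adj x p) → (∀ p ∈ P1, ¬ G.Adj x p) →
  (∀ p ∈ P2, ¬ G.Adj x p) → (∃ p ∈ P1, G.Adj y p) → (∀ p ∈ P0, ¬ G.Adj y p) →
  (∀ p ∈ P2, ¬ G.Adj y p) → (∃ p ∈ P0, G.Adj z p) → (∃ p ∈ P2, G.Adj z p) →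
  (∀ p ∈ P1, ¬ G.Adj z p) → ¬ G.Adj x y → ¬ G.Adj x z → ¬ G.Adj y z →
  IMS (KA 3 3 ![{0}, {1}, {0, 2}]) G Set.univ

/-- **M1.** The vertex model: `0` is the set `{a, a'}` (one vertex if `a = a'`), `1 = {b}`, `2 = {c}`.  (Uses `S_M0`.)

Proof. M0 with `P0 = {a, a'}`, `P1 = {b}`, `P2 = {c}`.  `b ≠ a, a'` (`y ~ b`, `y ≁ a, a'`), `b ≠ c` (adjacent), `x ≠ b` (`y ~ b`,
`x ≁ y`), `x ≠ c` (`z ~ c`, `x ≁ z`), `y ≠ b` (adjacent), `y ≠ c` (`z ~ c`, `y ≁ z`), `z ≠ b` (`y ~ b`), `z ≠ c`; `y ≠ a`: if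
`y = a` then `y ≁ a'` gives `a = a' = y`, so `x ~ y`: contradiction; the same for `a'`. -/
def S_M1 : Prop := ∀ (V : Type) (G : SimpleGraph V) (a a' b c x y z : V), (a = a' ∨ G.Adj a a') →
  (G.Adj b a ∨ G.Adj b a') → (G.Adj c a ∨ G.Adj c a') → G.Adj b c → c ≠ a → c ≠ a' → x ≠ a →
  x ≠ a' → z ≠ a → z ≠ a' → (G.Adj x a ∨ G.Adj x a') → ¬ G.Adj x b → ¬ G.Adj x c → G.Adj y b →
  ¬ G.Adj y a → ¬ G.Adj y a' → ¬ G.Adj y c → (G.Adj z a ∨ G.Adj z a') → G.Adj z c → ¬ G.Adj z b →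
  ¬ G.Adj x y → ¬ G.Adj x z → ¬ G.Adj y z → IMS (KA 3 3 ![{0}, {1}, {0, 2}]) G Set.univ

/-- **M2.** No four-cycles.  (Uses `S_A0` of `L4/Spec1`.)

Proof. A0 with the four singletons. -/
def S_M2 : Prop := ∀ (V : Type) (G : SimpleGraph V) (a b c d : V), Chd G → G.Adj a b → G.Adj b c →
  G.Adj c d → G.Adj d a → a ≠ c → b ≠ d → G.Adj a c ∨ G.Adj b d

/-- **M3.** Adjacent vertices have nested missed sets; vertices whose missed sets are not nested are not
adjacent.  (Uses `S_M2`.)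

Proof. `i ∈ Tr u \ Tr v`, `j ∈ Tr v \ Tr u`: `u ~ v`, `v ~ s i`, `s i ~ s j` (`i ≠ j`), `s j ~ u`; `u ≁ s i`, `v ≁ s j`. -/
def S_M3 : Prop := ∀ (V : Type) (G : SimpleGraph V) (s : ℕ → V) (n : ℕ) (u v : V), Chd G → Sq G s n →
  Ot s n u → Ot s n v → G.Adj u v → Tr G s n u ⊆ Tr G s n v ∨ Tr G s n v ⊆ Tr G s n u

/-- **M4.** The clique model (rule T).  (Uses `S_M1`.)

Proof. M1: `a, a', b, c` are elements of the clique `K`, `b ≠ a` because `y ~ b`, `y ≁ a`, etc. -/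
def S_M4 : Prop := ∀ (V : Type) (G : SimpleGraph V) (K : Set V) (a a' b c x y z : V), Cls1 G →
  CompleteOn G K → a ∈ K → a' ∈ K → b ∈ K → c ∈ K → x ∉ K → y ∉ K → z ∉ K → c ≠ a' →
  G.Adj x a → ¬ G.Adj x b → ¬ G.Adj x c → G.Adj y b → ¬ G.Adj y a → ¬ G.Adj y a' → ¬ G.Adj y c →
  G.Adj z a' → G.Adj z c → ¬ G.Adj z b → ¬ G.Adj x y → ¬ G.Adj x z → G.Adj y z

/-- **M5.** A connected set which is complete to `k₂` and touches `k₁` is complete to `k₁`.  (Uses `S_M1`.)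

Proof. Otherwise `D = {c ∈ C | c ≁ k₁}` is neither empty nor `C`; there are `d ∈ D`, `c' ∈ C \ D` with `d ~ c'` (`Conn`).
M1 with `a = a' = k₂`, `b = k₁`, `c = c'`, `x := y`, `y := x`, `z = d`: `y ~ k₂`, `y ≁ k₁, c'`; `x ~ k₁`, `x ≁ k₂, c'`;
`d ~ k₂, c'`, `d ≁ k₁`. -/
def S_M5 : Prop := ∀ (V : Type) (G : SimpleGraph V) (C : Set V) (k₁ k₂ x y : V), Cls1 G → Conn G C →
  k₁ ∉ C → k₂ ∉ C → x ∉ C → y ∉ C → G.Adj k₁ k₂ → (∀ c ∈ C, ¬ G.Adj x c) → (∀ c ∈ C, ¬ G.Adj y c) →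
  ¬ G.Adj x y → G.Adj x k₁ → ¬ G.Adj x k₂ → G.Adj y k₂ → ¬ G.Adj y k₁ → (∃ c ∈ C, G.Adj c k₁) →
  (∀ c ∈ C, G.Adj c k₂) → ∀ c ∈ C, G.Adj c k₁

/-! ## linked cliques -/

/-- **K1.** The abstract layout, linear version.  (Uses `S_A4` of `L4/Spec1`.)

Proof. As A5 (`L4/A5.lean`): strong induction on `|U|`; for `f U = q` take `B` (`|B| = q`) from A4, `P` from the
hypothesis and A4 with `c := f P`. -/
def S_K1 : Prop := ∀ (α : Type) [Finite α] (E : Set α) (f : Set α → ℕ) (q : ℕ), CF E f → 1 ≤ q →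
  (∀ B ⊆ E, B.ncard = q → ∃ P ⊆ E, 2 * f P < (B ∩ P).ncard ∧ 2 * f P < (B \ P).ncard) →
    ∀ U ⊆ E, f U ≤ q → ALay f q U

/-- **K2.** Layouts if there is no linked set of size `q`.  (Uses `S_A2`, `S_A3`, `S_K1`.)

Proof. As A6 (`L4/A6.lean`) with K1 instead of A5; `¬ Lk G B 2` gives `X` with `2 * cr G X < |B ∩ X|` and
`2 * cr G X < |B \ X|`. -/
def S_K2 : Prop := ∀ (V : Type) [Finite V] (G : SimpleGraph V) (q : ℕ), 1 ≤ q →
  (∀ B : Set V, B.ncard = q → ¬ Lk G B 2) → Lay G (2 ^ q) Set.univ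

/-- the smallest cut-rank of a set which contains `S` and is disjoint from `J` -/
noncomputable def mr {V : Type} (G : SimpleGraph V) (S J : Set V) : ℕ :=
  sInf {r | ∃ X : Set V, S ⊆ X ∧ Disjoint X J ∧ cr G X = r}

/-- **K3.** `mr G S` is the rank function of a matroid on the complement of `S`.  (Uses `S_A2`.)

Proof. For `J` disjoint from `S` the set in the definition is nonempty (`X = S`), so the minimum is attained
(`Nat.sInf_mem`); `mr ≤ cr G X` for every admissible `X` (`Nat.sInf_le`): (1), (2).  (3) Monotone: an admissible set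
for `J'` is admissible for `J ⊆ J'`.  (4) `mr ∅ = 0` by `X = univ`.  (5) Submodular: take `X`, `Y` for `J`, `J'`: `X ∩ Y` is
admissible for `J ∪ J'`, `X ∪ Y` for `J ∩ J'`, and `cr` is submodular (A2).  (6) `mr (insert v J) ≤ mr J + 1`:
`X \ {v}` is admissible (`v ∉ S`), `cr G (X \ {v}) = cr G (Xᶜ ∪ {v}) ≤ cr G Xᶜ + cr G {v} ≤ cr G X + 1`.
(7) Let `U` be disjoint from `S`.  Call `J ⊆ U` independent if `mr J' = |J'|` for all `J' ⊆ J`.  Let `J` be independent of
maximal size (`∅` is independent).  CLAIM: `mr (J ∪ {v}) = mr J` for `v ∈ U \ J`.  Otherwise `mr (J ∪ {v}) = |J| + 1`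
by (6).  Let `J' ⊆ J`: `mr (J' ∪ {v}) + mr J ≥ mr (J ∪ {v}) + mr J'` by (5) (`(J' ∪ {v}) ∪ J = J ∪ {v}`,
`(J' ∪ {v}) ∩ J = J'`), so `mr (J' ∪ {v}) ≥ |J'| + 1`, with equality by (6): `J ∪ {v}` is independent, contradiction.
By induction (5) gives `mr (J ∪ W) = mr J` for all `W ⊆ U` (`mr (J ∪ W ∪ {v}) + mr J ≤ mr (J ∪ W) + mr (J ∪ {v})`
for `v ∉ J ∪ W`), so `mr U = |J|`. -/
def S_K3 : Prop := ∀ (V : Type) [Finite V] (G : SimpleGraph V) (S : Set V),
  (∀ J, Disjoint S J → ∃ X, S ⊆ X ∧ Disjoint X J ∧ cr G X = mr G S J) ∧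
  (∀ J X, S ⊆ X → Disjoint X J → mr G S J ≤ cr G X) ∧
  (∀ J J', J ⊆ J' → Disjoint S J' → mr G S J ≤ mr G S J') ∧
  mr G S ∅ = 0 ∧
  (∀ J J', Disjoint S J → Disjoint S J' →
    mr G S (J ∩ J') + mr G S (J ∪ J') ≤ mr G S J + mr G S J') ∧
  (∀ J v, Disjoint S J → v ∉ S → mr G S (insert v J) ≤ mr G S J + 1) ∧
  ∀ U, Disjoint S U → ∃ J ⊆ U, J.ncard = mr G S U ∧ ∀ J' ⊆ J, mr G S J' = J'.ncard

/-- **K4.** Independent sets are linked.  (Uses `S_A1`, `S_A2`, `S_K3`.)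

Proof. Let `X` be given.  `S` is linked: `|S \ X| ≤ q * cr G X` or `|S ∩ X| ≤ q * cr G X`.  In the first case
`cr G (X ∪ S) ≤ cr G X + cr G (S \ X) ≤ cr G X + |S \ X| ≤ (q + 1) * cr G X` (`cr G A ≤ |A|`: A1 (4)), and `X ∪ S`
contains `S` and is disjoint from `J \ X` (`J` is disjoint from `S`), so `|J \ X| = mr G S (J \ X) ≤ (q + 1) * cr G X`.
In the second case the same for `Xᶜ` (`cr G Xᶜ = cr G X`): `|J ∩ X| ≤ (q + 1) * cr G X`. -/
def S_K4 : Prop := ∀ (V : Type) [Finite V] (G : SimpleGraph V) (S J : Set V) (q : ℕ), Lk G S q →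
  Disjoint S J → (∀ J' ⊆ J, mr G S J' = J'.ncard) → Lk G J (q + 1)

/-- **A13.** Linked cliques.  (Uses `S_A1`, `S_A2`, `S_A8`, `S_A11` of `L4/Spec1` and `S_K2`, `S_K3`, `S_K4`.)

Proof. If `n = 0` the hypothesis is contradictory (`J = ∅` is linked).  Let `M = 16 n + 1`, `k = 2 ^ M`.  Suppose that
`Lay G k univ` is false.  By K2 there is `B`, `|B| = M`, `Lk G B 2`.  A8 gives a clique `K` with
`2 * |B ∩ C| ≤ |B|` for all components `C` of `G[Kᶜ]`.  Subsets of linked sets are linked, and `Lk J 2` implies `Lk J 3`.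
CASE 1: `|B ∩ K| ≥ n`: a subset of `B ∩ K` with `n` elements is a clique `J` with `Lk G J 3`.
CASE 2: `|B ∩ K| < n`, `mr G B (K \ B) ≥ n`: K3 (7) gives an independent `J ⊆ K \ B` with at least `n` elements, take
a subset with `n` elements; K4: `Lk G J 3`.
CASE 3: `|B ∩ K| < n`, `mr G B (K \ B) < n`: K3 (1) gives `X₀ ⊇ B` disjoint from `K \ B`, `cr G X₀ < n`.
`V' = X₀ \ (B ∩ K)` is disjoint from `K`, `cr G V' = cr G (X₀ᶜ ∪ (B ∩ K)) ≤ cr G X₀ + |B ∩ K| ≤ 2 n`, `|B \ V'| < n`.  A11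
with `c = 2 n` gives `P` with `cr G P ≤ 2 n` and more than `4 n` elements of `B` on both sides: contradiction to
`Lk G B 2`. -/
def S_A13 : Prop := ∀ n : ℕ, ∃ k : ℕ, ∀ (V : Type) [Finite V] (G : SimpleGraph V), Chd G →
  (∀ J, CompleteOn G J → J.ncard = n → ¬ Lk G J 3) → Lay G k Set.univ

/-! ## regularization -/

/-- **R0.** Ramsey's theorem for triples.

Proof. From `Pool.Agent.Lib.MP_577a3c26_an.ramsey` (file `Pool/Agent/Lib/MP_577a3c26_an/Ramsey.lean`, `k = 3`): for a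
three-element set `D = {a < b < c}` of natural numbers let `f D = χ a b c`; `s k` is the `k`-th element of `H`
(`Finset.orderEmbOfFin`).  If `κ` is empty there is no `χ`. -/
def S_R0 : Prop := ∀ (κ : Type) [Finite κ] (m : ℕ), ∃ N : ℕ, ∀ χ : ℕ → ℕ → ℕ → κ,
  ∃ (s : ℕ → ℕ) (c : κ), (∀ k l, k < l → l < m → s k < s l) ∧ (∀ k, k < m → s k < N) ∧
    ∀ i j k, i < j → j < k → k < m → χ (s i) (s j) (s k) = c

/-- **RP.** Ramsey's theorem for ordered pairs.

Proof. This is `ramC` of `Pool/Agent/Lib/MP_d439b2_co/W/RamC.lean` (statement `S_RamC` of `W/SpecE.lean`). -/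
def S_RP : Prop := ∀ (κ : Type) [Finite κ] (m : ℕ), ∃ N : ℕ, ∀ χ : ℕ → ℕ → κ,
  ∃ (s : ℕ → ℕ) (c : κ), (∀ k l, k < l → l < m → s k < s l) ∧ (∀ k, k < m → s k < N) ∧
    ∀ k l, k < l → l < m → χ (s k) (s l) = c

/-- **R1.** Halving.  (Uses `S_A1`.)

Proof. CLAIM: for every `k` and `T ⊆ S` with `2 ^ k * (q + 1) ≤ |T|` and `q < |S \ T|` there are such sequences with
`b i ∈ T`.  Induction on `k`.  `k = 0`: nothing to show (`T` is not empty; take constant sequences).  `k + 1`: some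
vertex `v ∉ S` sees an element of `T` and misses another one: otherwise every vertex outside `T` sees everything or
nothing of `T` (the elements of `S \ T` see everything), `cr G T ≤ 1` (A1 (1), (5)), `|S ∩ T| = |T| > q`,
`|S \ T| > q`: contradiction to `Lk G S q`.  One of the two sets `T ∩ N(v)`, `T \ N(v)` has at least `|T| / 2`
elements, call it `T'`; `b 0` is an element of the other one, `v 0 = v`, and the rest is given by the induction
hypothesis for `T'` (shifted by one).  `N = 2 ^ k * (q + 1) + q + 1`; take `T ⊆ S` with `2 ^ k * (q + 1)` elements. -/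
def S_R1 : Prop := ∀ q k : ℕ, ∃ N : ℕ, ∀ (V : Type) [Finite V] (G : SimpleGraph V) (S : Set V),
  CompleteOn G S → Lk G S q → N ≤ S.ncard → ∃ b v : ℕ → V, (∀ i, i < k → b i ∈ S) ∧
    (∀ i j, i < j → j < k → b i ≠ b j) ∧ (∀ i, i < k → v i ∉ S) ∧
    ∀ i, i < k → (¬ G.Adj (v i) (b i) ∧ ∀ j, i < j → j < k → G.Adj (v i) (b j)) ∨
      (G.Adj (v i) (b i) ∧ ∀ j, i < j → j < k → ¬ G.Adj (v i) (b j))

/-- **R2.** Witnesses of one type.  (Uses `S_R1`, `S_RP`.)

Proof. `k` from RP for `κ = Bool × Bool`, `m = n + 1`; `N` from R1 for `q`, `k`.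
`χ i j = (v i ≁ b i, v j ~ b i)` for `i < j`.  RP gives `σ` and the colour `(c₁, c₂)`; `s₀ i = b (σ i)`, `w i = v (σ i)`,
`i < n` (the pair `(i, n)` shows that `c₁` is the type of `w i` for all `i < n`).  `w i ∉ S`.
`c₁` true, `c₂` true: `Tr (w i) = {i}`: `WM`.  `c₁` true, `c₂` false: `Tr (w i) = {j | j ≤ i}`: `WI`, take `w (p - 1)`.
`c₁` false, `c₂` false: `w i` sees only `s₀ i`: `WC`.  `c₁` false, `c₂` true: `w i` misses exactly the later elements;
with `s i = s₀ (n - 1 - i)` the vertex `w (n - 1 - p)` misses exactly `{i | i < p}`: `WI`. -/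
def S_R2 : Prop := ∀ q n : ℕ, ∃ N : ℕ, ∀ (V : Type) [Finite V] (G : SimpleGraph V) (S : Set V),
  CompleteOn G S → Lk G S q → N ≤ S.ncard → ∃ s : ℕ → V, (∀ i, i < n → s i ∈ S) ∧ Sq G s n ∧
    (WM G s n ∨ WC G s n ∨ WI G s n)

/-- **R3.** Co-single witnesses.  (Uses `S_M2`, `S_M3`, `S_M4`.)

Proof. `N = n + 1 ≥ 6`; `K = rg s N`.  `v i` is a witness, `Tr (v i) = {j | j < N ∧ j ≠ i}` (it sees only `s i`).  `v i`, `v j`
(`i ≠ j`) are not adjacent (M3).
(1) There is no `w` (outside) with two elements `i ≠ j` in `Tr w` and two indices `k ≠ l` not in `Tr w`: `w` is not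
adjacent to `v i`, `v j` (M3: `i ∈ Tr w \ Tr (v i)`, `k ∈ Tr (v i) \ Tr w`).  M4 with `a = s j`, `a' = s l`, `b = s i`,
`c = s k`, `x = v j`, `y = v i`, `z = w` (`y`, `z` not adjacent): contradiction.
(2) If `Tr w = {i}` then `w ~ v j` for `j ≠ i`: otherwise let `k ≠ i, j`; M4 with `a = a' = s j`, `b = s i`, `c = s k`,
`x = v j`, `y = v i`, `z = w` (`w` and `v i` are not adjacent by M3).
(3) There is at most one `i` such that some `w` has `Tr w = {i}`: if `Tr w = {i}`, `Tr w' = {i'}`, `i ≠ i'`, let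
`j ≠ i, i'` and `k ≠ i, i', j`; `w ≁ w'` (M3); `w, v j, w', s k` is a four-cycle (M2), `v j ≁ s k`.
(4) Let `i₀` be this index (or `0`), `t` the increasing enumeration of the indices `≠ i₀`
(`t i = if i < i₀ then i else i + 1`).  A vertex outside `s ∘ t` is `s i₀` (it sees everything) or outside `s`; then by
(1) its missed set has at most one element or misses at most one index (is everything, everything except one
element, empty, or a single element, which is `i₀`).  Restrict to the indices `t i`. -/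
def S_R3 : Prop := ∀ (V : Type) (G : SimpleGraph V) (s : ℕ → V) (n : ℕ), Cls1 G → 5 ≤ n →
  Sq G s (n + 1) → WC G s (n + 1) → ∃ t : ℕ → ℕ, (∀ i j, i < j → j < n → t i < t j) ∧
    (∀ i, i < n → t i < n + 1) ∧ TyC G (fun i => s (t i)) n

/-- **R4.** Single witnesses: the missed sets are laminar, with one exception.  (Uses `S_M1`, `S_M2`, `S_M3`,
`S_M4`.)

Proof. Write `m u = Tr G s n u`.  Single: `m v = {i}`.  Singles `v, v'` with different indices are not adjacent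
(M3).  (i) If `u ~ v`, `u ~ v'` for singles `v`, `v'` with indices `i ≠ k` then `m u ⊆ {i, k}`: otherwise `b ∈ m u`,
`b ≠ i, k`, and `u, v, s b, v'` is a four-cycle (M2).
(ii) Let `m u`, `m w` be not nested and not disjoint: `r ∈ m u ∩ m w`, `i ∈ m u \ m w`, `j ∈ m w \ m u`.  `u ≁ w` (M3).
Every single `v` of index `i` is adjacent to `u`: `v ≁ w` by M3 (`i ∉ m w`, `j ∈ m w \ {i}`), so otherwise M4 with
`a = a' = s j`, `b = s i`, `c = s r`, `x = u`, `y = w`, `z = v` gives a contradiction.  By symmetry every single of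
index `j` is adjacent to `w`.
(iii) `m u \ m w = {i}`: if `i' ≠ i` is also in it, then `u` is adjacent to the singles of index `i` and `i'`, so
`r ∈ m u ⊆ {i, i'}` by (i), contradiction.  The same for `j`.
(iv) `m u ∩ m w = {r}`: suppose `r' ≠ r` is also in it.  Since `n ≥ 5` there is `k < n` different from `i, j, r, r'`;
it is in both sets or in none of them.  Let `v_i`, `v_k` be singles.  `v_k ≁ u`: if `k ∉ m u` by M3 (`i ∈ m u`), if `k ∈ m u`
by (i) (`u ~ v_i`; `r ∉ {i, k}`).  In the same way `v_k ≁ w`.  M1 with `a = s r`, `a' = s i`, `b = v_i`, `c = s r'`, `x = w`,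
`y = u`, `z = v_k`: `b ~ s r, s r'`; `w ~ s i`, `w ≁ v_i` (M3), `w ≁ s r'`; `u ~ v_i`, `u ≁ s r, s i, s r'`;
`v_k ~ s r`, `v_k ~ s r'`, `v_k ≁ v_i`.  Contradiction. -/
def S_R4 : Prop := ∀ (V : Type) (G : SimpleGraph V) (s : ℕ → V) (n : ℕ), Cls1 G → 5 ≤ n → Sq G s n →
  WM G s n → ∀ u, Ot s n u → ∀ w, Ot s n w → Tr G s n u ⊆ Tr G s n w ∨ Tr G s n w ⊆ Tr G s n u ∨
    Disjoint (Tr G s n u) (Tr G s n w) ∨ ∃ i j r, i ≠ j ∧ i ≠ r ∧ j ≠ r ∧ Tr G s n u = {i, r} ∧
      Tr G s n w = {j, r} ∧ (∀ v, Ot s n v → Tr G s n v = {i} → G.Adj u v) ∧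
      ∀ v, Ot s n v → Tr G s n v = {j} → G.Adj w v

/-- **R5.** Laminar missed sets.  (Uses `S_M1`, `S_M3`, `S_R4`, `S_RP`.)

Proof. We may assume `n' ≥ 5` (restrict a longer sequence: `t` for `max n' 5` works for `n'`, see the last
paragraph).  `n ≥ 5` from RP for `κ = Bool`, `m = n'`; `χ a b` = (there is `u`, outside, with `Tr u = {a, b}`).  RP
gives `t` and the colour.
The colour true is impossible: let `i, j, k, l` be `t 0, t 1, t 2, t 3`, `u_ik`, `u_il`, `u_kl` vertices with these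
missed sets and `v_i, v_j, v_k, v_l` singles.  R4 for the pair `u_ik`, `u_kl` (not nested, not disjoint): `u_ik ~ v_i`;
for `u_il`, `u_kl`: `u_il ~ v_i`; for `u_il`, `u_ik`: `u_il ~ v_l`.  M1 with `a = a' = s k`, `b = v_i`, `c = u_il`,
`x = v_j`, `y = u_ik`, `z = v_l`: `v_i ~ s k`, `u_il ~ s k`; `v_j ~ s k`, `v_j ≁ v_i, u_il` (M3); `u_ik ~ v_i`,
`u_ik ≁ s k`, `u_ik ≁ u_il` (M3); `v_l ~ s k, u_il`, `v_l ≁ v_i`; `v_j, u_ik, v_l` are not adjacent (M3).
So no vertex has the missed set `{t a, t b}`, `a ≠ b < n'`.  `WM` for `s ∘ t`: the single of index `t e`.  Laminar: let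
`u, w` be outside `s ∘ t`.  If one of them is an `s j` its missed set on `s ∘ t` is empty.  Otherwise both are outside
`s`; nested or disjoint missed sets remain so; in the exceptional case of R4, `Tr u = {i, r}`, `Tr w = {j, r}`: if
`r = t c` then `i, j` are not values of `t` (on indices `< n'`) and both missed sets on `s ∘ t` are `{c}`; otherwise
the missed sets are contained in `{a}`, `{b}`, `t a = i`, `t b = j`, so they are disjoint. -/
def S_R5 : Prop := ∀ n' : ℕ, ∃ n : ℕ, ∀ (V : Type) (G : SimpleGraph V) (s : ℕ → V), Cls1 G →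
  Sq G s n → WM G s n → ∃ t : ℕ → ℕ, (∀ i j, i < j → j < n' → t i < t j) ∧
    (∀ i, i < n' → t i < n) ∧ WM G (fun i => s (t i)) n' ∧ LamT G (fun i => s (t i)) n'

/-- **R6.** From laminar missed sets to the types (M) and (CH) with singletons.  (Uses `S_R0`.)

Proof. `L = max n' 4`; `n` from R0 for `κ = Bool × Bool × Bool`, `m = L`.  The colour of `a < b < c` says which of the
patterns 011, 101, 110 occur, 011: there is a vertex outside `s` which sees `s a` and misses `s b`, `s c`, etc.  R0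
gives `t`; restrict everything to `s ∘ t` (length `L`); a vertex `s j` sees everything, so it realizes no pattern; the
missed sets `m u` on `s ∘ t` are laminar.
101 does not occur: otherwise `u ∋ 0, 2`, `1 ∉ m u`; `u' ∋ 1, 3`, `2 ∉ m u'`; `w ∋ 0, 3`, `1 ∉ m w` (triples `(0,1,2)`, `(1,2,3)`,
`(0,1,3)`; `u ∋ 0` means `0 ∈ m u`).  `m u`, `m u'` are not nested, so disjoint: `3 ∉ m u`, `0 ∉ m u'`.  `m w`, `m u` meet in
`0` and `3 ∈ m w \ m u`: `m u ⊆ m w`, `2 ∈ m w`.  `m w`, `m u'` meet in `3`, `0 ∈ m w \ m u'`, so `m u' ⊆ m w`, `1 ∈ m w`: contradiction.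
011 and 110 do not both occur: `m u ∋ 1, 2`, `0 ∉ m u`; `m w ∋ 0, 1`, `2 ∉ m w`.
None occurs: a missed set with two elements contains every third element: type (M) (single witnesses: `WM` for the
index `t e`).
Only 110 occurs: `m u ∋ a < b` implies `c ∈ m u` for all `c < b` (the pattern of `a, b, c` in their order would be 101 or
011): so `m u` is an initial segment, or has at most one element.  Witnesses: `p ≥ 2`: the pattern 110 at
`(0, p - 1, p)`; `p = 1`: the single of index `0`.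
Only 011 occurs: the same for the reversed sequence `i ↦ s (t (L - 1 - i))`.
Restrict from `L` to the first `n'` indices. -/
def S_R6 : Prop := ∀ n' : ℕ, ∃ n : ℕ, ∀ (V : Type) (G : SimpleGraph V) (s : ℕ → V), Sq G s n →
  WM G s n → LamT G s n → ∃ t : ℕ → ℕ, (∀ i j, i < j → j < n' → t i ≠ t j) ∧
    (∀ i, i < n' → t i < n) ∧ (TyM G (fun i => s (t i)) n' ∨ TyIS G (fun i => s (t i)) n')

/-- **R7.** The pattern 011 does not occur everywhere in a sequence with initial witnesses.  (Uses `S_M1`,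
`S_M3`, `S_M4`.)

Proof. `x p` is a vertex with `Tr (x p) = {i | i < p}`, `1 ≤ p ≤ 8`; `m w = Tr G s n w`; `K = rg s n`.
(1) `x p ~ x p'` for `1 ≤ p < p' ≤ 8`: otherwise let `w` see `s (p - 1)` and miss `s p`, `s p'` (pattern 011 at
`(p - 1, p, p')`); `w` is not adjacent to `x p`, `x p'` (M3: they miss `p - 1` and see `p'`).  M4 with `a = a' = s p'`,
`b = s (p - 1)`, `c = s p`, `x = x p'`, `y = w`, `z = x p`: contradiction.
(2) There is no `w` which sees `s a` and misses `s b`, `s c`, `s d`, `a < b < c < d ≤ 8`, `b + 3 ≤ d`: let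
`u = x (b + 1)`, `v = x d`, `u ~ v` by (1), `w ≁ u, v` (M3: `a` is missed by `u, v` and seen by `w`; `c` resp. `d` is missed
by `w` and seen by `u` resp. `v`).  Let `e' ∈ [b + 1, d)`, `e' ≠ c`.  M1 with `a := s e'`, `a' := s a`, `b := u`, `c := s c`,
`x := w`, `y := v`, `z := s b`: `u ~ s e', s c`; `w ~ s a`, `w ≁ u`, `w ≁ s c`; `v ~ u`, `v ≁ s e', s a, s c`;
`s b ~ s e', s c`, `s b ≁ u, v, w`.
(3) There is no `w` which misses `s e`, sees `s a`, misses `s b`, `s c`, `e < a < b < c ≤ 8`, `a + 3 ≤ c`: `u = x (a + 1)`,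
`v = x c`, `e' ∈ [a + 1, c)`, `e' ≠ b`; M1 with `a := s e'`, `a' := s a`, `b := u`, `c := s b`, `x := w`, `y := v`,
`z := s e`.
(4) For even numbers `a < b < c ≤ 8` let `w` be the vertex of the pattern 011 at `(a, b, c)`.  By (2) and (3) the
even elements `≤ 8` of `m w` are exactly `b` and `c`.  Take `w₁, w₂, w₃` for `(0, 2, 4)`, `(0, 4, 6)`, `(0, 6, 8)`; they are
pairwise not adjacent (M3).  M4 with `a = a' = s 2`, `b = s 6`, `c = s 4`, `x = w₂`, `y = w₁`, `z = w₃`: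
contradiction. -/
def S_R7 : Prop := ∀ (V : Type) (G : SimpleGraph V) (s : ℕ → V) (n : ℕ), Cls1 G → 9 ≤ n → Sq G s n →
  WI G s n → ¬ ∀ a b c, a < b → b < c → c < n → ∃ w, Ot s n w ∧ G.Adj w (s a) ∧
    ¬ G.Adj w (s b) ∧ ¬ G.Adj w (s c)

/-- **R8.** The pattern 101 does not occur everywhere if 011 does not occur.  (Uses `S_M1`, `S_M3`, `S_M4`.)

Proof. For `l + 1 < c < n` let `w l c` be the vertex of the pattern 101 at `(l, l + 1, c)`.  Its missed set is
`{0, ..., l, c}`: if it sees `s e`, `e < l`, then `(e, l, c)` is a pattern 011; if it misses `s d`, `d > l + 1`, `d ≠ c`, then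
`(l + 1, d, c)` or `(l + 1, c, d)` is a pattern 011.  Let `X₁ = w 0 3`, missed set `{0, 3}`; `X₂ = w 1 5`, `{0, 1, 5}`;
`X₃ = w 4 6`, `{0, 1, 2, 3, 4, 6}`.  `X₂` is not adjacent to `X₁`, `X₃` (M3).  If `X₁ ≁ X₃`: M4 with `a = a' = s 5`,
`b = s 3`, `c = s 1`, `x = X₃`, `y = X₂`, `z = X₁`.  If `X₁ ~ X₃`: M1 with `a = a' = s 2`, `b = X₁`, `c = s 1`, `x = X₂`,
`y = X₃`, `z = s 0`: `X₁ ~ s 2, s 1`; `X₂ ~ s 2`, `X₂ ≁ s 1`; `X₃ ~ X₁`, `X₃ ≁ s 2, s 1`; `s 0 ~ s 2, s 1`, `s 0 ≁ X₁, X₂, X₃`. -/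
def S_R8 : Prop := ∀ (V : Type) (G : SimpleGraph V) (s : ℕ → V) (n : ℕ), Cls1 G → 7 ≤ n → Sq G s n →
  (∀ w, Ot s n w → ∀ a b c, a < b → b < c → c < n → G.Adj w (s a) → ¬ G.Adj w (s b) →
    G.Adj w (s c)) →
  ¬ ∀ a b c, a < b → b < c → c < n → ∃ w, Ot s n w ∧ ¬ G.Adj w (s a) ∧ G.Adj w (s b) ∧
    ¬ G.Adj w (s c)

/-- **R9.** Initial witnesses.  (Uses `S_R0`, `S_R7`, `S_R8`.)

Proof. `L = max n' 7 + 2`; `n` from R0 for `κ = Bool × Bool × Bool`, `m = L`: the colour of `a < b < c` says which of the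
patterns 011, 101, 010 occur (a vertex outside `s` with this pattern of missed elements at `(a, b, c)`).  R0 gives
`t`.  `WI` for `s ∘ t`, length `L`: the vertex with missed set `{i | i < t p}` misses exactly the indices `< p` of
`s ∘ t`.  By R7 the pattern 011 does not occur (vertices `s j` see everything), so by R8 101 does not occur.  Hence a
missed set (on `s ∘ t`) with two elements is an initial segment: if `b < c` are in it, all `a < b` (no 011) and all
elements between (no 101) are in it.  Let `t' i = t (i + 1)`, `i < L - 2`.  On `s ∘ t'` (length `L - 2`) a missed set is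
an initial segment or a single element.
010 occurs: the vertex of the pattern 010 at `(e, e + 1, e + 2)` has the missed set `{e + 1}` on `s ∘ t`, so `{e}` on
`s ∘ t'`: type (CH) with singletons.  010 does not occur: a missed set `{e}` on `s ∘ t` has `e = 0` or `e = L - 1`, it
is empty on `s ∘ t'`: type (CH), pure.  Restrict from `L - 2` to the first `n'` indices. -/
def S_R9 : Prop := ∀ n' : ℕ, ∃ n : ℕ, ∀ (V : Type) (G : SimpleGraph V) (s : ℕ → V), Cls1 G →
  Sq G s n → WI G s n → ∃ t : ℕ → ℕ, (∀ i j, i < j → j < n' → t i < t j) ∧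
    (∀ i, i < n' → t i < n) ∧ (TyI G (fun i => s (t i)) n' ∨ TyIS G (fun i => s (t i)) n')

/-- **R10.** Regularization.  (Uses `S_R2`, `S_R3`, `S_R5`, `S_R6`, `S_R9`.)

Proof. Let `m' = max m 5`, `n₁ = n` of R6 for `m'`, `n₂ = n` of R5 for `n₁`, `n₃ = n` of R9 for `m'`, and `n` the maximum of
`n₂`, `n₃`, `m' + 1`; `N` of R2 for `q`, `n`.  `Sq`, `WM`, `WC`, `WI` for `n` imply the same for smaller `n`.  `WM`: R5, R6.
`WC`: R3 with `m'`.  `WI`: R9.  Compose the maps `t`.  At the end restrict from `m'` to `m` (`m = m'` if `m ≥ 5`): a vertex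
outside the first `m` elements is an `s j` with `m ≤ j < m'`, missed set empty, or outside the longer sequence; for
`m < 5` take the sequence for `m'` and restrict; the types are inherited by the first `m` elements. -/
def S_Reg : Prop := ∀ q m : ℕ, ∃ N : ℕ, ∀ (V : Type) [Finite V] (G : SimpleGraph V) (J : Set V),
  Cls1 G → CompleteOn G J → Lk G J q → N ≤ J.ncard → ∃ s : ℕ → V, (∀ i, i < m → s i ∈ J) ∧
    Sq G s m ∧ (TyM G s m ∨ TyC G s m ∨ TyI G s m ∨ TyIS G s m)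

/-- **R11.** The types are inherited by initial parts of the sequence.

Proof. A vertex `v` outside the first `m` elements is one of `s m, ..., s (n - 1)`, then `Tr G s m v = ∅` by `Sq`, or it
is outside the longer sequence, and `Tr G s m v` is the set of the elements `< m` of `Tr G s n v`. -/
def S_R11 : Prop := ∀ (V : Type) (G : SimpleGraph V) (s : ℕ → V) (m n : ℕ), m ≤ n → Sq G s n →
  (TyM G s n → TyM G s m) ∧ (TyC G s n → TyC G s m) ∧ (TyI G s n → TyI G s m) ∧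
    (TyIS G s n → TyIS G s m)

end Pool.Agent.MPd439b2.H1
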