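import Pool.Agent.Lib.MP_d439b2_co.H1.Spec1

/-!
# MP_d439b2_co, column `C_4`, the row `K3:0,1,02`: Spec 2, the types (CM) and (CH) with singletons

Cuts of rank at most `2` (type (CM)) and at most `3` (type (CH) with singletons), so these types do not occur in
linked cliques (S_Reg2).  The final theorem S_Fin1 uses the two statements S_NoI (pure chains) and S_NoM (type (M)).
-/

set_option autoImplicit false

namespace Pool.Agent.MPd439b2.H1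

open Pool.Agent.MPd439b2 Pool.Agent.MPd439b2.LK

section

variable {V : Type} (G : SimpleGraph V) (s : ℕ → V) (n : ℕ)

/-- the vertices with empty missed set -/
def hF : Set V := {v | Ot s n v ∧ Tr G s n v = ∅}

/-- the vertices which miss exactly `s e` -/
def hV (e : ℕ) : Set V := {v | Ot s n v ∧ Tr G s n v = {e}}

/-- the vertices which miss exactly `s 0, ..., s (p - 1)` -/
def hL (p : ℕ) : Set V := {v | Ot s n v ∧ Tr G s n v = {i | i < p}}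

/-- the vertices which see exactly `s e` -/
def cV (e : ℕ) : Set V := {v | Ot s n v ∧ Tr G s n v = {i | i < n ∧ i ≠ e}}

/-- the vertices which see nothing -/
def cO : Set V := {v | Ot s n v ∧ Tr G s n v = {i | i < n}}

end

/-! ## type (CM) -/

/-- **CM1.** Adjacencies in type (CM).  (Uses `S_M0`, `S_A0`, `S_M3`, `S_M4`.)

Proof. (1) M3 (`n ≥ 3`).
(2) Suppose `f ~ v`, `f ≁ v'` (the other case is the same with the roles exchanged).  First let `e ≠ e'`, `e'' ≠ e, e'`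
and `u ∈ cV e''` (`WC`).  `K = insert f (rg s n)` is a clique.  M4 with `a = s e''`, `a' = f`, `b = s e'`, `c = s e`,
`x = u`, `y = v'`, `z = v` gives `v' ~ v`, contradiction to (1).  If `e = e'` let `e₁ ≠ e`, `w ∈ cV e₁`: `f ~ w` and `f ≁ v'`,
or `f ~ v` and `f ≁ w`: the first case.
(3) If `e ≠ e'`: A0 with `{v}, C, {v'}, {s e, s e'}` (`C` misses everything, `v ≁ v'`).
(4) Let `f ~ v` and suppose that `f` misses some element of `C`.  Let `P` be the component of `v` in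
`G[{v} ∪ {o ∈ C | f ~ o}]` (`exists_comp`).  `{v} ∪ C` is connected, `P` is not everything, so there is `o ∈ C \ P` adjacent to `P`,
and `f ≁ o` (otherwise `o ∈ P`).  Let `e₁ ≠ e`, `v₁ ∈ cV e₁`, `k ≠ e, e₁`.  M0 with `P0 = {f}`, `P1 = P`, `P2 = {s e}`,
`x = v₁`, `y = o`, `z = s k`: `f ~ v ∈ P`, `f ~ s e`, `s e ~ v`; `v₁ ~ f` by (2), `v₁ ≁ P` by (1), (3), `v₁ ≁ s e`; `o` touches `P`,
`o ≁ f, s e`; `s k ~ f, s e`, `s k ≁ P` (`v` sees only `s e`, `C` nothing), `s k ≁ v₁, o`.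
If `f ≁ v` and `f ~ o ∈ C`: A0 with `{f}, C, {v}, {s e}` (`C` touches `v`; `f ≁ v`; `C` misses `s e`). -/
def S_CM1 : Prop := ∀ (V : Type) [Finite V] (G : SimpleGraph V) (s : ℕ → V) (n : ℕ), Cls1 G →
  3 ≤ n → Sq G s n → TyC G s n →
  (∀ e e' v v', e ≠ e' → e < n → e' < n → v ∈ cV G s n e → v' ∈ cV G s n e' → ¬ G.Adj v v') ∧
  (∀ e e' v v' f, e < n → e' < n → v ∈ cV G s n e → v' ∈ cV G s n e' → f ∈ hF G s n →
    (G.Adj f v ↔ G.Adj f v')) ∧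
  (∀ C e e' v v', IsComp G (cO G s n) C → e < n → e' < n → v ∈ cV G s n e → v' ∈ cV G s n e' →
    v ∈ nb G C → v' ∈ nb G C → e = e') ∧
  ∀ C e v f, IsComp G (cO G s n) C → e < n → v ∈ cV G s n e → v ∈ nb G C → f ∈ hF G s n →
    (G.Adj f v → ∀ o ∈ C, G.Adj f o) ∧ (¬ G.Adj f v → ∀ o ∈ C, ¬ G.Adj f o)

/-- **CM2.** The cut in type (CM).  (Uses `S_A1`, `S_CM1`.)

Proof. `X` is the union of `{s i | i < h}`, the `cV e`, `e < h`, and the components `C` of `G[cO]` with some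
`v ∈ cV e ∩ nb C`, `e < h`.  Every vertex is an `s i` or in `hF`, `cO` or some `cV e` (`e < n`).  Let
`F₁ = {f ∈ hF | f` is adjacent to some `v` in some `cV e, e < n}`; by CM1 (2) `F₁` is complete to all `cV e` and the
other vertices of `hF` are anticomplete to them.  Rows outside `X`: `s i` (`i < h`): exactly
`{s j | h ≤ j < n} ∪ hF`.  `v ∈ cV e`, `e < h`: exactly `F₁` (CM1 (1); a neighbour in `cO` is in a component which
belongs to `X`).  `o ∈ C`: exactly `F₁` (CM1 (3), (4); `o` has no neighbours in other components, and `C` has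
neighbours in `cV e'` only for `e' = e < h`).  A1 (5), (3). -/
def S_CM2 : Prop := ∀ (V : Type) [Finite V] (G : SimpleGraph V) (s : ℕ → V) (n h : ℕ), Cls1 G →
  3 ≤ n → Sq G s n → TyC G s n → h ≤ n → ∃ X : Set V, cr G X ≤ 2 ∧ ∀ i, i < n → (s i ∈ X ↔ i < h)

/-! ## type (CH) with singletons: the sequence is `s 0, ..., s n` -/

/-- **CH1.** Adjacencies outside.  (Uses `S_M1`, `S_M2`, `S_M3`.)

Proof. The missed set of `v ∈ hV e` is `{e}`, that of `l ∈ hL p` is `{i | i < p}`.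
(1) M3.
(2) M3 if `e ≥ p`.  Let `p ≥ 3`, `l ~ v ∈ hV e`, `e < p`.  `l` has no neighbour in `hV e'`, `e' ≠ e`: it would be some
`v'`, and `l, v, s j, v'` with `j < p`, `j ≠ e, e'`, is a four-cycle (M2) (`v ≁ v'` by (1), `l ≁ s j`).  Let `b ≠ c` be two
elements of `{0, .., p - 1} \ {e}` and `d ≠ b, c, e` (`d ≤ n`, `n ≥ 3`), `v_c ∈ hV c`, `v_d ∈ hV d`.  M1 with `a = a' = s b`,
`b := v`, `c := s c`, `x = v_c`, `y = l`, `z = v_d`.
(3) Let `l ∈ hL p`, `l' ∈ hL q`, `l ~ l'`, `p < q ≤ n`, `v ∈ hV (q - 1)`, `v' ∈ hV q`.  M1 with `a = a' = s q`, `b = s (q - 1)`, `c = l`,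
`x = v`, `y = v'`, `z = l'`: `l ~ s q, s (q - 1)`; `v ~ s q`, `v ≁ s (q - 1)`, `v ≁ l` by (2) (`q - 1 ≥ 2` if `p = 2`); `v' ~ s (q - 1)`,
`v' ≁ s q, l` (2); `l' ~ s q, l`, `l' ≁ s (q - 1)`; `v ≁ v'`, `v, v' ≁ l'` (2).
(4) Let `l ∈ hL p`, `z ∈ hL (n + 1)`, `l ~ z`, `v ∈ hV p`, `d ≠ p, p + 1`, `d ≥ 2`, `v' ∈ hV d`.  M1 with `a = a' = s (p + 1)`, `b = l`,
`c = s p`, `x = v`, `y = z`, `z := v'`: `l ~ s (p + 1), s p`; `v ~ s (p + 1)`, `v ≁ s p, l` (2); `z ~ l`, `z` misses everything;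
`v' ~ s (p + 1), s p`, `v' ≁ l` (2), `v' ≁ v`, `v, v' ≁ z` (2).  (`p + 1 ≤ n`; such a `d ≤ n` exists because `n ≥ 4`.) -/
def S_CH1 : Prop := ∀ (V : Type) (G : SimpleGraph V) (s : ℕ → V) (n : ℕ), Cls1 G → 4 ≤ n →
  Sq G s (n + 1) → TyIS G s (n + 1) →
  (∀ e e' v v', e ≠ e' → v ∈ hV G s (n + 1) e → v' ∈ hV G s (n + 1) e' → ¬ G.Adj v v') ∧
  (∀ e p v l, (3 ≤ p ∨ p = 2 ∧ 2 ≤ e) → p ≤ n + 1 → e ≤ n → v ∈ hV G s (n + 1) e →
    l ∈ hL G s (n + 1) p → ¬ G.Adj v l) ∧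
  (∀ p q l l', 2 ≤ p → p < q → q ≤ n → l ∈ hL G s (n + 1) p → l' ∈ hL G s (n + 1) q →
    ¬ G.Adj l l') ∧
  ∀ p l z, 2 ≤ p → p ≤ n - 1 → l ∈ hL G s (n + 1) p → z ∈ hL G s (n + 1) (n + 1) → ¬ G.Adj l z

/-- **CH2.** The vertices with empty missed set.  (Uses `S_M1`, `S_CH1`.)

Proof. `f ∈ hF`.  Non-adjacencies of `hV`, `hL` are from CH1.
(1) `x ∈ hL q`, `f ~ x`, `x' ∈ hL p`, suppose `f ≁ x'`; `v ∈ hV p`.  M1 with `a = f`, `a' = s 1`, `b = s p`, `c = s 0`, `x = x`,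
`y = x'`, `z = v`: `x ~ f`, `x ≁ s p, s 0`; `x' ~ s p`, `x' ≁ f, s 1, s 0`; `v ~ s 1, s 0`, `v ≁ s p`.
(2) `f ~ x ∈ hL q`, `3 ≤ q`, `e < q`, `e ≤ n`, `v ∈ hV e`, suppose `f ≁ v`.  If `e ≥ 2` let `x' ∈ hL 2` (`WI`); `f ~ x'` by (1).  M1 with `a = a' = f`,
`b = s 0`, `c = s e`, `x = x`, `y = v`, `z = x'`.  If `e < 2` let `v₂ ∈ hV 2`, `f ~ v₂` by the first case.  M1 with `a = a' = f`,
`b = s 2`, `c = s e`, `x = x`, `y = v`, `z = v₂`.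
(3) `f ~ x' ∈ hL p`, `f ≁ x ∈ hL q`, `v ∈ hV e`, suppose `f ≁ v`.  M1 with `a = a' = s e`, `b = s 0`, `c = f`, `x = x`, `y = v`, `z = x'`.
(4) `f ≁ x ∈ hL p`, `f ~ v' ∈ hV g`, `v ∈ hV e`, suppose `f ≁ v`.  M1 with `a = a' = s e`, `b = s g`, `c = f`, `x = x`, `y = v`,
`z = v'`. -/
def S_CH2 : Prop := ∀ (V : Type) (G : SimpleGraph V) (s : ℕ → V) (n : ℕ), Cls1 G → 4 ≤ n →
  Sq G s (n + 1) → TyIS G s (n + 1) → ∀ f ∈ hF G s (n + 1),
  (∀ p q x, 2 ≤ p → p < q → q ≤ n + 1 → p ≤ n - 1 → x ∈ hL G s (n + 1) q → G.Adj f x →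
    ∀ x' ∈ hL G s (n + 1) p, G.Adj f x') ∧
  (∀ e q x, 3 ≤ q → q ≤ n + 1 → e < q → e ≤ n → x ∈ hL G s (n + 1) q → G.Adj f x →
    ∀ v ∈ hV G s (n + 1) e, G.Adj f v) ∧
  (∀ e p q x x', 2 ≤ p → p < q → q ≤ e → e ≤ n → x' ∈ hL G s (n + 1) p → G.Adj f x' →
    x ∈ hL G s (n + 1) q → ¬ G.Adj f x → ∀ v ∈ hV G s (n + 1) e, G.Adj f v) ∧
  ∀ e g p x v', 3 ≤ p → g < p → p ≤ e → e ≤ n → x ∈ hL G s (n + 1) p → ¬ G.Adj f x →
    v' ∈ hV G s (n + 1) g → G.Adj f v' → ∀ v ∈ hV G s (n + 1) e, G.Adj f v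

section

variable {V : Type} (G : SimpleGraph V) (s : ℕ → V) (n h : ℕ)

/-- complete to level `h` -/
def q1 : Set V := {f | f ∈ hF G s (n + 1) ∧ ∀ x ∈ hL G s (n + 1) h, G.Adj f x}

/-- not in `q1`, touches a single of index `< h` -/
def q2 : Set V := {f | f ∈ hF G s (n + 1) ∧ f ∉ q1 G s n h ∧
  ∃ e, e < h ∧ ∃ v ∈ hV G s (n + 1) e, G.Adj f v}

/-- not in `q1`, `q2`, touches a single of index `h ≤ e < n` -/
def q3 : Set V := {f | f ∈ hF G s (n + 1) ∧ f ∉ q1 G s n h ∧ f ∉ q2 G s n h ∧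
  ∃ e, h ≤ e ∧ e < n ∧ ∃ v ∈ hV G s (n + 1) e, G.Adj f v}

/-- the rest of `hF`, and `hV n` -/
def r0 : Set V := {v | v ∈ hV G s (n + 1) n ∨
  (v ∈ hF G s (n + 1) ∧ v ∉ q1 G s n h ∧ v ∉ q2 G s n h ∧ v ∉ q3 G s n h)}

/-- the components of `G[r0]` which miss some vertex of `q2` -/
def p2 : Set (Set V) := {P | IsComp G (r0 G s n h) P ∧ ∃ f ∈ q2 G s n h, ∀ g ∈ P, ¬ G.Adj g f}

/-- the vertices of `q3` which are touched by a component in `p2` -/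
def q3i : Set V := {f | f ∈ q3 G s n h ∧ ∃ P ∈ p2 G s n h, ∃ g ∈ P, G.Adj g f}

/-- the components of `G[r0]`, not in `p2`, which miss some vertex of `q3i` -/
def p3 : Set (Set V) := {P | IsComp G (r0 G s n h) P ∧ P ∉ p2 G s n h ∧
  ∃ f ∈ q3i G s n h, ∀ g ∈ P, ¬ G.Adj g f}

/-- the setting: type (CH) with singletons, `s 0, ..., s n`, and the position `h` of the cut -/
def CHset : Prop := Cls1 G ∧ 4 ≤ h ∧ h + 1 ≤ n ∧ Sq G s (n + 1) ∧ TyIS G s (n + 1)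

end

/-- **CH3.** The classes of `hF`.  (Uses `S_CH1`, `S_CH2`.)

Proof. (1) CH2 (1), (2) with a vertex `x ∈ hL h` (`WI`).  (For `p = h` by definition.)
(2) If `f ∈ q2` sees some `x ∈ hL p`, `h < p`, then `f` is complete to `hL h` by CH2 (1) (`h ≤ n - 1`): `f ∈ q1`, contradiction.  `f`
misses some `x ∈ hL h` and sees some `v' ∈ hV g`, `g < h`: CH2 (4) with `p = h`.
(3) Let `f ∈ hF`, `f ∉ q1`, `f ∉ q2`.  It is anticomplete to `hV e`, `e < h`.  Suppose `f ~ x ∈ hL p`.  `p > h`: `f ∈ q1` as in (2).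
`3 ≤ p ≤ h`: CH2 (2) gives `f` complete to `hV 0` (not empty): `f ∈ q2`.  `p = 2`: `3 ≤ h - 1`; if `f` misses an element of
`hL (h - 1)` then CH2 (3) with `q = e = h - 1` gives `f` complete to `hV (h - 1)`: `f ∈ q2`; otherwise `f` sees some
element of `hL (h - 1)` (it is not empty), this was the case before.
(4) For `v ∈ hF` this is (3) and the definition of `q3`; for `v ∈ hV n` it is CH1 (1), (2).
(5) Let `f ∈ q3` see `v' ∈ hV t`, `h ≤ t < n`; `f` misses an element of `hL (t + 1)` by (3): CH2 (4) with `p = t + 1`,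
`g = t`, `e = n`. -/
def S_CH3 : Prop := ∀ (V : Type) (G : SimpleGraph V) (s : ℕ → V) (n h : ℕ), CHset G s n h →
  (∀ f ∈ q1 G s n h, (∀ p, 2 ≤ p → p ≤ h → ∀ x ∈ hL G s (n + 1) p, G.Adj f x) ∧
    ∀ e, e < h → ∀ v ∈ hV G s (n + 1) e, G.Adj f v) ∧
  (∀ f ∈ q2 G s n h, (∀ p, h < p → p ≤ n + 1 → ∀ x ∈ hL G s (n + 1) p, ¬ G.Adj f x) ∧
    ∀ e, h ≤ e → e ≤ n → ∀ v ∈ hV G s (n + 1) e, G.Adj f v) ∧
  (∀ f ∈ hF G s (n + 1), f ∉ q1 G s n h → f ∉ q2 G s n h →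
    (∀ p, 2 ≤ p → p ≤ n + 1 → ∀ x ∈ hL G s (n + 1) p, ¬ G.Adj f x) ∧
    ∀ e, e < h → ∀ v ∈ hV G s (n + 1) e, ¬ G.Adj f v) ∧
  (∀ g ∈ r0 G s n h, (∀ p, 2 ≤ p → p ≤ n + 1 → ∀ x ∈ hL G s (n + 1) p, ¬ G.Adj g x) ∧
    ∀ e, e < n → ∀ v ∈ hV G s (n + 1) e, ¬ G.Adj g v) ∧
  ∀ f ∈ q3 G s n h, ∀ v ∈ hV G s (n + 1) n, G.Adj f v

/-- **CH4.** `q1 ∪ q2 ∪ q3` is a clique.  (Uses `S_M2`, `S_CH2`, `S_CH3`.)

Proof. `f ≠ f'` are adjacent as soon as they have a common neighbour `w` in some `hV e` (`e ≤ n`) or `hL p` (`2 ≤ p`):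
`f, w, f', s j` with `j` missed by `w` (M2).  `q1, q1`: `hV 0`.  `q1, q2`: the element of `q2` sees a vertex of some
`hV e`, `e < h`, `q1` is complete to it (CH3 (1)).  `q2, q2`: `hV h`.  `q2, q3`: the element of `q3` sees a vertex of
`hV e`, `h ≤ e < n`, `q2` is complete to it.  `q3, q3`: `hV n` (CH3 (5)).  `q1, q3`: let `f' ∈ q3` see `v ∈ hV t`,
`h ≤ t < n`.  If `f ∈ q1` misses an element of `hL (t + 1)` then it is complete to `hV n` (CH2 (4) with `g = 0`,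
`p = t + 1`, `e = n`; `f` sees `hV 0`), and so is `f'` (CH3 (5)).  Otherwise `f` sees an element of `hL (t + 1)` and is
complete to `hV t` by CH2 (2): `v` is a common neighbour. -/
def S_CH4 : Prop := ∀ (V : Type) (G : SimpleGraph V) (s : ℕ → V) (n h : ℕ), CHset G s n h →
  CompleteOn G (q1 G s n h ∪ q2 G s n h ∪ q3 G s n h)

/-- **CH5.** A component of `G[r0]` is complete or anticomplete to every vertex of `q2 ∪ q3`.  (Uses `S_M5`,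
`S_CH1`, `S_CH3`.)

Proof. Let `t` with `h ≤ t < n` and `v ∈ hV t` with `f ~ v` (`f ∈ q2`: `t = h`, CH3 (2); `f ∈ q3`: definition), and `l ∈ hL h` with
`f ≁ l` (`f ∉ q1`).  M5 with `C = P`, `k₁ = f`, `k₂ = s t`, `x = v`, `y = l`: `f ~ s t`; `v`, `l` are anticomplete to `P`
(CH3 (4)), `v ≁ l` (CH1 (2)), `v ~ f`, `v ≁ s t`, `l ~ s t` (`t ≥ h`), `l ≁ f`; `P` is complete to `s t` (`t < n`). -/
def S_CH5 : Prop := ∀ (V : Type) (G : SimpleGraph V) (s : ℕ → V) (n h : ℕ) (P : Set V),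
  CHset G s n h → IsComp G (r0 G s n h) P → ∀ f ∈ q2 G s n h ∪ q3 G s n h,
    (∀ g ∈ P, G.Adj g f) ∨ ∀ g ∈ P, ¬ G.Adj g f

/-- **CH6.** The closure.  (Uses `S_M4`, `S_CH1`, `S_CH3`, `S_CH4`, `S_CH5`.)

Proof. `K = {s i | i ≤ n - 1} ∪ q1 ∪ q2 ∪ q3` is a clique (CH4; `q's` see all `s i`); all vertices of `r0`, `hV`, `hL` are outside
`K`.  `r0` sees all `s i`, `i < n`.  For `P ∈ p2` let `f₀ ∈ q2` be anticomplete to `P`, `l ∈ hL h` with `f₀ ≁ l`, `v ∈ hV e`, `e < h`,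
with `f₀ ~ v`.
(a) Let `g ∈ P`, `q ∈ q1`, suppose `g ≁ q`.  M4 with `a = a' = q`, `b = s e`, `c = f₀`, `x = l`, `y = g`, `z = v` gives `g ~ v`:
contradiction to CH3 (4).
(b) Let `ψ ∈ q3i`: `g ∈ P ∈ p2`, `g ~ ψ`; let `w ∈ hV t`, `h ≤ t < n`, suppose `ψ ≁ w`.  M4 with `a = a' = s t`, `b = f₀`, `c = ψ`, `x = l`,
`y = w`, `z = g` gives `w ~ g`: contradiction.  (`l ~ s t`, `l ≁ f₀, ψ` (CH3 (3)); `w ~ f₀` (CH3 (2)), `w ≁ s t, ψ`; `g ~ s t, ψ`,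
`g ≁ f₀`.)
(c) Let `P' ∈ p3`, `g' ∈ P'`, `q ∈ q1`, suppose `g' ≁ q`.  `ψ ∈ q3i` is anticomplete to `P'`; `g ∈ P ∈ p2`, `g ~ ψ`, `f₀` for `P`.
`P' ∉ p2`, so `g' ~ f₀` (CH5).  `g ~ q` by (a); `g ≁ g'` (different components: `P` misses `f₀`, `P'` does not).  M4 with
`a = a' = q`, `b = f₀`, `c = ψ`, `x = l`, `y = g'`, `z = g` gives `g' ~ g`: contradiction.
(d) Let `P' ∈ p3`, `g' ∈ P'`, `ψ' ∈ q3 \ q3i`, suppose `g' ~ ψ'`.  `ψ`, `g`, `f₀`, `v` as before; `g ≁ ψ'` (`ψ' ∉ q3i`).  M4 with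
`a = a' = f₀`, `b = ψ`, `c = ψ'`, `x = v`, `y = g`, `z = g'` gives `g ~ g'`: contradiction.  (`v ~ f₀`, `v ≁ ψ, ψ'` (CH3 (3)), `g ~ ψ`,
`g ≁ f₀, ψ'`, `g' ~ f₀, ψ'`, `g' ≁ ψ`.) -/
def S_CH6 : Prop := ∀ (V : Type) (G : SimpleGraph V) (s : ℕ → V) (n h : ℕ), CHset G s n h →
  (∀ P ∈ p2 G s n h, ∀ g ∈ P, ∀ q ∈ q1 G s n h, G.Adj g q) ∧
  (∀ f ∈ q3i G s n h, ∀ t, h ≤ t → t < n → ∀ w ∈ hV G s (n + 1) t, G.Adj f w) ∧
  (∀ P ∈ p3 G s n h, ∀ g ∈ P, ∀ q ∈ q1 G s n h, G.Adj g q) ∧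
  ∀ P ∈ p3 G s n h, ∀ g ∈ P, ∀ f ∈ q3 G s n h, f ∉ q3i G s n h → ¬ G.Adj g f

/-- **CH7.** The cut in type (CH) with singletons.  (Uses `S_A1`, `S_CH1`, `S_CH3`, `S_CH4`, `S_CH5`, `S_CH6`.)

Proof. Every vertex is an `s i` (`i ≤ n`), or in `hF`, in `hV e` (`e ≤ n`) or in `hL p` (`2 ≤ p ≤ n + 1`).
`X = {s i | i < h} ∪ ⋃ hV e (e < h) ∪ ⋃ hL p (2 ≤ p ≤ h) ∪ q2 ∪ q3i ∪ ⋃₀ p2 ∪ ⋃₀ p3`.
`Xᶜ`: `s j` (`h ≤ j ≤ n`), `hV e` (`h ≤ e < n`), `hL p` (`h < p ≤ n + 1`), `q1`, `q3 \ q3i`, and the components of `G[r0]`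
outside `p2 ∪ p3`; these are complete to `q2` (not in `p2`, CH5) and to `q3i` (not in `p3`, CH5).
ROWS: `s i` (`i < h`), `q2`, `q3i` see exactly: all `s j` (`j ≥ h`), all `hV e` (`h ≤ e < n`) (CH3 (2), CH6 (b)), `q1` and
`q3 \ q3i` (CH4), all other components of `G[r0]` (`s i` because `i < n`); they see nothing of `hL p`, `p > h` (`s i`:
`i < h < p`; CH3 (2), (3)).
`hV e` (`e < h`), `hL p` (`p ≤ h`), the vertices of `⋃₀ p2`, `⋃₀ p3` see exactly the `s j` (`h ≤ j`), with the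
exception of `s n` for vertices of `hV n`, and `q1` (CH3 (1), CH6 (a), (c)); nothing of `hV e'`, `hL p'` (CH1, CH3 (4)),
nothing of `q3 \ q3i` (CH3 (3); `p2`: definition of `q3i`; CH6 (d)), nothing of the other components.
So `rk X (Xᶜ \ {s n}) ≤ 2` (two row types, A1 (3), (5)), and `rk X {s n} ≤ 1`. -/
def S_CH7 : Prop := ∀ (V : Type) [Finite V] (G : SimpleGraph V) (s : ℕ → V) (n h : ℕ),
  CHset G s n h → ∃ X : Set V, cr G X ≤ 3 ∧ ∀ i, i ≤ n → (s i ∈ X ↔ i < h)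

/-- **Reg2.** Regularization of linked cliques: only the types (M) and (CH) pure.  (Uses `S_Reg`, `S_R11`,
`S_CM2`, `S_CH7`.)

Proof. `m' = max m (10 * q + 20)`, `N` from Reg for `q`, `m'`.  `rg s m' ⊆ J` is linked with constant `q` (`Lk` passes to
subsets).  Type (CM): CM2 with `h = 2 * q + 1` gives `X` with `cr G X ≤ 2` and at least `2 * q + 1` elements of
`rg s m'` on both sides (`s` is injective on the indices `< m'` by `Sq`): contradiction.  Type (CH) with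
singletons: CH7 with `n = m' - 1`, `h = 3 * q + 4`: at least `3 * q + 1` elements on both sides.  Otherwise R11. -/
def S_Reg2 : Prop := ∀ q m : ℕ, ∃ N : ℕ, ∀ (V : Type) [Finite V] (G : SimpleGraph V) (J : Set V),
  Cls1 G → CompleteOn G J → Lk G J q → N ≤ J.ncard → ∃ s : ℕ → V, (∀ i, i < m → s i ∈ J) ∧
    Sq G s m ∧ (TyM G s m ∨ TyI G s m)

/-- long linked pure chains do not exist (helper97, note 2630) -/
def S_NoI : Prop := ∀ q : ℕ, ∃ m : ℕ, ∀ (V : Type) [Finite V] (G : SimpleGraph V) (s : ℕ → V),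
  Cls1 G → Sq G s m → TyI G s m → ¬ Lk G (rg s m) q

/-- long linked cliques of type (M) do not exist (helper7) -/
def S_NoM : Prop := ∀ q : ℕ, ∃ m : ℕ, ∀ (V : Type) [Finite V] (G : SimpleGraph V) (s : ℕ → V),
  Cls1 G → Sq G s m → TyM G s m → ¬ Lk G (rg s m) q

/-- **Fin1.** The theorem: chordal graphs without `K3:0,1,02` have layouts of bounded width, and the pair
`(C_4, K3:0,1,02)` has bounded clique-width.  (Uses `S_A13`, `S_Reg2`, `S_R11`, `S_NoI`, `S_NoM`, `S_LayCW`.)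

Proof. `m₁` from NoI for `q = 3`, `m₂` from NoM for `q = 3`, `m = max m₁ m₂`, `N` from Reg2 for `3`, `m`; `k` from A13 for
`n = N`.  A clique `J`, `|J| = N`, with `Lk G J 3` contains a sequence of type (M) or (CH) of length `m`, by R11 of
length `m₁` or `m₂`, and `rg s m_i ⊆ J` is linked: contradiction.  For the second part `IsIndMinor` is `IMS`
(`ims_univ_iff`), and `S_LayCW` (as in `L4/C15.lean`). -/
def S_Fin1 : Prop := (∃ k : ℕ, ∀ (V : Type) [Finite V] (G : SimpleGraph V), Cls1 G →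
    Lay G k Set.univ) ∧ BoundedCW cyc4 (KA 3 3 ![{0}, {1}, {0, 2}])

end Pool.Agent.MPd439b2.H1
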